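import Mathlib

/-! # q-Catalan numbers: definitions -/

namespace Pool.Agent.H20.QCat

open Polynomial Finset

/-- The q-integer `[m] = 1 + q + ... + q^(m-1)`. -/
noncomputable def qnum (m : ℕ) : ℤ[X] := ∑ i ∈ range m, X ^ i

/-- The q-factorial `[m]! = [1][2]...[m]`. -/
noncomputable def qfact (m : ℕ) : ℤ[X] := ∏ i ∈ range m, qnum (i + 1)

/-- The q-Catalan number `C_n(q) = [2n]! / ([n+1] [n]! [n]!)` (the quotient of a polynomial by a
monic polynomial; the division is exact, see `qCatalan_mul`). -/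
noncomputable def qCatalan (n : ℕ) : ℤ[X] :=
  qfact (2 * n) /ₘ (qnum (n + 1) * (qfact n * qfact n))

end Pool.Agent.H20.QCat
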