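import Pool.Agent.H20.QCat.Stab

/-! # Reading the limiting coefficients off the digits of one large quotient -/

namespace Pool.Agent.H20.QCat

open Finset Polynomial

lemma eval_zero_small (W B : ℤ) (hW : 0 < W) (hB : B < W) : ∀ (n : ℕ) (p : ℤ[X]),
    p.natDegree < n → (∀ i, |p.coeff i| ≤ B) → p.eval W = 0 → p = 0 := by
  intro n
  induction n with
  | zero => intro p hp; omega
  | succ n ih =>
    intro p hp hc he
    have hd := divX_mul_X_add p
    have h1 : p.eval W = (divX p).eval W * W + p.coeff 0 := by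
      conv_lhs => rw [← hd]
      simp
    rw [he] at h1
    have h2 : (divX p).eval W = 0 := by
      have h3 := abs_le.1 (hc 0)
      by_contra hne
      rcases lt_or_gt_of_ne hne with h | h
      · have : (divX p).eval W ≤ -1 := by omega
        nlinarith
      · have : 1 ≤ (divX p).eval W := by omega
        nlinarith
    have h3 : p.coeff 0 = 0 := by rw [h2] at h1; linarith
    rcases Nat.eq_zero_or_pos p.natDegree with h0 | h0
    · rw [eq_C_of_natDegree_eq_zero h0, h3, C_0]
    · have h4 : divX p = 0 := by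
        apply ih (divX p) _ _ h2
        · rw [natDegree_divX_eq_natDegree_tsub_one]; omega
        · intro i; rw [coeff_divX]; exact hc _
      rw [← hd, h4, h3]; simp

lemma eval_small (W B : ℤ) (hW : 0 < W) (hB0 : 0 ≤ B) (hB : B + 4 < W) : ∀ (K : ℕ) (p : ℤ[X]),
    (∀ i, |p.coeff i| ≤ B) → |p.eval W| ≤ 3 * W ^ K + 1 → ∀ i, K + 1 ≤ i → p.coeff i = 0 := by
  intro K
  induction K with
  | zero =>
    intro p hc he i hi
    have hd := divX_mul_X_add p
    have h1 : p.eval W = (divX p).eval W * W + p.coeff 0 := by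
      conv_lhs => rw [← hd]
      simp
    have h3 := abs_le.1 (hc 0)
    have h4 := abs_le.1 he
    have h2 : (divX p).eval W = 0 := by
      by_contra hne
      rcases lt_or_gt_of_ne hne with h | h
      · have : (divX p).eval W ≤ -1 := by omega
        nlinarith
      · have : 1 ≤ (divX p).eval W := by omega
        nlinarith
    have h5 : divX p = 0 :=
      eval_zero_small W B hW (by linarith) _ (divX p) (Nat.lt_succ_self _)
        (fun i => by rw [coeff_divX]; exact hc _) h2
    obtain ⟨j, rfl⟩ : ∃ j, i = j + 1 := ⟨i - 1, by omega⟩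
    rw [← coeff_divX, h5, coeff_zero]
  | succ K ih =>
    intro p hc he i hi
    have hd := divX_mul_X_add p
    have h1 : p.eval W = (divX p).eval W * W + p.coeff 0 := by
      conv_lhs => rw [← hd]
      simp
    have h3 := abs_le.1 (hc 0)
    have h4 := abs_le.1 he
    have hWK : 0 < W ^ K := pow_pos hW K
    have h2 : |(divX p).eval W| ≤ 3 * W ^ K + 1 := by
      rw [abs_le]
      rw [pow_succ] at h4
      constructor
      · by_contra hlt
        have : (divX p).eval W ≤ -(3 * W ^ K + 1) - 1 := by omega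
        nlinarith
      · by_contra hlt
        have : 3 * W ^ K + 1 + 1 ≤ (divX p).eval W := by omega
        nlinarith
    obtain ⟨j, rfl⟩ : ∃ j, i = j + 1 := ⟨i - 1, by omega⟩
    rw [← coeff_divX]
    exact ih (divX p) (fun i => by rw [coeff_divX]; exact hc _) h2 j (by omega)

/-- the reversed truncated pentagonal polynomial -/
noncomputable def Qr (K J : ℕ) : ℤ[X] :=
  ∑ j ∈ Icc (-(J : ℤ)) J, C ((Int.negOnePow j : ℤˣ) : ℤ) * X ^ (K - pentagonal j)

/-- the digit polynomial -/
noncomputable def Pr (W K N : ℕ) : ℤ[X] :=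
  ∑ p ∈ range (K + 1), C ((N / W ^ p % W : ℕ) : ℤ) * X ^ p

lemma Pr_coeff (W K N p : ℕ) (hp : p ≤ K) : (Pr W K N).coeff p = ((N / W ^ p % W : ℕ) : ℤ) := by
  rw [Pr, finsetSum_coeff]
  rw [sum_eq_single p]
  · simp
  · intro b _ hb
    rw [coeff_C_mul, coeff_X_pow, if_neg (fun h => hb h.symm), mul_zero]
  · intro h; exact absurd (mem_range.2 (by omega)) h

lemma Pr_coeff_zero (W K N p : ℕ) (hp : K < p) : (Pr W K N).coeff p = 0 := by
  rw [Pr, finsetSum_coeff]
  apply sum_eq_zero
  intro b hb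
  rw [mem_range] at hb
  rw [coeff_C_mul, coeff_X_pow, if_neg (by omega), mul_zero]

lemma digit_sum (W N : ℕ) (n : ℕ) :
    N % W ^ n = ∑ p ∈ range n, (N / W ^ p % W) * W ^ p := by
  induction n with
  | zero => simp [Nat.mod_one]
  | succ n ih => rw [Nat.mod_pow_succ, sum_range_succ, ih, mul_comm (W ^ n)]

lemma Pr_eval (W K N : ℕ) (hN : N < W ^ (K + 1)) : (Pr W K N).eval (W : ℤ) = N := by
  have h := digit_sum W N (K + 1)
  rw [Nat.mod_eq_of_lt hN] at h
  conv_rhs => rw [h]
  rw [Pr, eval_finsetSum]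
  push_cast
  apply sum_congr rfl
  intro p _
  simp

lemma Pr_natDegree (W K N : ℕ) : (Pr W K N).natDegree ≤ K := by
  rw [natDegree_le_iff_coeff_eq_zero]
  intro p hp
  exact Pr_coeff_zero W K N p hp

lemma Qr_natDegree (K J : ℕ) : (Qr K J).natDegree ≤ K := by
  apply natDegree_sum_le_of_forall_le
  intro j _
  exact (natDegree_C_mul_X_pow_le _ _).trans (Nat.sub_le _ _)

lemma Qr_coeff (K J : ℕ) (hJ : ∀ j : ℤ, pentagonal j ≤ K ↔ j ∈ Icc (-(J : ℤ)) J) (b : ℕ)
    (hb : b ≤ K) :
    (Qr K J).coeff (K - b) = PowerSeries.coeff b (PowerSeries.pentagonalSeries ℤ) := by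
  rw [Qr, finsetSum_coeff]
  by_cases h : b ∈ Set.range pentagonal
  · obtain ⟨j, rfl⟩ := h
    have hj := (hJ j).1 hb
    rw [sum_eq_single j]
    · rw [PowerSeries.coeff_pentagonalSeries_pentagonal, coeff_C_mul, coeff_X_pow, if_pos rfl,
        mul_one]
      simp only [Int.cast_id]
    · intro i hi hij
      have h1 := (hJ i).2 hi
      rw [coeff_C_mul, coeff_X_pow, if_neg, mul_zero]
      intro h2
      apply hij
      apply pentagonal_injective
      omega
    · intro h; exact absurd hj h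
  · rw [PowerSeries.coeff_pentagonalSeries_eq_zero ℤ h]
    apply sum_eq_zero
    intro i hi
    have h1 := (hJ i).2 hi
    rw [coeff_C_mul, coeff_X_pow, if_neg, mul_zero]
    intro h2
    exact h ⟨i, by omega⟩

lemma PQ_bound (W K J N : ℕ) (B : ℤ) (hB0 : 0 ≤ B)
    (hB : ∀ p ≤ K, ((N / W ^ p % W : ℕ) : ℤ) ≤ B) (i : ℕ) :
    |(Pr W K N * Qr K J).coeff i| ≤ (2 * J + 1) * B := by
  have hP : ∀ p, |(Pr W K N).coeff p| ≤ B := by
    intro p
    rcases le_or_gt p K with hp | hp
    · rw [Pr_coeff _ _ _ _ hp, abs_of_nonneg (by positivity)]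
      exact hB p hp
    · rw [Pr_coeff_zero _ _ _ _ hp, abs_zero]; exact hB0
  rw [Qr, mul_sum, finsetSum_coeff]
  refine (abs_sum_le_sum_abs _ _).trans ?_
  have hcard : ((Icc (-(J : ℤ)) J).card : ℤ) = 2 * J + 1 := by
    rw [Int.card_Icc]
    rw [Int.toNat_of_nonneg (by omega)]
    ring
  rw [← hcard, ← nsmul_eq_mul, ← sum_const]
  apply sum_le_sum
  intro j _
  have e : Pr W K N * (C ((Int.negOnePow j : ℤˣ) : ℤ) * X ^ (K - pentagonal j)) =
      C ((Int.negOnePow j : ℤˣ) : ℤ) * (Pr W K N * X ^ (K - pentagonal j)) := by ring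
  rw [e, coeff_C_mul, abs_mul]
  have h1 : |((Int.negOnePow j : ℤˣ) : ℤ)| = 1 := by
    rcases Int.units_eq_one_or (Int.negOnePow j) with h | h <;> rw [h] <;> simp
  rw [h1, one_mul, coeff_mul_X_pow']
  split_ifs
  · exact hP _
  · rw [abs_zero]; exact hB0

theorem ac_eq_digit (W K J N E : ℕ) (B : ℕ) (hK : 1 ≤ K)
    (hJ : ∀ j : ℤ, pentagonal j ≤ K ↔ j ∈ Icc (-(J : ℤ)) J)
    (hE : (E : ℤ) = ∑ j ∈ Icc (-(J : ℤ)) J,
      ((Int.negOnePow j : ℤˣ) : ℤ) * (W : ℤ) ^ (K - pentagonal j))
    (hE0 : 0 < E) (hE3 : E ≤ 3 * W ^ K)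
    (hN : N = (W ^ K * (W ^ K - W ^ (K - 1))) / E) (hNlt : N < W ^ (K + 1))
    (hB : ∀ p ≤ K, N / W ^ p % W ≤ B) (hBW : (2 * J + 1) * B + 6 < W) (m : ℕ) (hm : m < K) :
    ac m = ((N / W ^ (K - m) % W : ℕ) : ℤ) := by
  have hW1 : 1 ≤ W := by omega
  set R : ℤ[X] := Pr W K N * Qr K J - (X ^ (K + K) - X ^ (K + K - 1)) with hR
  have hev : R.eval (W : ℤ) = N * E - W ^ K * (W ^ K - W ^ (K - 1)) := by
    rw [hR, eval_sub, eval_mul, Pr_eval W K N hNlt, hE, Qr, eval_finsetSum, eval_sub, eval_pow,
      eval_pow, eval_X]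
    have e1 : (W : ℤ) ^ (K + K) = W ^ K * W ^ K := pow_add _ _ _
    have e2 : (W : ℤ) ^ (K + K - 1) = W ^ K * W ^ (K - 1) := by
      rw [← pow_add]; congr 1; omega
    rw [e1, e2]
    have e3 : ∀ j : ℤ, eval (W : ℤ) (C ((Int.negOnePow j : ℤˣ) : ℤ) * X ^ (K - pentagonal j)) =
        ((Int.negOnePow j : ℤˣ) : ℤ) * (W : ℤ) ^ (K - pentagonal j) := by
      intro j; rw [eval_mul, eval_C, eval_pow, eval_X]
    rw [sum_congr rfl fun j _ => e3 j]
    ring
  have hevb : |R.eval (W : ℤ)| ≤ 3 * (W : ℤ) ^ K + 1 := by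
    have h1 : E * N ≤ W ^ K * (W ^ K - W ^ (K - 1)) := by
      rw [hN]; exact Nat.mul_div_le _ _
    have h2 : W ^ K * (W ^ K - W ^ (K - 1)) < E * N + E := by
      rw [hN]; exact Nat.lt_mul_div_succ _ hE0
    have h3 : W ^ (K - 1) ≤ W ^ K := Nat.pow_le_pow_right hW1 (by omega)
    have h1' : (E : ℤ) * N ≤ W ^ K * (W ^ K - W ^ (K - 1)) := by
      have := h1
      zify [h3] at this
      exact this
    have h2' : (W : ℤ) ^ K * (W ^ K - W ^ (K - 1)) < E * N + E := by
      have := h2
      zify [h3] at this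
      exact this
    have h4' : (E : ℤ) ≤ 3 * W ^ K := by exact_mod_cast hE3
    rw [hev, abs_le]
    constructor
    · linarith
    · have : (0 : ℤ) < E := by exact_mod_cast hE0
      nlinarith
  have hcb : ∀ i, |R.coeff i| ≤ (2 * J + 1) * B + 2 := by
    intro i
    have h1 := PQ_bound W K J N B (by positivity)
      (fun p hp => by exact_mod_cast hB p hp) i
    rw [hR, coeff_sub, coeff_sub, coeff_X_pow, coeff_X_pow]
    have h2 := abs_sub ((Pr W K N * Qr K J).coeff i)
      ((if i = K + K then 1 else 0) - (if i = K + K - 1 then 1 else 0) : ℤ)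
    have h3 : |((if i = K + K then 1 else 0) - (if i = K + K - 1 then 1 else 0) : ℤ)| ≤ 2 := by
      split_ifs <;> simp
    linarith
  have hz := eval_small (W : ℤ) ((2 * J + 1) * B + 2) (by exact_mod_cast (by omega : 0 < W))
    (by positivity) (by exact_mod_cast (by omega : (2 * J + 1) * B + 2 + 4 < W)) K R hcb hevb
  -- the recurrence
  set d : ℕ → ℤ := fun i => ((N / W ^ (K - i) % W : ℕ) : ℤ) with hd
  have hrec : ∀ t, t < K → ∑ p ∈ antidiagonal t, d p.1 *
      PowerSeries.coeff p.2 (PowerSeries.pentagonalSeries ℤ) =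
      (if t = 0 then 1 else 0) - (if t = 1 then 1 else 0) := by
    intro t ht
    have h1 := hz (K + K - t) (by omega)
    rw [hR, coeff_sub, coeff_sub, coeff_X_pow, coeff_X_pow] at h1
    have h2 : (Pr W K N * Qr K J).coeff (K + K - t) =
        ∑ p ∈ antidiagonal t, d p.1 *
          PowerSeries.coeff p.2 (PowerSeries.pentagonalSeries ℤ) := by
      have h3 : (reflect (K + K) (Pr W K N * Qr K J)).coeff t =
          (Pr W K N * Qr K J).coeff (K + K - t) := by
        rw [coeff_reflect, revAt_le (by omega)]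
      rw [← h3, reflect_mul _ _ (Pr_natDegree W K N) (Qr_natDegree K J), coeff_mul]
      apply sum_congr rfl
      intro p hp
      rw [HasAntidiagonal.mem_antidiagonal] at hp
      rw [coeff_reflect, coeff_reflect, revAt_le (by omega), revAt_le (by omega),
        Pr_coeff _ _ _ _ (by omega), Qr_coeff K J hJ _ (by omega)]
    rw [h2] at h1
    have h4 : (K + K - t = K + K) ↔ t = 0 := by omega
    have h5 : (K + K - t = K + K - 1) ↔ t = 1 := by omega
    simp only [h4, h5] at h1
    linarith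
  have hind : ∀ t, t < K → ac t = d t := by
    intro t
    induction t using Nat.strong_induction_on with
    | _ t ih =>
      intro ht
      have h1 := hrec t ht
      have h2 := ac_rec t
      rw [← h2] at h1
      have h3 : ∑ p ∈ antidiagonal t, (d p.1 - ac p.1) *
          PowerSeries.coeff p.2 (PowerSeries.pentagonalSeries ℤ) = 0 := by
        simp_rw [sub_mul]
        rw [sum_sub_distrib, h1, sub_self]
      rw [sum_eq_single (t, 0)] at h3
      · have h4 : PowerSeries.coeff 0 (PowerSeries.pentagonalSeries ℤ) = 1 := by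
          rw [PowerSeries.coeff_zero_eq_constantCoeff_apply, penta_zero]
        simp only [h4, mul_one] at h3
        linarith
      · intro p hp hne
        rw [HasAntidiagonal.mem_antidiagonal] at hp
        have h4 : p.1 < t := by
          rcases Nat.lt_or_ge p.1 t with h | h
          · exact h
          · exfalso; apply hne
            have : p.1 = t := by omega
            have : p.2 = 0 := by omega
            ext <;> simp [*]
        simp only [ih p.1 h4 (by omega), sub_self, zero_mul]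
      · intro h; exact absurd (HasAntidiagonal.mem_antidiagonal.2 (by simp)) h
  exact hind m hm

end Pool.Agent.H20.QCat
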