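import Pool.Agent.H20.QCat.Pos

/-! # Log-concavity of the q-Catalan coefficients (existence of `t`) -/

namespace Pool.Agent.H20.QCat

open Polynomial Finset Filter Topology

/-- derivative of the tilted characteristic function at zero -/
lemma G_deriv (n k : ℕ) (s : ℝ) :
    HasDerivAt (G n k s) (Complex.I * ((∑ j ∈ range (n * (n - 1) + 1),
      ((j : ℝ) - k) * (((qCatalan n).coeff j : ℝ) * Real.exp (-s) ^ j) : ℝ) : ℂ)) 0 := by
  have h1 : G n k s = fun θ : ℝ => ∑ j ∈ range (n * (n - 1) + 1),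
      ((((qCatalan n).coeff j : ℝ) * Real.exp (-s) ^ j : ℝ) : ℂ) *
        Complex.exp ((((j : ℝ) - k : ℝ) : ℂ) * Complex.I * θ) := by
    ext θ
    rw [G, aeval_eq_sum_range' (n := n * (n - 1) + 1) (by rw [natDegree_qCatalan]; omega), sum_mul]
    refine sum_congr rfl fun j _ => ?_
    have he : Complex.exp ((((j : ℝ) - k : ℝ) : ℂ) * Complex.I * θ) =
        Complex.exp (j * (θ * Complex.I)) * Complex.exp (-(k * θ * Complex.I)) := by
      rw [← Complex.exp_add]
      congr 1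
      push_cast
      ring
    rw [mul_pow, ← Complex.exp_nat_mul, zsmul_eq_mul, he]
    push_cast
    ring
  rw [h1]
  have h2 : (Complex.I * ((∑ j ∈ range (n * (n - 1) + 1),
      ((j : ℝ) - k) * (((qCatalan n).coeff j : ℝ) * Real.exp (-s) ^ j) : ℝ) : ℂ)) =
      ∑ j ∈ range (n * (n - 1) + 1),
      ((((qCatalan n).coeff j : ℝ) * Real.exp (-s) ^ j : ℝ) : ℂ) *
        (Complex.exp ((((j : ℝ) - k : ℝ) : ℂ) * Complex.I * ((0 : ℝ) : ℂ)) *
          ((((j : ℝ) - k : ℝ) : ℂ) * Complex.I)) := by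
    rw [Complex.ofReal_sum, mul_sum]
    refine sum_congr rfl fun j _ => ?_
    simp
    ring
  rw [h2]
  refine HasDerivAt.fun_sum fun j _ => ?_
  refine HasDerivAt.const_mul _ ?_
  have h3 : HasDerivAt (fun θ : ℝ => (((j : ℝ) - k : ℝ) : ℂ) * Complex.I * θ)
      ((((j : ℝ) - k : ℝ) : ℂ) * Complex.I) 0 := by
    have := (Complex.ofRealCLM.hasDerivAt (x := (0 : ℝ))).const_mul
      ((((j : ℝ) - k : ℝ) : ℂ) * Complex.I)
    simpa using this
  exact h3.cexp

lemma aeval_sum (n : ℕ) (r : ℝ) : aeval r (qCatalan n) =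
    ∑ j ∈ range (n * (n - 1) + 1), ((qCatalan n).coeff j : ℝ) * r ^ j := by
  rw [aeval_eq_sum_range' (n := n * (n - 1) + 1) (by rw [natDegree_qCatalan]; omega)]
  exact sum_congr rfl fun j _ => by rw [zsmul_eq_mul]

/-- existence of the tilting parameter -/
lemma exists_tilt (n k : ℕ) (hk : 1 ≤ k) (hkn : 2 * k ≤ n * (n - 1)) :
    ∃ s : ℝ, 0 ≤ s ∧ ∑ j ∈ range (n * (n - 1) + 1),
      ((j : ℝ) - k) * (((qCatalan n).coeff j : ℝ) * Real.exp (-s) ^ j) = 0 := by
  set D := n * (n - 1) with hD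
  set p : ℝ → ℝ := fun r => ∑ j ∈ range (D + 1),
      ((j : ℝ) - k) * (((qCatalan n).coeff j : ℝ) * r ^ j) with hp
  have hcont : Continuous p := by fun_prop
  have h0 : p 0 = -k := by
    simp only [hp]
    rw [Finset.sum_range_succ']
    have : ∑ j ∈ range D, (((j + 1 : ℕ) : ℝ) - k) * (((qCatalan n).coeff (j + 1) : ℝ) *
        (0 : ℝ) ^ (j + 1)) = 0 := sum_eq_zero fun j _ => by simp
    rw [this, qCatalan_coeff_zero]
    simp
  have h1 : 0 ≤ p 1 := by
    have h2 := qCatalan_mean n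
    rw [← hD] at h2
    have h3 := aeval_qCatalan_pos (r := 1) one_pos n
    rw [aeval_sum, ← hD] at h3
    simp only [one_pow, mul_one] at h3
    have h4 : p 1 = ∑ j ∈ range (D + 1), (j : ℝ) * ((qCatalan n).coeff j : ℝ) -
        k * ∑ j ∈ range (D + 1), ((qCatalan n).coeff j : ℝ) := by
      simp only [hp]
      rw [mul_sum, ← sum_sub_distrib]
      exact sum_congr rfl fun j _ => by ring
    have h5 : (2 * k : ℝ) ≤ (D : ℝ) := by exact_mod_cast hkn
    rw [h4]
    nlinarith [mul_le_mul_of_nonneg_right h5 h3.le]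
  have h2 : (0 : ℝ) ∈ Set.Icc (p 0) (p 1) := by
    refine ⟨?_, h1⟩
    rw [h0]
    have : (0 : ℝ) ≤ k := Nat.cast_nonneg _
    linarith
  obtain ⟨r, hr, hpr⟩ := intermediate_value_Icc (zero_le_one) hcont.continuousOn h2
  have hr0 : 0 < r := by
    rcases hr.1.lt_or_eq with h | h
    · exact h
    · exfalso
      rw [← h, h0] at hpr
      have : (1 : ℝ) ≤ k := by exact_mod_cast hk
      linarith
  refine ⟨-Real.log r, ?_, ?_⟩
  · have := Real.log_nonpos hr0.le hr.2
    linarith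
  · rw [neg_neg, Real.exp_log hr0]
    exact hpr

/-- the tilting parameter is small when `k` is large -/
lemma tilt_bound (n k : ℕ) (hn : 1 ≤ n) (r : ℝ) (hr0 : 0 < r) (hr1 : r < 1)
    (h : ∑ j ∈ range (n * (n - 1) + 1),
      ((j : ℝ) - k) * (((qCatalan n).coeff j : ℝ) * r ^ j) = 0) :
    (k : ℝ) ≤ 1 / (1 - r) ^ 3 := by
  -- the polynomial over ℝ
  set P : ℝ[X] := (qCatalan n).map (Int.castRingHom ℝ) with hP
  have hPe : ∀ x : ℝ, P.eval x = aeval x (qCatalan n) := by
    intro x; rw [hP, eval_map, aeval_def]; rfl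
  have hPpos : 0 < P.eval r := by rw [hPe]; exact aeval_qCatalan_pos hr0 n
  have hk : (k : ℝ) * P.eval r = r * P.derivative.eval r := by
    have h1 : P.eval r = ∑ j ∈ range (n * (n - 1) + 1), ((qCatalan n).coeff j : ℝ) * r ^ j := by
      rw [hPe, aeval_sum]
    have hdeg : P.natDegree < n * (n - 1) + 1 := by
      have : P.natDegree ≤ (qCatalan n).natDegree := natDegree_map_le
      rw [natDegree_qCatalan] at this
      omega
    have h2 : r * P.derivative.eval r =
        ∑ j ∈ range (n * (n - 1) + 1), (j : ℝ) * (((qCatalan n).coeff j : ℝ) * r ^ j) := by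
      rw [derivative_eval, Polynomial.sum_over_range' _ (by simp) _ hdeg, mul_sum]
      refine sum_congr rfl fun j _ => ?_
      rw [hP, coeff_map]
      rcases j with _ | j
      · simp
      · simp only [eq_intCast, Nat.add_sub_cancel]
        rw [pow_succ]
        ring
    have h3 : ∑ j ∈ range (n * (n - 1) + 1), ((j : ℝ) - k) *
        (((qCatalan n).coeff j : ℝ) * r ^ j) =
        ∑ j ∈ range (n * (n - 1) + 1), (j : ℝ) * (((qCatalan n).coeff j : ℝ) * r ^ j) -
        k * ∑ j ∈ range (n * (n - 1) + 1), ((qCatalan n).coeff j : ℝ) * r ^ j := by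
      rw [mul_sum, ← sum_sub_distrib]
      exact sum_congr rfl fun j _ => by ring
    rw [h1, h2]
    linarith
  -- product identity
  have hid : ∀ x : ℝ, P.eval x * ∏ i ∈ Icc 2 n, (1 - x ^ i) = ∏ i ∈ Icc 2 n, (1 - x ^ (n + i)) := by
    intro x
    have h1 := congrArg (aeval x) (qCatalan_prod n hn)
    rw [map_mul, map_prod, map_prod, ← hPe] at h1
    have h2 : ∀ j : ℕ, (1 - x ^ j) = aeval x (qnum j) * (1 - x) := by
      intro j; rw [aeval_qnum, geom_sum_mul_neg]
    simp_rw [h2]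
    rw [prod_mul_distrib, prod_mul_distrib, ← h1]
    ring
  have hpow : ∀ j : ℕ, 1 ≤ j → r ^ j < 1 := fun j hj => pow_lt_one₀ hr0.le hr1 (by omega)
  have hder : ∀ j : ℕ, HasDerivAt (fun x : ℝ => 1 - x ^ j) (-(j * r ^ (j - 1))) r := by
    intro j
    have := (hasDerivAt_pow j r).const_sub 1
    exact this
  have hlog : logDeriv (fun x => P.eval x) r = ∑ i ∈ Icc 2 n,
      (i * r ^ (i - 1) / (1 - r ^ i) - (n + i : ℕ) * r ^ (n + i - 1) / (1 - r ^ (n + i))) := by
    have h1 : logDeriv (fun x => P.eval x * ∏ i ∈ Icc 2 n, (1 - x ^ i)) r =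
        logDeriv (fun x => ∏ i ∈ Icc 2 n, (1 - x ^ (n + i))) r := by
      congr 1
      ext x
      exact hid x
    rw [logDeriv_mul (f := fun x => P.eval x) (g := fun x => ∏ i ∈ Icc 2 n, (1 - x ^ i)) r hPpos.ne'
      (prod_ne_zero_iff.2 fun i hi => by
        rw [mem_Icc] at hi; have := hpow i (by omega); linarith) P.differentiable.differentiableAt
      (by fun_prop)] at h1
    have h2 : logDeriv (fun x : ℝ => ∏ i ∈ Icc 2 n, (1 - x ^ i)) r =
        ∑ i ∈ Icc 2 n, logDeriv (fun x : ℝ => 1 - x ^ i) r := by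
      have := logDeriv_prod (s := Icc 2 n) (f := fun i (x : ℝ) => 1 - x ^ i) (x := r)
        (fun i hi => by rw [mem_Icc] at hi; have := hpow i (by omega); linarith)
        (fun i _ => (hder i).differentiableAt)
      exact this
    have h3 : logDeriv (fun x : ℝ => ∏ i ∈ Icc 2 n, (1 - x ^ (n + i))) r =
        ∑ i ∈ Icc 2 n, logDeriv (fun x : ℝ => 1 - x ^ (n + i)) r := by
      have := logDeriv_prod (s := Icc 2 n) (f := fun i (x : ℝ) => 1 - x ^ (n + i)) (x := r)
        (fun i hi => by rw [mem_Icc] at hi; have := hpow (n + i) (by omega); linarith)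
        (fun i _ => (hder (n + i)).differentiableAt)
      exact this
    rw [h2, h3] at h1
    have h4 : ∀ j : ℕ, logDeriv (fun x : ℝ => 1 - x ^ j) r = -(j * r ^ (j - 1)) / (1 - r ^ j) := by
      intro j
      rw [logDeriv_apply, (hder j).deriv]
    simp_rw [h4] at h1
    rw [sum_sub_distrib]
    have h5 : ∑ i ∈ Icc 2 n, -((i : ℝ) * r ^ (i - 1)) / (1 - r ^ i) =
        -∑ i ∈ Icc 2 n, (i : ℝ) * r ^ (i - 1) / (1 - r ^ i) := by
      rw [← sum_neg_distrib]; exact sum_congr rfl fun i _ => by ring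
    have h6 : ∑ i ∈ Icc 2 n, -(((n + i : ℕ) : ℝ) * r ^ (n + i - 1)) / (1 - r ^ (n + i)) =
        -∑ i ∈ Icc 2 n, ((n + i : ℕ) : ℝ) * r ^ (n + i - 1) / (1 - r ^ (n + i)) := by
      rw [← sum_neg_distrib]; exact sum_congr rfl fun i _ => by ring
    rw [h5, h6] at h1
    linarith
  have hlog2 : logDeriv (fun x => P.eval x) r = P.derivative.eval r / P.eval r := by
    rw [logDeriv_apply]
    congr 1
    exact P.deriv
  have hle : r * logDeriv (fun x => P.eval x) r ≤ 1 / (1 - r) ^ 3 := by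
    rw [hlog, mul_sum]
    have h1r : 0 < 1 - r := by linarith
    have h1 : ∀ i ∈ Icc 2 n, r * (i * r ^ (i - 1) / (1 - r ^ i) -
        (n + i : ℕ) * r ^ (n + i - 1) / (1 - r ^ (n + i))) ≤ (1 / (1 - r)) * (i * r ^ i) := by
      intro i hi
      rw [mem_Icc] at hi
      have h2 := hpow i (by omega)
      have h3 := hpow (n + i) (by omega)
      have h4 : 0 ≤ ((n + i : ℕ) : ℝ) * r ^ (n + i - 1) / (1 - r ^ (n + i)) := by
        have : 0 < 1 - r ^ (n + i) := by linarith
        positivity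
      have h5 : 1 - r ≤ 1 - r ^ i := by
        have : r ^ i ≤ r ^ 1 := pow_le_pow_of_le_one hr0.le hr1.le (by omega)
        linarith
      have h6 : r * (i * r ^ (i - 1) / (1 - r ^ i)) = i * r ^ i / (1 - r ^ i) := by
        have : r ^ i = r * r ^ (i - 1) := by rw [← pow_succ']; congr 1; omega
        rw [this]; ring
      have h7 : (i : ℝ) * r ^ i / (1 - r ^ i) ≤ i * r ^ i / (1 - r) :=
        div_le_div_of_nonneg_left (by positivity) h1r h5
      have h8 : r * (i * r ^ (i - 1) / (1 - r ^ i) -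
        (n + i : ℕ) * r ^ (n + i - 1) / (1 - r ^ (n + i))) ≤
          r * (i * r ^ (i - 1) / (1 - r ^ i)) := by
        apply mul_le_mul_of_nonneg_left _ hr0.le
        linarith
      refine h8.trans ?_
      rw [h6]
      refine h7.trans (le_of_eq ?_)
      ring
    refine (sum_le_sum h1).trans ?_
    rw [← mul_sum]
    have h2 : HasSum (fun i : ℕ => (i : ℝ) * r ^ i) (r / (1 - r) ^ 2) :=
      hasSum_coe_mul_geometric_of_norm_lt_one (by rw [Real.norm_of_nonneg hr0.le]; exact hr1)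
    have h3 : ∑ i ∈ Icc 2 n, (i : ℝ) * r ^ i ≤ r / (1 - r) ^ 2 :=
      sum_le_hasSum _ (fun i _ => by positivity) h2
    have h4 : r / (1 - r) ^ 2 ≤ 1 / (1 - r) ^ 2 :=
      div_le_div_of_nonneg_right hr1.le (by positivity)
    have h5 := mul_le_mul_of_nonneg_left (h3.trans h4) (by positivity : 0 ≤ 1 / (1 - r))
    refine h5.trans (le_of_eq ?_)
    field_simp
  rw [hlog2] at hle
  have h3 : (k : ℝ) = r * (P.derivative.eval r / P.eval r) := by
    rw [← mul_div_assoc, ← hk]
    field_simp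
  rw [h3]
  exact hle

/-- log-concavity in the lower half -/
theorem logconcave_half : ∃ K n₀ : ℕ, ∀ n ≥ n₀, ∀ k, K ≤ k → 2 * k ≤ n * (n - 1) →
    (qCatalan n).coeff (k - 1) * (qCatalan n).coeff (k + 1) ≤ (qCatalan n).coeff k ^ 2 := by
  obtain ⟨M₀, hM₀⟩ := eventually_atTop.1 integral_nonneg_eventually
  set M₁ := max M₀ 1 with hM₁
  have hM₁1 : 1 ≤ M₁ := le_max_right _ _
  have hM₁0 : M₀ ≤ M₁ := le_max_left _ _
  set s₀ : ℝ := 1 / (4 * M₁) with hs₀
  have hM₁pos : (0 : ℝ) < M₁ := by exact_mod_cast hM₁1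
  have hs₀pos : 0 < s₀ := by positivity
  have hr₀ : Real.exp (-s₀) < 1 := by rw [Real.exp_lt_one_iff]; linarith
  obtain ⟨K, hK⟩ := exists_nat_gt (1 / (1 - Real.exp (-s₀)) ^ 3)
  refine ⟨K + 1, M₁, ?_⟩
  intro n hn k hk hkn
  have hn1 : 1 ≤ n := hM₁1.trans hn
  obtain ⟨s, hs, hsum⟩ := exists_tilt n k (by omega) hkn
  have hstat : deriv (G n k s) 0 = 0 := by
    rw [(G_deriv n k s).deriv, hsum]
    simp
  -- s is small
  have hss : s < s₀ := by
    by_contra hcon
    push Not at hcon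
    have hr1 : Real.exp (-s) < 1 := by rw [Real.exp_lt_one_iff]; linarith
    have h1 := tilt_bound n k hn1 (Real.exp (-s)) (Real.exp_pos _) hr1 hsum
    have h2 : Real.exp (-s) ≤ Real.exp (-s₀) := Real.exp_le_exp.2 (by linarith)
    have h3 : 1 / (1 - Real.exp (-s)) ^ 3 ≤ 1 / (1 - Real.exp (-s₀)) ^ 3 := by
      apply one_div_le_one_div_of_le
      · have : 0 < 1 - Real.exp (-s₀) := by linarith
        positivity
      · apply pow_le_pow_left₀ (by linarith)
        linarith
    have h4 : (K : ℝ) + 1 ≤ k := by exact_mod_cast hk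
    linarith
  apply logconcave_of_integral (qCatalan n) k (by omega) (Real.exp (-s)) (Real.exp_pos _)
  intro σ hσ
  have main : ∀ M : ℕ, M₀ ≤ M → M ≤ n → 4 * M * s ≤ 1 → (M = n ∨ 1 < 4 * (M + 1) * s) →
      0 ≤ ∫ θ in (0 : ℝ)..Real.pi, (G n k s θ).re * (1 + σ * Real.cos θ) :=
    fun M hM hMn h1 h2 => hM₀ M hM n k hMn s hs h1 h2 hstat σ hσ
  by_cases hc : 4 * (n : ℝ) * s ≤ 1
  · exact main n (hM₁0.trans hn) le_rfl hc (Or.inl rfl)
  · push Not at hc
    have hs' : 0 < s := by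
      rcases hs.lt_or_eq with h | h
      · exact h
      · rw [← h] at hc; linarith [hc]
    set M := ⌊1 / (4 * s)⌋₊ with hM
    have h1 : (M : ℝ) ≤ 1 / (4 * s) := Nat.floor_le (by positivity)
    have h2 : 1 / (4 * s) < M + 1 := Nat.lt_floor_add_one _
    have h3 : (M₁ : ℝ) ≤ 1 / (4 * s) := by
      rw [le_div_iff₀ (by positivity)]
      rw [hs₀, lt_div_iff₀ (by positivity)] at hss
      linarith
    have h4 : M₁ ≤ M := Nat.le_floor h3
    have h5 : 4 * (M : ℝ) * s ≤ 1 := by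
      rw [le_div_iff₀ (by positivity)] at h1
      linarith
    have h6 : 1 < 4 * ((M : ℝ) + 1) * s := by
      rw [div_lt_iff₀ (by positivity)] at h2
      linarith
    have h7 : M ≤ n := by
      have : (M : ℝ) < n := by
        by_contra hcon
        push Not at hcon
        nlinarith
      exact_mod_cast this.le
    exact main M (hM₁0.trans h4) h7 h5 (Or.inr h6)

/-- **Q1.** -/
theorem logconcave : ∃ K n₀ : ℕ, ∀ n ≥ n₀, ∀ k, K ≤ k → k + K ≤ n * (n - 1) →
    (qCatalan n).coeff (k - 1) * (qCatalan n).coeff (k + 1) ≤ (qCatalan n).coeff k ^ 2 := by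
  obtain ⟨K, n₀, h⟩ := logconcave_half
  refine ⟨K + 1, n₀, ?_⟩
  intro n hn k hk hkn
  rcases le_or_gt (2 * k) (n * (n - 1)) with h1 | h1
  · exact h n hn k (by omega) h1
  · have h2 := h n hn (n * (n - 1) - k) (by omega) (by omega)
    have e1 : n * (n - 1) - k - 1 = n * (n - 1) - (k + 1) := by omega
    have e2 : n * (n - 1) - k + 1 = n * (n - 1) - (k - 1) := by omega
    rw [e1, e2, qCatalan_coeff_symm n k (by omega), qCatalan_coeff_symm n (k + 1) (by omega),
      qCatalan_coeff_symm n (k - 1) (by omega)] at h2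
    rw [mul_comm]
    exact h2

end Pool.Agent.H20.QCat
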