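import Pool.Agent.H20.QCat.NearX

/-! # Explicit tail bound for `s > 0` and `n` large -/

namespace Pool.Agent.H20.QCat

open Polynomial Finset

/-- `|1 - w| ≥ (1 - |w|) exp(|w| - Re w)` -/
lemma one_sub_lower (w : ℂ) (hw : ‖w‖ < 1) :
    (1 - ‖w‖) * Real.exp (‖w‖ - w.re) ≤ ‖1 - w‖ := by
  have h1 := Complex.hasSum_taylorSeries_neg_log hw
  have hρ : ‖((‖w‖ : ℝ) : ℂ)‖ < 1 := by rwa [Complex.norm_real, norm_norm]
  have h2 := Complex.hasSum_taylorSeries_neg_log hρ
  have h3 := Complex.hasSum_re (h2.sub h1)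
  have hpos : 0 < 1 - ‖w‖ := by linarith
  have hne : 1 - w ≠ 0 := by
    intro h
    have : w = 1 := (sub_eq_zero.1 h).symm
    rw [this] at hw
    simp at hw
  have e1 : (-Complex.log (1 - ((‖w‖ : ℝ) : ℂ)) - -Complex.log (1 - w)).re =
      Real.log ‖1 - w‖ - Real.log (1 - ‖w‖) := by
    rw [Complex.sub_re, Complex.neg_re, Complex.neg_re, Complex.log_re, Complex.log_re]
    have : ‖(1 : ℂ) - ((‖w‖ : ℝ) : ℂ)‖ = 1 - ‖w‖ := by
      rw [← Complex.ofReal_one, ← Complex.ofReal_sub, Complex.norm_real, Real.norm_of_nonneg hpos.le]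
    rw [this]
    ring
  rw [e1] at h3
  have h4 := le_hasSum h3 1 (fun m _ => by
    rw [Complex.sub_re]
    have h5 : ((((‖w‖ : ℝ) : ℂ)) ^ m / m).re = ‖w‖ ^ m / m := by
      have : ((((‖w‖ : ℝ) : ℂ)) ^ m / m) = (((‖w‖ ^ m / m : ℝ)) : ℂ) := by push_cast; rfl
      rw [this, Complex.ofReal_re]
    have h6 : (w ^ m / m).re ≤ ‖w‖ ^ m / m := by
      refine (Complex.re_le_norm _).trans ?_
      rw [norm_div, norm_pow, Complex.norm_natCast]
    rw [h5]
    linarith)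
  have h5 : (((‖w‖ : ℝ) : ℂ) ^ 1 / ((1 : ℕ) : ℂ) - w ^ 1 / ((1 : ℕ) : ℂ)).re = ‖w‖ - w.re := by
    simp
  rw [h5] at h4
  have h6 : Real.exp (‖w‖ - w.re) ≤ Real.exp (Real.log ‖1 - w‖ - Real.log (1 - ‖w‖)) :=
    Real.exp_le_exp.2 h4
  rw [Real.exp_sub (Real.log ‖1 - w‖), Real.exp_log (norm_pos_iff.2 hne), Real.exp_log hpos,
    le_div_iff₀ hpos] at h6
  linarith

/-- the variable `y = |1-z|²/(1-r)² - 1`. -/
noncomputable def yy (s θ : ℝ) : ℝ :=
  2 * Real.exp (-s) * (1 - Real.cos θ) / (1 - Real.exp (-s)) ^ 2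

lemma yy_nonneg (s θ : ℝ) : 0 ≤ yy s θ := by
  rw [yy]
  have h1 : 0 ≤ 1 - Real.cos θ := sub_nonneg.2 (Real.cos_le_one _)
  positivity

lemma norm_one_sub_sq (r θ : ℝ) :
    ‖1 - (r : ℂ) * Complex.exp (θ * Complex.I)‖ ^ 2 = (1 - r) ^ 2 + 2 * r * (1 - Real.cos θ) := by
  rw [← Complex.normSq_eq_norm_sq, Complex.normSq_apply]
  have hre : (1 - (r : ℂ) * Complex.exp (θ * Complex.I)).re = 1 - r * Real.cos θ := by
    simp [Complex.exp_ofReal_mul_I_re]
  have him : (1 - (r : ℂ) * Complex.exp (θ * Complex.I)).im = -(r * Real.sin θ) := by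
    simp [Complex.exp_ofReal_mul_I_im]
  rw [hre, him]
  linear_combination r ^ 2 * Real.sin_sq_add_cos_sq θ

lemma geomIcc {R : Type*} [CommRing R] (x : R) (n : ℕ) :
    (∑ i ∈ Icc 1 n, x ^ i) * (1 - x) = x * (1 - x ^ n) := by
  induction n with
  | zero => simp
  | succ n ih =>
    rw [Finset.sum_Icc_succ_top (by omega), add_mul, ih]
    ring

/-- explicit tail bound -/
theorem tailX (n : ℕ) (hn : 1 ≤ n) (s θ : ℝ) (hs : 0 < s) :
    ‖aeval (((Real.exp (-s) : ℝ) : ℂ) * Complex.exp (θ * Complex.I)) (qCatalan n)‖ ≤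
      aeval (Real.exp (-s)) (qCatalan n) *
        (Real.sqrt (1 + yy s θ) * Real.exp (-(1 / s * (yy s θ / (1 + yy s θ)))) *
          Real.exp (4 * Real.exp (-s) ^ n / (1 - Real.exp (-s)) ^ 2)) := by
  set r := Real.exp (-s) with hr
  have hr0 : 0 < r := Real.exp_pos _
  have hr1 : r < 1 := by rw [hr, Real.exp_lt_one_iff]; linarith
  have h1r : 0 < 1 - r := by linarith
  set z : ℂ := (r : ℂ) * Complex.exp (θ * Complex.I) with hz
  have hzn : ‖z‖ = r := by
    rw [hz, norm_mul, Complex.norm_exp_ofReal_mul_I, mul_one, Complex.norm_real,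
      Real.norm_of_nonneg hr0.le]
  have hz1 : 1 - z ≠ 0 := by
    intro h
    have : z = 1 := (sub_eq_zero.1 h).symm
    rw [this] at hzn
    rw [norm_one] at hzn
    linarith
  set y := yy s θ with hy
  have hy0 : 0 ≤ y := yy_nonneg s θ
  have hpow : ∀ j : ℕ, 1 ≤ j → r ^ j < 1 := fun j hj => pow_lt_one₀ hr0.le hr1 (by omega)
  -- product identity
  have hid : ∀ (R : Type) [CommRing R] (x : R), aeval x (qCatalan n) * ∏ i ∈ Icc 2 n, (1 - x ^ i) =
      ∏ i ∈ Icc 2 n, (1 - x ^ (n + i)) := by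
    intro R _ x
    have h1 := congrArg (aeval x) (qCatalan_prod n hn)
    rw [map_mul, map_prod, map_prod] at h1
    have h2 : ∀ j : ℕ, (1 - x ^ j) = aeval x (qnum j) * (1 - x) := by
      intro j; rw [aeval_qnum, geom_sum_mul_neg]
    simp_rw [h2]
    rw [prod_mul_distrib, prod_mul_distrib, ← h1]
    ring
  have hF := aeval_qCatalan_pos hr0 n
  have hsplit : ∀ f : ℕ → ℝ, ∏ i ∈ Icc 1 n, f i = f 1 * ∏ i ∈ Icc 2 n, f i := by
    intro f
    have : Icc 1 n = insert 1 (Icc 2 n) := by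
      ext i; simp only [mem_Icc, mem_insert]; omega
    rw [this, prod_insert (by simp)]
  -- lower bound for the denominator
  set E := ∑ i ∈ Icc 1 n, (r ^ i - (z ^ i).re) with hE
  have hlow : (∏ i ∈ Icc 1 n, (1 - r ^ i)) * Real.exp E ≤ ∏ i ∈ Icc 1 n, ‖1 - z ^ i‖ := by
    rw [hE, Real.exp_sum, ← prod_mul_distrib]
    apply prod_le_prod
    · intro i hi
      rw [mem_Icc] at hi
      have := hpow i hi.1
      have : 0 < 1 - r ^ i := by linarith
      positivity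
    · intro i hi
      rw [mem_Icc] at hi
      have h1 : ‖z ^ i‖ = r ^ i := by rw [norm_pow, hzn]
      have h2 := one_sub_lower (z ^ i) (by rw [h1]; exact hpow i hi.1)
      rwa [h1] at h2
  -- upper bound for the numerator
  have hup : ∏ i ∈ Icc 2 n, ‖1 - z ^ (n + i)‖ ≤
      (∏ i ∈ Icc 2 n, (1 - r ^ (n + i))) * Real.exp (2 * r ^ n / (1 - r) ^ 2) := by
    have h1 : ∀ i ∈ Icc 2 n, ‖1 - z ^ (n + i)‖ ≤
        (1 - r ^ (n + i)) * Real.exp (2 * r ^ n / (1 - r) * r ^ i) := by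
      intro i hi
      rw [mem_Icc] at hi
      have h2 := hpow (n + i) (by omega)
      have h3 : ‖1 - z ^ (n + i)‖ ≤ 1 + r ^ (n + i) := by
        refine (norm_sub_le _ _).trans ?_
        rw [norm_one, norm_pow, hzn]
      have h4 : 1 - r ≤ 1 - r ^ (n + i) := by
        have : r ^ (n + i) ≤ r ^ 1 := pow_le_pow_of_le_one hr0.le hr1.le (by omega)
        linarith
      have h5 : 2 * r ^ n / (1 - r) * r ^ i + 1 ≤ Real.exp (2 * r ^ n / (1 - r) * r ^ i) :=
        Real.add_one_le_exp _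
      have h6 : 1 + r ^ (n + i) ≤ (1 - r ^ (n + i)) * (2 * r ^ n / (1 - r) * r ^ i + 1) := by
        have e : 2 * r ^ n / (1 - r) * r ^ i = 2 * r ^ (n + i) / (1 - r) := by
          rw [pow_add]; ring
        rw [e]
        have h7 : 2 * r ^ (n + i) ≤ (1 - r ^ (n + i)) * (2 * r ^ (n + i) / (1 - r)) := by
          rw [mul_div_assoc', le_div_iff₀ h1r]
          have : 0 ≤ 2 * r ^ (n + i) := by positivity
          nlinarith
        linarith
      have h7 : 0 ≤ 1 - r ^ (n + i) := by linarith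
      exact h3.trans (h6.trans (mul_le_mul_of_nonneg_left h5 h7))
    refine (prod_le_prod (fun _ _ => norm_nonneg _) h1).trans ?_
    rw [prod_mul_distrib, ← Real.exp_sum, ← mul_sum]
    apply mul_le_mul_of_nonneg_left
    · apply Real.exp_le_exp.2
      have h2 : ∑ i ∈ Icc 2 n, r ^ i ≤ 1 / (1 - r) := by
        refine le_trans ?_ (geom_bound r hr0.le hr1 (n + 1))
        apply sum_le_sum_of_subset_of_nonneg
        · intro i hi; rw [mem_Icc] at hi; rw [mem_range]; omega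
        · intro _ _ _; positivity
      refine (mul_le_mul_of_nonneg_left h2 (by positivity)).trans (le_of_eq ?_)
      field_simp
    · apply prod_nonneg
      intro i hi
      rw [mem_Icc] at hi
      have := hpow (n + i) (by omega)
      linarith
  -- E estimate
  have hEest : 1 / s * (y / (1 + y)) - 2 * r ^ n / (1 - r) ^ 2 ≤ E := by
    have hsq := norm_one_sub_sq r θ
    rw [← hz] at hsq
    have hyeq : (1 + y) * (1 - r) ^ 2 = ‖1 - z‖ ^ 2 := by
      rw [hsq, hy, yy, ← hr]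
      field_simp
    have hQpos : 0 < ‖1 - z‖ ^ 2 := by
      have := norm_pos_iff.2 hz1
      positivity
    have hE1 : E = (∑ i ∈ Icc 1 n, r ^ i) - (∑ i ∈ Icc 1 n, z ^ i).re := by
      rw [hE, sum_sub_distrib, Complex.re_sum]
    have hSr : ∑ i ∈ Icc 1 n, r ^ i = r / (1 - r) - r ^ (n + 1) / (1 - r) := by
      rw [← sub_div, eq_div_iff h1r.ne', geomIcc]
      ring
    have hSz : ∑ i ∈ Icc 1 n, z ^ i = z / (1 - z) - z ^ (n + 1) / (1 - z) := by
      rw [← sub_div, eq_div_iff hz1, geomIcc]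
      ring
    have hnorm : 1 - r ≤ ‖1 - z‖ := by
      have := norm_sub_norm_le (1 : ℂ) z
      rw [hzn] at this
      simpa using this
    have h2 : -(r ^ (n + 1) / (1 - r)) ≤ (z ^ (n + 1) / (1 - z)).re := by
      have h3 := (abs_le.1 (Complex.abs_re_le_norm (z ^ (n + 1) / (1 - z)))).1
      rw [norm_div, norm_pow, hzn] at h3
      have h4 : r ^ (n + 1) / ‖1 - z‖ ≤ r ^ (n + 1) / (1 - r) :=
        div_le_div_of_nonneg_left (by positivity) h1r hnorm
      linarith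
    have hQ : Complex.normSq (1 - z) = ‖1 - z‖ ^ 2 := Complex.normSq_eq_norm_sq _
    have hre : z.re = r * Real.cos θ := by
      rw [hz, Complex.re_ofReal_mul, Complex.exp_ofReal_mul_I_re]
    have him : z.im = r * Real.sin θ := by
      rw [hz, Complex.im_ofReal_mul, Complex.exp_ofReal_mul_I_im]
    have h3 : (z / (1 - z)).re = (r * Real.cos θ - r ^ 2) / ‖1 - z‖ ^ 2 := by
      rw [Complex.div_re, hQ, Complex.sub_re, Complex.sub_im, hre, him, Complex.one_re,
        Complex.one_im, ← add_div]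
      congr 1
      linear_combination (- r ^ 2) * Real.sin_sq_add_cos_sq θ
    have hy1 : y * (1 - r) ^ 2 = 2 * r * (1 - Real.cos θ) := by
      rw [hy, yy, ← hr]
      field_simp
    have h4 : y / (1 + y) = 2 * r * (1 - Real.cos θ) / ‖1 - z‖ ^ 2 := by
      rw [div_eq_div_iff (by linarith) hQpos.ne', ← hyeq, ← hy1]
      ring
    have h5 : r / (1 - r) - (z / (1 - z)).re = (1 + r) / (2 * (1 - r)) * (y / (1 + y)) := by
      rw [h3, h4]
      have hne := hQpos.ne'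
      rw [div_sub_div _ _ h1r.ne' hne, div_mul_div_comm, div_eq_div_iff (by positivity)
        (by positivity)]
      rw [hsq]
      ring
    have h6 := coth_ge s hs
    rw [← hr] at h6
    have h7 : 0 ≤ y / (1 + y) := by positivity
    have h8 := mul_le_mul_of_nonneg_right h6 h7
    have h9 : 2 * (r ^ (n + 1) / (1 - r)) ≤ 2 * r ^ n / (1 - r) ^ 2 := by
      rw [mul_div_assoc']
      rw [div_le_div_iff₀ h1r (by positivity)]
      have h10 : r * (1 - r) ≤ 1 := by nlinarith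
      have h11 : 0 ≤ 2 * r ^ n * (1 - r) := by positivity
      calc 2 * r ^ (n + 1) * (1 - r) ^ 2 = (2 * r ^ n * (1 - r)) * (r * (1 - r)) := by ring
        _ ≤ (2 * r ^ n * (1 - r)) * 1 := mul_le_mul_of_nonneg_left h10 h11
        _ = 2 * r ^ n * (1 - r) := by ring
    rw [hE1, hSr, hSz, Complex.sub_re]
    linarith
  -- assemble
  have hDr : 0 < ∏ i ∈ Icc 2 n, (1 - r ^ i) := by
    apply prod_pos
    intro i hi
    rw [mem_Icc] at hi
    have := hpow i (by omega)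
    linarith
  have hDz : 0 < ∏ i ∈ Icc 2 n, ‖1 - z ^ i‖ := by
    apply prod_pos
    intro i hi
    rw [mem_Icc] at hi
    rw [norm_pos_iff]
    intro h
    have h1 : z ^ i = 1 := (sub_eq_zero.1 h).symm
    have h2 := hpow i (by omega)
    have h3 : ‖z ^ i‖ = r ^ i := by rw [norm_pow, hzn]
    rw [h1, norm_one] at h3
    linarith
  have hz1n : 0 < ‖1 - z‖ := norm_pos_iff.2 hz1
  have hsqrt : Real.sqrt (1 + y) = ‖1 - z‖ / (1 - r) := by
    have hsq := norm_one_sub_sq r θ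
    rw [← hz] at hsq
    rw [Real.sqrt_eq_iff_mul_self_eq (by positivity) (by positivity)]
    rw [div_mul_div_comm, eq_div_iff (by positivity)]
    have : ‖1 - z‖ * ‖1 - z‖ = ‖1 - z‖ ^ 2 := by ring
    rw [this, hsq, hy, yy, ← hr]
    field_simp
  have hFz : ‖aeval z (qCatalan n)‖ * ∏ i ∈ Icc 2 n, ‖1 - z ^ i‖ =
      ∏ i ∈ Icc 2 n, ‖1 - z ^ (n + i)‖ := by
    have := congrArg norm (hid ℂ z)
    rwa [norm_mul, norm_prod, norm_prod] at this
  have hFr := hid ℝ r
  rw [hsplit, hsplit, pow_one, pow_one] at hlow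
  -- ‖F z‖ ∏|1-z^i| ≤ F(r) ∏ (1-r^i) e^{..}
  have h1 : ‖aeval z (qCatalan n)‖ * ∏ i ∈ Icc 2 n, ‖1 - z ^ i‖ ≤
      aeval r (qCatalan n) * (∏ i ∈ Icc 2 n, (1 - r ^ i)) * Real.exp (2 * r ^ n / (1 - r) ^ 2) := by
    rw [hFz, hFr]; exact hup
  have h2 : (∏ i ∈ Icc 2 n, (1 - r ^ i)) ≤
      (‖1 - z‖ / (1 - r)) * Real.exp (-E) * ∏ i ∈ Icc 2 n, ‖1 - z ^ i‖ := by
    have h3 : Real.exp E * Real.exp (-E) = 1 := by rw [← Real.exp_add]; simp
    have h4 : (∏ i ∈ Icc 2 n, (1 - r ^ i)) =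
        ((1 - r) * (∏ i ∈ Icc 2 n, (1 - r ^ i)) * Real.exp E) * (Real.exp (-E) / (1 - r)) := by
      rw [show ((1 - r) * (∏ i ∈ Icc 2 n, (1 - r ^ i)) * Real.exp E) *
        (Real.exp (-E) / (1 - r)) = (∏ i ∈ Icc 2 n, (1 - r ^ i)) *
          (Real.exp E * Real.exp (-E)) * ((1 - r) / (1 - r)) by ring, h3, div_self h1r.ne']
      ring
    rw [h4]
    refine (mul_le_mul_of_nonneg_right hlow (by positivity)).trans (le_of_eq ?_)
    ring
  have h3 : ‖aeval z (qCatalan n)‖ ≤ aeval r (qCatalan n) *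
      ((‖1 - z‖ / (1 - r)) * Real.exp (-E) * Real.exp (2 * r ^ n / (1 - r) ^ 2)) := by
    have h4 : ‖aeval z (qCatalan n)‖ * ∏ i ∈ Icc 2 n, ‖1 - z ^ i‖ ≤
        (aeval r (qCatalan n) *
      ((‖1 - z‖ / (1 - r)) * Real.exp (-E) * Real.exp (2 * r ^ n / (1 - r) ^ 2))) *
        ∏ i ∈ Icc 2 n, ‖1 - z ^ i‖ := by
      refine h1.trans ?_
      have := mul_le_mul_of_nonneg_left h2
        (by positivity : 0 ≤ aeval r (qCatalan n) * Real.exp (2 * r ^ n / (1 - r) ^ 2))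
      linarith
    exact le_of_mul_le_mul_right h4 hDz
  refine h3.trans ?_
  apply mul_le_mul_of_nonneg_left _ hF.le
  rw [hsqrt, mul_assoc, mul_assoc]
  apply mul_le_mul_of_nonneg_left _ (by positivity)
  rw [← Real.exp_add, ← Real.exp_add]
  apply Real.exp_le_exp.2
  have : 4 * r ^ n / (1 - r) ^ 2 = 2 * r ^ n / (1 - r) ^ 2 + 2 * r ^ n / (1 - r) ^ 2 := by ring
  rw [this]
  linarith

end Pool.Agent.H20.QCat
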