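import Pool.Agent.H20.QCat.Exist
import Pool.Agent.H20.QCat.TailX

/-! # Two-sided bounds for the tilting parameter -/

namespace Pool.Agent.H20.QCat

open Polynomial Finset Filter Topology

/-- formula for the mean -/
lemma tilt_formula (n k : ℕ) (hn : 1 ≤ n) (r : ℝ) (hr0 : 0 < r) (hr1 : r < 1)
    (h : ∑ j ∈ range (n * (n - 1) + 1),
      ((j : ℝ) - k) * (((qCatalan n).coeff j : ℝ) * r ^ j) = 0) :
    (k : ℝ) = ∑ i ∈ Icc 2 n,
      (i * r ^ i / (1 - r ^ i) - (n + i : ℕ) * r ^ (n + i) / (1 - r ^ (n + i))) := by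
  -- the polynomial over ℝ
  set P : ℝ[X] := (qCatalan n).map (Int.castRingHom ℝ) with hP
  have hPe : ∀ x : ℝ, P.eval x = aeval x (qCatalan n) := by
    intro x; rw [hP, eval_map, aeval_def]; rfl
  have hPpos : 0 < P.eval r := by rw [hPe]; exact aeval_qCatalan_pos hr0 n
  have hk : (k : ℝ) * P.eval r = r * P.derivative.eval r := by
    have h1 : P.eval r = ∑ j ∈ range (n * (n - 1) + 1), ((qCatalan n).coeff j : ℝ) * r ^ j := by
      rw [hPe, aeval_sum]
    have hdeg : P.natDegree < n * (n - 1) + 1 := by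
      have : P.natDegree ≤ (qCatalan n).natDegree := natDegree_map_le
      rw [natDegree_qCatalan] at this
      omega
    have h2 : r * P.derivative.eval r =
        ∑ j ∈ range (n * (n - 1) + 1), (j : ℝ) * (((qCatalan n).coeff j : ℝ) * r ^ j) := by
      rw [derivative_eval, Polynomial.sum_over_range' _ (by simp) _ hdeg, mul_sum]
      refine sum_congr rfl fun j _ => ?_
      rw [hP, coeff_map]
      rcases j with _ | j
      · simp
      · simp only [eq_intCast, Nat.add_sub_cancel]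
        rw [pow_succ]
        ring
    have h3 : ∑ j ∈ range (n * (n - 1) + 1), ((j : ℝ) - k) *
        (((qCatalan n).coeff j : ℝ) * r ^ j) =
        ∑ j ∈ range (n * (n - 1) + 1), (j : ℝ) * (((qCatalan n).coeff j : ℝ) * r ^ j) -
        k * ∑ j ∈ range (n * (n - 1) + 1), ((qCatalan n).coeff j : ℝ) * r ^ j := by
      rw [mul_sum, ← sum_sub_distrib]
      exact sum_congr rfl fun j _ => by ring
    rw [h1, h2]
    linarith
  -- product identity
  have hid : ∀ x : ℝ, P.eval x * ∏ i ∈ Icc 2 n, (1 - x ^ i) = ∏ i ∈ Icc 2 n, (1 - x ^ (n + i)) := by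
    intro x
    have h1 := congrArg (aeval x) (qCatalan_prod n hn)
    rw [map_mul, map_prod, map_prod, ← hPe] at h1
    have h2 : ∀ j : ℕ, (1 - x ^ j) = aeval x (qnum j) * (1 - x) := by
      intro j; rw [aeval_qnum, geom_sum_mul_neg]
    simp_rw [h2]
    rw [prod_mul_distrib, prod_mul_distrib, ← h1]
    ring
  have hpow : ∀ j : ℕ, 1 ≤ j → r ^ j < 1 := fun j hj => pow_lt_one₀ hr0.le hr1 (by omega)
  have hder : ∀ j : ℕ, HasDerivAt (fun x : ℝ => 1 - x ^ j) (-(j * r ^ (j - 1))) r := by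
    intro j
    have := (hasDerivAt_pow j r).const_sub 1
    exact this
  have hlog : logDeriv (fun x => P.eval x) r = ∑ i ∈ Icc 2 n,
      (i * r ^ (i - 1) / (1 - r ^ i) - (n + i : ℕ) * r ^ (n + i - 1) / (1 - r ^ (n + i))) := by
    have h1 : logDeriv (fun x => P.eval x * ∏ i ∈ Icc 2 n, (1 - x ^ i)) r =
        logDeriv (fun x => ∏ i ∈ Icc 2 n, (1 - x ^ (n + i))) r := by
      congr 1
      ext x
      exact hid x
    rw [logDeriv_mul (f := fun x => P.eval x) (g := fun x => ∏ i ∈ Icc 2 n, (1 - x ^ i)) r hPpos.ne'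
      (prod_ne_zero_iff.2 fun i hi => by
        rw [mem_Icc] at hi; have := hpow i (by omega); linarith) P.differentiable.differentiableAt
      (by fun_prop)] at h1
    have h2 : logDeriv (fun x : ℝ => ∏ i ∈ Icc 2 n, (1 - x ^ i)) r =
        ∑ i ∈ Icc 2 n, logDeriv (fun x : ℝ => 1 - x ^ i) r := by
      have := logDeriv_prod (s := Icc 2 n) (f := fun i (x : ℝ) => 1 - x ^ i) (x := r)
        (fun i hi => by rw [mem_Icc] at hi; have := hpow i (by omega); linarith)
        (fun i _ => (hder i).differentiableAt)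
      exact this
    have h3 : logDeriv (fun x : ℝ => ∏ i ∈ Icc 2 n, (1 - x ^ (n + i))) r =
        ∑ i ∈ Icc 2 n, logDeriv (fun x : ℝ => 1 - x ^ (n + i)) r := by
      have := logDeriv_prod (s := Icc 2 n) (f := fun i (x : ℝ) => 1 - x ^ (n + i)) (x := r)
        (fun i hi => by rw [mem_Icc] at hi; have := hpow (n + i) (by omega); linarith)
        (fun i _ => (hder (n + i)).differentiableAt)
      exact this
    rw [h2, h3] at h1
    have h4 : ∀ j : ℕ, logDeriv (fun x : ℝ => 1 - x ^ j) r = -(j * r ^ (j - 1)) / (1 - r ^ j) := by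
      intro j
      rw [logDeriv_apply, (hder j).deriv]
    simp_rw [h4] at h1
    rw [sum_sub_distrib]
    have h5 : ∑ i ∈ Icc 2 n, -((i : ℝ) * r ^ (i - 1)) / (1 - r ^ i) =
        -∑ i ∈ Icc 2 n, (i : ℝ) * r ^ (i - 1) / (1 - r ^ i) := by
      rw [← sum_neg_distrib]; exact sum_congr rfl fun i _ => by ring
    have h6 : ∑ i ∈ Icc 2 n, -(((n + i : ℕ) : ℝ) * r ^ (n + i - 1)) / (1 - r ^ (n + i)) =
        -∑ i ∈ Icc 2 n, ((n + i : ℕ) : ℝ) * r ^ (n + i - 1) / (1 - r ^ (n + i)) := by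
      rw [← sum_neg_distrib]; exact sum_congr rfl fun i _ => by ring
    rw [h5, h6] at h1
    linarith
  have hlog2 : logDeriv (fun x => P.eval x) r = P.derivative.eval r / P.eval r := by
    rw [logDeriv_apply]
    congr 1
    exact P.deriv
  have h3 : (k : ℝ) = r * logDeriv (fun x => P.eval x) r := by
    rw [hlog2, ← mul_div_assoc, ← hk]
    field_simp
  rw [h3, hlog, mul_sum]
  refine sum_congr rfl fun i hi => ?_
  rw [mem_Icc] at hi
  have e1 : r * r ^ (i - 1) = r ^ i := by rw [← pow_succ']; congr 1; omega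
  have e2 : r * r ^ (n + i - 1) = r ^ (n + i) := by rw [← pow_succ']; congr 1; omega
  calc r * (i * r ^ (i - 1) / (1 - r ^ i) - (n + i : ℕ) * r ^ (n + i - 1) / (1 - r ^ (n + i)))
      = i * (r * r ^ (i - 1)) / (1 - r ^ i) -
        (n + i : ℕ) * (r * r ^ (n + i - 1)) / (1 - r ^ (n + i)) := by ring
    _ = _ := by rw [e1, e2]

/-- upper bound for `k` in terms of `s` -/
lemma tilt_upper (n k : ℕ) (hn : 1 ≤ n) (s : ℝ) (hs : 0 < s)
    (h : ∑ j ∈ range (n * (n - 1) + 1),
      ((j : ℝ) - k) * (((qCatalan n).coeff j : ℝ) * Real.exp (-s) ^ j) = 0) :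
    (k : ℝ) ≤ Real.pi ^ 2 / 6 / s ^ 2 := by
  have hr1 : Real.exp (-s) < 1 := by rw [Real.exp_lt_one_iff]; linarith
  rw [tilt_formula n k hn _ (Real.exp_pos _) hr1 h]
  have h1 := sum_S1 (Icc 2 n) (fun j hj => by rw [mem_Icc] at hj; omega) s hs
  refine le_trans (sum_le_sum fun i hi => ?_) h1
  rw [mem_Icc] at hi
  have e : Real.exp (-s) ^ i = Real.exp (-(i * s)) := by
    rw [← Real.exp_nat_mul]; congr 1; ring
  have h2 : 0 ≤ ((n + i : ℕ) : ℝ) * Real.exp (-s) ^ (n + i) / (1 - Real.exp (-s) ^ (n + i)) := by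
    have : Real.exp (-s) ^ (n + i) < 1 := pow_lt_one₀ (Real.exp_pos _).le hr1 (by omega)
    have h3 : 0 < 1 - Real.exp (-s) ^ (n + i) := by linarith
    positivity
  rw [e, ← mul_div_assoc]
  linarith

/-- `w/(e^w - 1)` in the form used here -/
noncomputable def phi (w : ℝ) : ℝ := w * (Real.exp (-w) / (1 - Real.exp (-w)))

lemma phi_eq (w : ℝ) : phi w = w / (Real.exp w - 1) := by
  rw [phi, Real.exp_neg]
  have := Real.exp_pos w
  by_cases h : Real.exp w = 1
  · rw [h]; simp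
  · have h1 : Real.exp w - 1 ≠ 0 := sub_ne_zero.2 h
    have h2 : 1 - (Real.exp w)⁻¹ ≠ 0 := by
      intro h3
      apply h
      have : (Real.exp w)⁻¹ = 1 := by linarith
      exact inv_eq_one.1 this
    field_simp

lemma phi_anti {a b : ℝ} (ha : 0 < a) (hab : a ≤ b) : phi b ≤ phi a := by
  rw [phi_eq, phi_eq]
  have hb : 0 < b := by linarith
  have h1 : 0 < Real.exp a - 1 := by linarith [Real.add_one_le_exp a]
  have h2 : 0 < Real.exp b - 1 := by linarith [Real.add_one_le_exp b]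
  rw [div_le_div_iff₀ h2 h1]
  -- convexity
  have h3 := convexOn_exp.2 (Set.mem_univ b) (Set.mem_univ 0) (by positivity : 0 ≤ a / b)
    (by rw [sub_nonneg, div_le_one hb]; exact hab : 0 ≤ 1 - a / b) (by ring)
  simp only [smul_eq_mul, mul_zero, add_zero, Real.exp_zero, mul_one] at h3
  have e : a / b * b = a := by field_simp
  rw [e] at h3
  have h4 : b * Real.exp a ≤ a * Real.exp b + (b - a) := by
    have := mul_le_mul_of_nonneg_left h3 hb.le
    have e2 : b * (a / b * Real.exp b + (1 - a / b)) = a * Real.exp b + (b - a) := by field_simp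
    rwa [e2] at this
  linarith

lemma phi_ge (w : ℝ) (hw : 0 < w) : 1 - w / 2 ≤ phi w := by
  have h1 := coth_ge w hw
  have hlt : Real.exp (-w) < 1 := by rw [Real.exp_lt_one_iff]; linarith
  have hpos : 0 < 1 - Real.exp (-w) := by linarith
  have e : phi w = w * ((1 + Real.exp (-w)) / (2 * (1 - Real.exp (-w)))) - w / 2 := by
    rw [phi]
    field_simp
    ring
  rw [e]
  have h2 := mul_le_mul_of_nonneg_left h1 hw.le
  have e2 : w * (1 / w) = 1 := by field_simp
  linarith

lemma phi_le (w : ℝ) (hw : 0 < w) : phi w ≤ 1 / (1 + w / 2) := by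
  rw [phi_eq]
  have h1 := Real.quadratic_le_exp_of_nonneg hw.le
  have h2 : 0 < Real.exp w - 1 := by linarith [Real.add_one_le_exp w]
  rw [div_le_div_iff₀ h2 (by positivity)]
  nlinarith

/-- lower bound for `s` -/
lemma tilt_lower (n k : ℕ) (hn : 2 ≤ n) (s : ℝ) (hs : 0 < s)
    (h : ∑ j ∈ range (n * (n - 1) + 1),
      ((j : ℝ) - k) * (((qCatalan n).coeff j : ℝ) * Real.exp (-s) ^ j) = 0) :
    1 / ((k : ℝ) + 1) - 2 / ((n : ℝ) + 2) ≤ s := by
  have hr1 : Real.exp (-s) < 1 := by rw [Real.exp_lt_one_iff]; linarith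
  have hk := tilt_formula n k (by omega) _ (Real.exp_pos _) hr1 h
  have e : ∀ j : ℕ, (j : ℝ) * Real.exp (-s) ^ j / (1 - Real.exp (-s) ^ j) =
      1 / s * phi (j * s) := by
    intro j
    have e : Real.exp (-s) ^ j = Real.exp (-(j * s)) := by
      rw [← Real.exp_nat_mul]; congr 1; ring
    rw [e, phi]
    field_simp
  have h1 : (k : ℝ) = ∑ i ∈ Icc 2 n, (1 / s * phi (i * s) - 1 / s * phi ((n + i : ℕ) * s)) := by
    rw [hk]
    exact sum_congr rfl fun i _ => by rw [e i, e (n + i)]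
  have h2 : ∀ i ∈ Icc 2 n, 0 ≤ 1 / s * phi (i * s) - 1 / s * phi ((n + i : ℕ) * s) := by
    intro i hi
    rw [mem_Icc] at hi
    have hi0 : (0 : ℝ) < i := by exact_mod_cast (by omega : 0 < i)
    have h3 : phi ((n + i : ℕ) * s) ≤ phi (i * s) := by
      apply phi_anti (by positivity)
      apply mul_le_mul_of_nonneg_right _ hs.le
      exact_mod_cast (by omega : i ≤ n + i)
    have := mul_le_mul_of_nonneg_left h3 (by positivity : 0 ≤ 1 / s)
    linarith
  have h3 := single_le_sum h2 (mem_Icc.2 ⟨le_rfl, hn⟩)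
  rw [← h1] at h3
  have hn0 : (0 : ℝ) < n := by exact_mod_cast (by omega : 0 < n)
  have h4 := phi_ge ((2 : ℕ) * s) (by positivity)
  have h5 := phi_le ((n + 2 : ℕ) * s) (by positivity)
  push_cast at h3 h4 h5
  -- k ≥ (1/s)(1 - s - 1/(1+(n+2)s/2))
  have h6 : 1 / s * (1 - 2 * s / 2) - 1 / s * (1 / (1 + (n + 2) * s / 2)) ≤ k := by
    have a := mul_le_mul_of_nonneg_left h4 (by positivity : 0 ≤ 1 / s)
    have b := mul_le_mul_of_nonneg_left h5 (by positivity : 0 ≤ 1 / s)
    linarith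
  have h7 : 1 / s * (1 - 2 * s / 2) - 1 / s * (1 / (1 + (n + 2) * s / 2)) =
      (n + 2) / (2 + (n + 2) * s) - 1 := by
    field_simp
    ring
  rw [h7] at h6
  have hk0 : (0 : ℝ) ≤ k := Nat.cast_nonneg _
  have h8 : ((n : ℝ) + 2) ≤ (k + 1) * (2 + (n + 2) * s) := by
    have : ((n : ℝ) + 2) / (2 + (n + 2) * s) ≤ k + 1 := by linarith
    rwa [div_le_iff₀ (by positivity)] at this
  rw [div_sub_div _ _ (by positivity) (by positivity), div_le_iff₀ (by positivity)]
  nlinarith

end Pool.Agent.H20.QCat
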