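import Pool.Agent.H20.QCat.Num2
import Pool.Agent.H20.QCat.Tilt

/-! # Explicit positivity for `0 < s ≤ 1/100` -/

namespace Pool.Agent.H20.QCat

open MeasureTheory Set Polynomial

theorem explicit_int (n k : ℕ) (hn : 1 ≤ n) (s : ℝ) (hs : 0 < s) (hs' : s ≤ 1 / 100)
    (hstat : deriv (G n k s) 0 = 0)
    (hC : Real.exp (4 * Real.exp (-s) ^ n / (1 - Real.exp (-s)) ^ 2) ≤ 1.01) :
    0 ≤ ∫ θ in (0 : ℝ)..Real.pi, (G n k s θ).re * (1 - Real.cos θ) := by
  have hpi := Real.pi_pos
  set q := Real.sqrt s with hq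
  have hq0 : 0 < q := Real.sqrt_pos.2 hs
  have hqs : q ^ 2 = s := Real.sq_sqrt hs.le
  have hq1 : q ≤ 1 / 10 := by
    rw [hq, Real.sqrt_le_iff]
    exact ⟨by norm_num, hs'.trans (by norm_num)⟩
  set P := aeval (Real.exp (-s)) (qCatalan n) with hP
  have hP0 : 0 < P := aeval_qCatalan_pos (Real.exp_pos _) n
  have hc2 : 0 < c2 s := by rw [c2]; positivity
  have hc3 : 0 < c3 s := by rw [c3]; positivity
  set δ : ℝ := (3 / (2 * c3 s)) ^ ((1 : ℝ) / 3) with hδ
  have hδ0 : 0 < δ := by positivity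
  have hδ3 : δ ^ 3 = 3 / (2 * c3 s) := by
    rw [hδ, ← Real.rpow_natCast, ← Real.rpow_mul (by positivity)]
    norm_num
  have hcδ : c3 s * δ ^ 3 = 3 / 2 := by rw [hδ3]; field_simp
  have hδ1 : δ ≤ 1 := by
    by_contra hcon
    push Not at hcon
    have h1 : 1 ≤ δ ^ 3 := one_le_pow₀ hcon.le
    have h2 : 2 ≤ c3 s := by
      have h3 : Real.pi ^ 2 / s ^ 4 / 6 ≤ c3 s := by
        rw [c3]
        have : 0 ≤ Real.pi ^ 2 / 3 / s ^ 3 := by positivity
        linarith
      have h4 : s ^ 4 ≤ 1 := pow_le_one₀ hs.le (by linarith)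
      have h5 : (100 : ℝ) ≤ 1 / s := by rw [le_div_iff₀ hs]; linarith
      have h6 : (100 : ℝ) ^ 4 ≤ (1 / s) ^ 4 := pow_le_pow_left₀ (by norm_num) h5 4
      have h7 : Real.pi ^ 2 / s ^ 4 / 6 = Real.pi ^ 2 / 6 * (1 / s) ^ 4 := by
        field_simp
      rw [h7] at h3
      have h8 := kappa_lo
      nlinarith
    nlinarith
  have hδpi : δ ≤ Real.pi := by linarith [Real.pi_gt_three]
  set F : ℝ → ℝ := fun θ => (G n k s θ).re * (1 - Real.cos θ) with hF
  have hFc : Continuous F := by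
    have := G_continuous n k s
    exact (Complex.continuous_re.comp this).mul (by fun_prop)
  have hint : ∀ a b : ℝ, IntervalIntegrable F volume a b :=
    fun a b => hFc.intervalIntegrable a b
  have hnear := nearX n k hn s hs hstat δ hδ0
  have hlow : ∀ θ ∈ Icc 0 δ, P * (Real.exp (-(c2 s * θ ^ 2)) *
      ((1 - c3 s * θ ^ 3) * (θ ^ 2 / 2) - 5 / 96 * θ ^ 4)) ≤ F θ := by
    intro θ hθ
    obtain ⟨a, b, h1, h2, h3⟩ := hnear θ hθ
    set v := c3 s * θ ^ 3 with hv
    have hb : |b| ≤ v := h1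
    have ha : -(c2 s * θ ^ 2) - v ≤ a := h2
    have hθ0 := hθ.1
    have hv0 : 0 ≤ v := by positivity
    have hv1 : v ≤ 3 / 2 := by
      rw [← hcδ]
      apply mul_le_mul_of_nonneg_left _ hc3.le
      exact pow_le_pow_left₀ hθ0 hθ.2 3
    have hcosv : 0 ≤ Real.cos v :=
      Real.cos_nonneg_of_neg_pi_div_two_le_of_le (by linarith)
        (by linarith [Real.pi_gt_three])
    have hcosb : Real.cos v ≤ Real.cos b := by
      rw [← Real.cos_abs b]
      exact Real.cos_le_cos_of_nonneg_of_le_pi (abs_nonneg _)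
        (by linarith [Real.pi_gt_three]) hb
    have h4 : Real.exp (-(c2 s * θ ^ 2)) * (1 - v) ≤ Real.exp a * Real.cos b := by
      have h5 := exp_cos_ge v hv0
      have h6 : Real.exp (-(c2 s * θ ^ 2)) * (Real.exp (-v) * Real.cos v) ≤
          Real.exp a * Real.cos b := by
        rw [← mul_assoc, ← Real.exp_add]
        apply mul_le_mul _ hcosb hcosv (Real.exp_pos _).le
        apply Real.exp_le_exp.2
        linarith
      exact (mul_le_mul_of_nonneg_left h5 (Real.exp_pos _).le).trans h6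
    have hθ1 : |θ| ≤ 1 := by rw [abs_of_nonneg hθ0]; exact hθ.2.trans hδ1
    have hc0 : 0 ≤ 1 - Real.cos θ := sub_nonneg.2 (Real.cos_le_one _)
    have h5 : (1 - v) * (θ ^ 2 / 2) - 5 / 96 * θ ^ 4 ≤ (1 - v) * (1 - Real.cos θ) := by
      have h6 := one_sub_cos_ge θ hθ1
      have h7 := one_sub_cos_le θ
      have h8 : 0 ≤ 5 / 96 * θ ^ 4 := by positivity
      rcases le_or_gt v 1 with h | h
      · have h9 := mul_le_mul_of_nonneg_left h6 (by linarith : 0 ≤ 1 - v)
        nlinarith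
      · nlinarith
    have h6 : F θ = P * (Real.exp a * Real.cos b) * (1 - Real.cos θ) := by
      simp only [hF]; rw [h3]
    rw [h6]
    have he := Real.exp_pos (-(c2 s * θ ^ 2))
    calc P * (Real.exp (-(c2 s * θ ^ 2)) * ((1 - v) * (θ ^ 2 / 2) - 5 / 96 * θ ^ 4))
        ≤ P * (Real.exp (-(c2 s * θ ^ 2)) * ((1 - v) * (1 - Real.cos θ))) := by gcongr
      _ = P * (Real.exp (-(c2 s * θ ^ 2)) * (1 - v)) * (1 - Real.cos θ) := by ring
      _ ≤ P * (Real.exp a * Real.cos b) * (1 - Real.cos θ) := by gcongr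
  have htail : ∀ θ ∈ Icc δ Real.pi, -(P * (1.01 * (Real.sqrt (3 / 2) / 2 *
      (θ ^ 2 * Real.exp (-(0.66 / s ^ 3 * θ ^ 2))) +
        4 * (1 + 1 / s) * Real.exp (-(1 / (3 * s)))))) ≤ F θ := by
    intro θ hθ
    have h1 := tailX n hn s θ hs
    rw [← G_norm n k s θ, ← hP] at h1
    have h2 := pointwise_tail s θ hs hs' (by linarith [hθ.1]) hθ.2
    have hc0 : 0 ≤ 1 - Real.cos θ := sub_nonneg.2 (Real.cos_le_one _)
    set A := Real.sqrt (1 + yy s θ) * Real.exp (-(1 / s * (yy s θ / (1 + yy s θ)))) with hA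
    have hA0 : 0 ≤ A := by positivity
    have h3 : ‖G n k s θ‖ ≤ P * (A * 1.01) := by
      refine h1.trans ?_
      apply mul_le_mul_of_nonneg_left _ hP0.le
      exact mul_le_mul_of_nonneg_left hC hA0
    have h4 := (abs_le.1 ((Complex.abs_re_le_norm (G n k s θ)).trans h3)).1
    have h5 := mul_le_mul_of_nonneg_right h4 hc0
    have h6 : P * (A * 1.01) * (1 - Real.cos θ) ≤ P * (1.01 * (Real.sqrt (3 / 2) / 2 *
      (θ ^ 2 * Real.exp (-(0.66 / s ^ 3 * θ ^ 2))) +
        4 * (1 + 1 / s) * Real.exp (-(1 / (3 * s))))) := by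
      have := mul_le_mul_of_nonneg_left h2 (by positivity : 0 ≤ P * 1.01)
      calc P * (A * 1.01) * (1 - Real.cos θ) = P * 1.01 * (A * (1 - Real.cos θ)) := by ring
        _ ≤ _ := this
        _ = _ := by ring
    simp only [hF]
    linarith
  have hsplit : ∫ θ in (0 : ℝ)..Real.pi, F θ =
      (∫ θ in (0 : ℝ)..δ, F θ) + ∫ θ in δ..Real.pi, F θ := by
    rw [intervalIntegral.integral_add_adjacent_intervals (hint _ _) (hint _ _)]
  have hI1 : P * (0.0864 * q ^ 9) ≤ ∫ θ in (0 : ℝ)..δ, F θ := by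
    have h1 : ∫ θ in (0 : ℝ)..δ, P * (Real.exp (-(c2 s * θ ^ 2)) *
      ((1 - c3 s * θ ^ 3) * (θ ^ 2 / 2) - 5 / 96 * θ ^ 4)) ≤ ∫ θ in (0 : ℝ)..δ, F θ := by
      apply intervalIntegral.integral_mono_on hδ0.le
        (Continuous.intervalIntegrable (by fun_prop) _ _) (hint _ _) hlow
    refine le_trans ?_ h1
    rw [intervalIntegral.integral_const_mul]
    apply mul_le_mul_of_nonneg_left _ hP0.le
    have h2 := main_integral (c2 s) (c3 s) δ hc2 hc3 hδ0 (by rw [hcδ]; norm_num)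
    have h3 := numeric_main q hq0 hq1
    rw [hqs] at h3
    exact h3.trans h2
  have hI2 : -(P * (1.01 * (0.6125 * (0.1052 * q ^ 9) + 0.0061 * q ^ 9))) ≤
      ∫ θ in δ..Real.pi, F θ := by
    have h1 : ∫ θ in δ..Real.pi, -(P * (1.01 * (Real.sqrt (3 / 2) / 2 *
      (θ ^ 2 * Real.exp (-(0.66 / s ^ 3 * θ ^ 2))) +
        4 * (1 + 1 / s) * Real.exp (-(1 / (3 * s)))))) ≤ ∫ θ in δ..Real.pi, F θ := by
      apply intervalIntegral.integral_mono_on hδpi
        (Continuous.intervalIntegrable (by fun_prop) _ _) (hint _ _) htail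
    refine le_trans ?_ h1
    rw [intervalIntegral.integral_neg, intervalIntegral.integral_const_mul,
      intervalIntegral.integral_const_mul, intervalIntegral.integral_add,
      intervalIntegral.integral_const_mul, intervalIntegral.integral_const, smul_eq_mul]
    · rw [neg_le_neg_iff]
      apply mul_le_mul_of_nonneg_left _ hP0.le
      apply mul_le_mul_of_nonneg_left _ (by norm_num)
      apply add_le_add
      · have h2 := gauss_tail (0.66 / s ^ 3) δ Real.pi (by positivity) hδ0 hδpi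
        have h3 := numeric_tail1 q δ hq0 hq1 hδ0 (by rw [hqs]; exact hcδ)
        rw [hqs] at h3
        have h4 : 0 ≤ ∫ θ in δ..Real.pi, θ ^ 2 * Real.exp (-(0.66 / s ^ 3 * θ ^ 2)) :=
          intervalIntegral.integral_nonneg hδpi (fun θ _ => by positivity)
        exact mul_le_mul sqrt_three_halves (h2.trans h3) h4 (by norm_num)
      · have h3 := numeric_tail2 q hq0 hq1
        rw [hqs] at h3
        refine le_trans ?_ h3
        apply mul_le_mul_of_nonneg_right _ (by positivity)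
        linarith
    · exact Continuous.intervalIntegrable (by fun_prop) _ _
    · exact Continuous.intervalIntegrable (by fun_prop) _ _
  rw [hsplit]
  have h9 : 0 < P * q ^ 9 := by positivity
  nlinarith

end Pool.Agent.H20.QCat
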