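import Pool.Agent.H20.QCat.Poly2

/-! # Fourier coefficient extraction -/

namespace Pool.Agent.H20.QCat

open Polynomial Finset MeasureTheory intervalIntegral

lemma integral_cos_int (m : ℤ) :
    ∫ θ in (0 : ℝ)..Real.pi, Real.cos (m * θ) = if m = 0 then Real.pi else 0 := by
  split_ifs with h
  · subst h; simp
  · have h' : (m : ℝ) ≠ 0 := by exact_mod_cast h
    rw [intervalIntegral.integral_comp_mul_left (fun x => Real.cos x) h', integral_cos]
    simp [Real.sin_int_mul_pi]

lemma integral_cos_mul (m : ℤ) :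
    ∫ θ in (0 : ℝ)..Real.pi, Real.cos (m * θ) * Real.cos θ =
      ((if m = 1 then Real.pi else 0) + (if m = -1 then Real.pi else 0)) / 2 := by
  have h : ∀ θ : ℝ, Real.cos (m * θ) * Real.cos θ =
      (Real.cos ((m - 1 : ℤ) * θ) + Real.cos ((m + 1 : ℤ) * θ)) / 2 := by
    intro θ
    push_cast
    rw [sub_mul, add_mul, one_mul, Real.cos_sub, Real.cos_add]
    ring
  simp_rw [h]
  rw [intervalIntegral.integral_div, intervalIntegral.integral_add, integral_cos_int,
    integral_cos_int]
  · have e1 : (m - 1 = 0) ↔ m = 1 := by omega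
    have e2 : (m + 1 = 0) ↔ m = -1 := by omega
    simp only [e1, e2]
  · exact (Continuous.intervalIntegrable (by fun_prop) _ _)
  · exact (Continuous.intervalIntegrable (by fun_prop) _ _)

/-- the two second-difference integrals -/
lemma integral_weight (c : ℕ → ℝ) (D k : ℕ) (hk : 1 ≤ k) (hc : ∀ j, D < j → c j = 0) (σ : ℝ) :
    ∫ θ in (0 : ℝ)..Real.pi,
      (∑ j ∈ range (D + 1), c j * Real.cos (((j : ℤ) - (k : ℤ) : ℤ) * θ)) *
        (1 + σ * Real.cos θ) =
      Real.pi * c k + σ * (Real.pi / 2) * (c (k - 1) + c (k + 1)) := by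
  have h : ∀ θ : ℝ, (∑ j ∈ range (D + 1), c j * Real.cos (((j : ℤ) - (k : ℤ) : ℤ) * θ)) *
        (1 + σ * Real.cos θ) =
      ∑ j ∈ range (D + 1), (c j * Real.cos (((j : ℤ) - (k : ℤ) : ℤ) * θ) +
        σ * c j * (Real.cos (((j : ℤ) - (k : ℤ) : ℤ) * θ) * Real.cos θ)) := by
    intro θ
    rw [sum_mul]
    exact sum_congr rfl fun j _ => by ring
  simp_rw [h]
  rw [intervalIntegral.integral_finsetSum]
  · have h2 : ∀ j ∈ range (D + 1), ∫ θ in (0 : ℝ)..Real.pi,
        (c j * Real.cos (((j : ℤ) - (k : ℤ) : ℤ) * θ) +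
        σ * c j * (Real.cos (((j : ℤ) - (k : ℤ) : ℤ) * θ) * Real.cos θ)) =
        (if j = k then Real.pi * c k else 0) +
        ((if j = k + 1 then σ * (Real.pi / 2) * c (k + 1) else 0) +
         (if j = k - 1 then σ * (Real.pi / 2) * c (k - 1) else 0)) := by
      intro j _
      rw [intervalIntegral.integral_add, intervalIntegral.integral_const_mul,
        intervalIntegral.integral_const_mul, integral_cos_int, integral_cos_mul]
      · have e1 : ((j : ℤ) - (k : ℤ) = 0) ↔ j = k := by omega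
        have e2 : ((j : ℤ) - (k : ℤ) = 1) ↔ j = k + 1 := by omega
        have e3 : ((j : ℤ) - (k : ℤ) = -1) ↔ j = k - 1 := by omega
        simp only [e1, e2, e3]
        split_ifs with h1 h2 h3 h4 h5 h6
        all_goals first
          | (exfalso; omega)
          | (subst_vars; ring)
      · exact (Continuous.intervalIntegrable (by fun_prop) _ _)
      · exact (Continuous.intervalIntegrable (by fun_prop) _ _)
    rw [sum_congr rfl h2, sum_add_distrib, sum_add_distrib, Finset.sum_ite_eq', Finset.sum_ite_eq',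
      Finset.sum_ite_eq']
    simp only [mem_range]
    have h3 : (if k < D + 1 then Real.pi * c k else 0) = Real.pi * c k := by
      split_ifs with h
      · rfl
      · rw [hc k (by omega), mul_zero]
    have h4 : (if k + 1 < D + 1 then σ * (Real.pi / 2) * c (k + 1) else 0) =
        σ * (Real.pi / 2) * c (k + 1) := by
      split_ifs with h
      · rfl
      · rw [hc (k + 1) (by omega), mul_zero]
    have h5 : (if k - 1 < D + 1 then σ * (Real.pi / 2) * c (k - 1) else 0) =
        σ * (Real.pi / 2) * c (k - 1) := by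
      split_ifs with h
      · rfl
      · rw [hc (k - 1) (by omega), mul_zero]
    rw [h3, h4, h5]
    ring
  · intro j _
    exact (Continuous.intervalIntegrable (by fun_prop) _ _)

/-- real part of the tilted characteristic function -/
lemma re_char (P : ℤ[X]) (D : ℕ) (hD : P.natDegree ≤ D) (k : ℕ) (r θ : ℝ) :
    (aeval ((r : ℂ) * Complex.exp (θ * Complex.I)) P * Complex.exp (-(k * θ * Complex.I))).re =
      ∑ j ∈ range (D + 1), ((P.coeff j : ℝ) * r ^ j) *
        Real.cos (((j : ℤ) - (k : ℤ) : ℤ) * θ) := by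
  rw [aeval_eq_sum_range' (n := D + 1) (by omega), sum_mul, Complex.re_sum]
  refine sum_congr rfl fun j _ => ?_
  have h : P.coeff j • ((r : ℂ) * Complex.exp (θ * Complex.I)) ^ j *
      Complex.exp (-(k * θ * Complex.I)) =
      (((P.coeff j : ℝ) * r ^ j : ℝ) : ℂ) *
        Complex.exp (((((j : ℤ) - (k : ℤ) : ℤ) * θ : ℝ) : ℂ) * Complex.I) := by
    have he : Complex.exp (((((j : ℤ) - (k : ℤ) : ℤ) * θ : ℝ) : ℂ) * Complex.I) =
        Complex.exp (j * (θ * Complex.I)) * Complex.exp (-(k * θ * Complex.I)) := by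
      rw [← Complex.exp_add]
      congr 1
      push_cast
      ring
    rw [mul_pow, ← Complex.exp_nat_mul, zsmul_eq_mul, he]
    push_cast
    ring
  rw [h, Complex.re_ofReal_mul, Complex.exp_ofReal_mul_I_re]

/-- Cauchy's bound for a coefficient of a polynomial. -/
lemma coeff_bound (c : ℕ → ℂ) (m κ : ℕ) (hκ : κ < m) (ρ B : ℝ)
    (h : ∀ φ : ℝ, ‖∑ k ∈ range m, c k * ((ρ : ℂ) * Complex.exp (φ * Complex.I)) ^ k‖ ≤ B) :
    ‖c κ * (ρ : ℂ) ^ κ‖ ≤ B := by
  have h1 : ∫ φ in (0 : ℝ)..(2 * Real.pi),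
      (∑ k ∈ range m, c k * ((ρ : ℂ) * Complex.exp (φ * Complex.I)) ^ k) *
        Complex.exp (-(κ * φ * Complex.I)) = 2 * Real.pi * (c κ * (ρ : ℂ) ^ κ) := by
    have h2 : ∀ φ : ℝ, (∑ k ∈ range m, c k * ((ρ : ℂ) * Complex.exp (φ * Complex.I)) ^ k) *
        Complex.exp (-(κ * φ * Complex.I)) =
        ∑ k ∈ range m, (c k * (ρ : ℂ) ^ k) *
          Complex.exp ((((k : ℤ) - (κ : ℤ) : ℤ) * Complex.I) * φ) := by
      intro φ
      rw [sum_mul]
      refine sum_congr rfl fun k _ => ?_
      have he : Complex.exp ((((k : ℤ) - (κ : ℤ) : ℤ) * Complex.I) * φ) =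
          Complex.exp (k * (φ * Complex.I)) * Complex.exp (-(κ * φ * Complex.I)) := by
        rw [← Complex.exp_add]
        congr 1
        push_cast
        ring
      rw [mul_pow, ← Complex.exp_nat_mul, he]
      ring
    simp_rw [h2]
    rw [intervalIntegral.integral_finsetSum]
    · have h3 : ∀ k ∈ range m, ∫ φ in (0 : ℝ)..(2 * Real.pi), (c k * (ρ : ℂ) ^ k) *
          Complex.exp ((((k : ℤ) - (κ : ℤ) : ℤ) * Complex.I) * φ) =
          if k = κ then 2 * Real.pi * (c κ * (ρ : ℂ) ^ κ) else 0 := by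
        intro k _
        split_ifs with hk
        · subst hk
          simp
          ring
        · rw [intervalIntegral.integral_const_mul]
          have h4 : (((k : ℤ) - (κ : ℤ) : ℤ) * Complex.I) ≠ 0 := by
            apply mul_ne_zero _ Complex.I_ne_zero
            exact_mod_cast (show ((k : ℤ) - (κ : ℤ) : ℤ) ≠ 0 by omega)
          rw [integral_exp_mul_complex h4]
          have h5 : Complex.exp ((((k : ℤ) - (κ : ℤ) : ℤ) * Complex.I) * ((2 * Real.pi : ℝ) : ℂ)) =
              1 := by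
            rw [Complex.exp_eq_one_iff]
            exact ⟨(k : ℤ) - (κ : ℤ), by push_cast; ring⟩
          rw [h5]
          simp
      rw [sum_congr rfl h3, Finset.sum_ite_eq', if_pos (by simpa using hκ)]
    · intro k _
      exact (Continuous.intervalIntegrable (by fun_prop) _ _)
  have h2 : ‖∫ φ in (0 : ℝ)..(2 * Real.pi),
      (∑ k ∈ range m, c k * ((ρ : ℂ) * Complex.exp (φ * Complex.I)) ^ k) *
        Complex.exp (-(κ * φ * Complex.I))‖ ≤ B * |2 * Real.pi - 0| := by
    apply intervalIntegral.norm_integral_le_of_norm_le_const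
    intro φ _
    rw [norm_mul]
    have : ‖Complex.exp (-(κ * φ * Complex.I))‖ = 1 := by
      rw [Complex.norm_exp]
      simp
    rw [this, mul_one]
    exact h φ
  rw [h1, norm_mul] at h2
  have h3 : ‖(2 * Real.pi : ℂ)‖ = 2 * Real.pi := by
    simp [abs_of_pos Real.pi_pos]
  rw [h3, sub_zero, abs_of_pos Real.two_pi_pos, mul_comm B] at h2
  exact le_of_mul_le_mul_left h2 Real.two_pi_pos

/-- from the two weighted integrals to the log-concavity inequality -/
lemma logconcave_of_integral (P : ℤ[X]) (k : ℕ) (hk : 1 ≤ k) (r : ℝ) (hr : 0 < r)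
    (h : ∀ σ : ℝ, (σ = 1 ∨ σ = -1) → 0 ≤ ∫ θ in (0 : ℝ)..Real.pi,
      (aeval ((r : ℂ) * Complex.exp (θ * Complex.I)) P * Complex.exp (-(k * θ * Complex.I))).re *
        (1 + σ * Real.cos θ)) :
    P.coeff (k - 1) * P.coeff (k + 1) ≤ P.coeff k ^ 2 := by
  set D := P.natDegree with hD
  set c : ℕ → ℝ := fun j => (P.coeff j : ℝ) * r ^ j with hc
  have hc0 : ∀ j, D < j → c j = 0 := by
    intro j hj
    simp [hc, coeff_eq_zero_of_natDegree_lt hj]
  have h1 : ∀ σ : ℝ, (σ = 1 ∨ σ = -1) →
      0 ≤ Real.pi * c k + σ * (Real.pi / 2) * (c (k - 1) + c (k + 1)) := by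
    intro σ hσ
    rw [← integral_weight c D k hk hc0 σ]
    have := h σ hσ
    simp_rw [re_char P D le_rfl k r] at this
    exact this
  have hpi := Real.pi_pos
  have h2 : |c (k - 1) + c (k + 1)| ≤ 2 * c k := by
    have ha := h1 1 (Or.inl rfl)
    have hb := h1 (-1) (Or.inr rfl)
    rw [abs_le]
    constructor
    · by_contra hcon
      push Not at hcon
      nlinarith
    · by_contra hcon
      push Not at hcon
      nlinarith
  have h3 : c (k - 1) * c (k + 1) ≤ c k ^ 2 := by
    have h4 := sq_abs (c (k - 1) + c (k + 1))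
    have h5 : |c (k - 1) + c (k + 1)| ^ 2 ≤ (2 * c k) ^ 2 :=
      pow_le_pow_left₀ (abs_nonneg _) h2 2
    nlinarith [sq_nonneg (c (k - 1) - c (k + 1))]
  have h4 : c (k - 1) * c (k + 1) = ((P.coeff (k - 1) : ℝ) * P.coeff (k + 1)) * r ^ (2 * k) := by
    simp only [hc]
    have : r ^ (2 * k) = r ^ (k - 1) * r ^ (k + 1) := by rw [← pow_add]; congr 1; omega
    rw [this]; ring
  have h5 : c k ^ 2 = ((P.coeff k : ℝ) ^ 2) * r ^ (2 * k) := by
    simp only [hc]; ring
  rw [h4, h5] at h3
  have h6 := le_of_mul_le_mul_right h3 (pow_pos hr _)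
  exact_mod_cast h6

end Pool.Agent.H20.QCat
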