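import Mathlib

/-! # Gaussian moments on the half line -/

namespace Pool.Agent.H20.QCat

open MeasureTheory Set

lemma rpow_half {c : ℝ} (hc : 0 < c) : c ^ (-(3 / 2) : ℝ) = 1 / (c * Real.sqrt c) := by
  rw [Real.rpow_neg hc.le, Real.sqrt_eq_rpow, one_div]
  congr 1
  rw [show (3 / 2 : ℝ) = 1 + 1 / 2 by norm_num, Real.rpow_add hc, Real.rpow_one]

lemma rpow_half5 {c : ℝ} (hc : 0 < c) : c ^ (-(5 / 2) : ℝ) = 1 / (c ^ 2 * Real.sqrt c) := by
  rw [Real.rpow_neg hc.le, Real.sqrt_eq_rpow, one_div]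
  congr 1
  rw [show (5 / 2 : ℝ) = (2 : ℕ) + 1 / 2 by norm_num, Real.rpow_add hc, Real.rpow_natCast]

lemma gauss_rpow (c : ℝ) (hc : 0 < c) (m : ℕ) :
    ∫ x in Ioi (0 : ℝ), x ^ m * Real.exp (-(c * x ^ 2)) =
      c ^ (-((m : ℝ) + 1) / 2) * (1 / 2) * Real.Gamma (((m : ℝ) + 1) / 2) := by
  have h := integral_rpow_mul_exp_neg_mul_rpow (p := 2) (q := (m : ℝ)) (b := c) (by norm_num)
    (by have : (0 : ℝ) ≤ m := Nat.cast_nonneg _
        linarith) hc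
  rw [← h]
  refine setIntegral_congr_fun measurableSet_Ioi fun x _ => ?_
  rw [Real.rpow_natCast, Real.rpow_two]
  congr 2
  ring

lemma gauss_int (c : ℝ) (hc : 0 < c) (m : ℕ) :
    IntegrableOn (fun x : ℝ => x ^ m * Real.exp (-(c * x ^ 2))) (Ioi 0) := by
  have h := integrableOn_rpow_mul_exp_neg_mul_sq hc (s := (m : ℝ))
    (by have : (0 : ℝ) ≤ m := Nat.cast_nonneg _
        linarith)
  refine h.congr_fun (fun x _ => ?_) measurableSet_Ioi
  simp only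
  rw [Real.rpow_natCast]
  congr 2
  ring

lemma Gamma_three_halves : Real.Gamma (3 / 2) = Real.sqrt Real.pi / 2 := by
  have h := Real.Gamma_add_one (s := 1 / 2) (by norm_num)
  rw [Real.Gamma_one_half_eq] at h
  norm_num at h
  rw [h]; ring

lemma Gamma_five_halves : Real.Gamma (5 / 2) = 3 * Real.sqrt Real.pi / 4 := by
  have h := Real.Gamma_add_one (s := 3 / 2) (by norm_num)
  rw [Gamma_three_halves] at h
  norm_num at h
  rw [h]; ring

lemma gauss2 (c : ℝ) (hc : 0 < c) : ∫ x in Ioi (0 : ℝ), x ^ 2 * Real.exp (-(c * x ^ 2)) =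
    Real.sqrt Real.pi / (4 * (c * Real.sqrt c)) := by
  rw [gauss_rpow c hc 2]
  have e1 : (-(((2 : ℕ) : ℝ) + 1) / 2) = -(3 / 2) := by norm_num
  have e2 : ((((2 : ℕ) : ℝ) + 1) / 2) = 3 / 2 := by norm_num
  rw [e1, e2, rpow_half hc, Gamma_three_halves]
  have := Real.sqrt_pos.2 hc
  field_simp
  norm_num

lemma gauss4 (c : ℝ) (hc : 0 < c) : ∫ x in Ioi (0 : ℝ), x ^ 4 * Real.exp (-(c * x ^ 2)) =
    3 * Real.sqrt Real.pi / (8 * (c ^ 2 * Real.sqrt c)) := by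
  rw [gauss_rpow c hc 4]
  have e1 : (-(((4 : ℕ) : ℝ) + 1) / 2) = -(5 / 2) := by norm_num
  have e2 : ((((4 : ℕ) : ℝ) + 1) / 2) = 5 / 2 := by norm_num
  rw [e1, e2, rpow_half5 hc, Gamma_five_halves]
  have := Real.sqrt_pos.2 hc
  field_simp
  norm_num

lemma gauss5 (c : ℝ) (hc : 0 < c) : ∫ x in Ioi (0 : ℝ), x ^ 5 * Real.exp (-(c * x ^ 2)) =
    1 / c ^ 3 := by
  rw [gauss_rpow c hc 5]
  have e1 : (-(((5 : ℕ) : ℝ) + 1) / 2) = -((3 : ℕ) : ℝ) := by norm_num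
  have e2 : ((((5 : ℕ) : ℝ) + 1) / 2) = ((2 : ℕ) : ℝ) + 1 := by norm_num
  rw [e1, e2, Real.Gamma_nat_eq_factorial, Real.rpow_neg hc.le, Real.rpow_natCast]
  norm_num [Nat.factorial]
  ring

/-- tail of the second moment -/
lemma gauss_tail (b a c : ℝ) (hb : 0 < b) (ha : 0 < a) (hac : a ≤ c) :
    ∫ x in a..c, x ^ 2 * Real.exp (-(b * x ^ 2)) ≤
      (a / (2 * b) + 1 / (4 * b ^ 2 * a)) * Real.exp (-(b * a ^ 2)) := by
  have hder : ∀ x ∈ Set.uIcc a c, HasDerivAt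
      (fun x : ℝ => -((x / (2 * b) + 1 / (4 * b ^ 2) * x⁻¹) * Real.exp (-(b * x ^ 2))))
      (-((1 / (2 * b) + 1 / (4 * b ^ 2) * (-(x ^ 2)⁻¹)) * Real.exp (-(b * x ^ 2)) +
        (x / (2 * b) + 1 / (4 * b ^ 2) * x⁻¹) *
          (Real.exp (-(b * x ^ 2)) * -(b * (((2 : ℕ) : ℝ) * x ^ (2 - 1)))))) x := by
    intro x hx
    rw [Set.uIcc_of_le hac] at hx
    have hx0 : x ≠ 0 := by linarith [hx.1]
    exact ((((hasDerivAt_id x).div_const (2 * b)).add ((hasDerivAt_inv hx0).const_mul _)).mul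
      (((hasDerivAt_pow 2 x).const_mul b).neg.exp)).neg
  have hcont : ContinuousOn (fun x : ℝ => (-((1 / (2 * b) + 1 / (4 * b ^ 2) * (-(x ^ 2)⁻¹)) *
      Real.exp (-(b * x ^ 2)) + (x / (2 * b) + 1 / (4 * b ^ 2) * x⁻¹) *
          (Real.exp (-(b * x ^ 2)) * -(b * (((2 : ℕ) : ℝ) * x ^ (2 - 1)))))))
      (Set.uIcc a c) := by
    intro x hx
    rw [Set.uIcc_of_le hac] at hx
    have hx0 : x ≠ 0 := by linarith [hx.1]
    have hx2 : x ^ 2 ≠ 0 := pow_ne_zero 2 hx0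
    apply ContinuousAt.continuousWithinAt
    fun_prop (disch := assumption)
  have hftc := intervalIntegral.integral_eq_sub_of_hasDerivAt hder hcont.intervalIntegrable
  have hle : ∫ x in a..c, x ^ 2 * Real.exp (-(b * x ^ 2)) ≤
      ∫ x in a..c, (-((1 / (2 * b) + 1 / (4 * b ^ 2) * (-(x ^ 2)⁻¹)) * Real.exp (-(b * x ^ 2)) +
        (x / (2 * b) + 1 / (4 * b ^ 2) * x⁻¹) *
          (Real.exp (-(b * x ^ 2)) * -(b * (((2 : ℕ) : ℝ) * x ^ (2 - 1)))))) := by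
    apply intervalIntegral.integral_mono_on hac
    · exact Continuous.intervalIntegrable (by fun_prop) _ _
    · exact hcont.intervalIntegrable
    · intro x hx
      have hx0 : 0 < x := by linarith [hx.1]
      have he := Real.exp_pos (-(b * x ^ 2))
      have e : (-((1 / (2 * b) + 1 / (4 * b ^ 2) * (-(x ^ 2)⁻¹)) * Real.exp (-(b * x ^ 2)) +
        (x / (2 * b) + 1 / (4 * b ^ 2) * x⁻¹) *
          (Real.exp (-(b * x ^ 2)) * -(b * (((2 : ℕ) : ℝ) * x ^ (2 - 1)))))) =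
          (x ^ 2 + 1 / (4 * b ^ 2 * x ^ 2)) * Real.exp (-(b * x ^ 2)) := by
        field_simp
        norm_num
        ring
      rw [e]
      apply mul_le_mul_of_nonneg_right _ he.le
      have : 0 ≤ 1 / (4 * b ^ 2 * x ^ 2) := by positivity
      linarith
  refine hle.trans ?_
  rw [hftc]
  have hc : 0 < c := by linarith
  have h1 : 0 ≤ (c / (2 * b) + 1 / (4 * b ^ 2) * c⁻¹) * Real.exp (-(b * c ^ 2)) := by positivity
  have h2 : (a / (2 * b) + 1 / (4 * b ^ 2) * a⁻¹) = (a / (2 * b) + 1 / (4 * b ^ 2 * a)) := by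
    field_simp
  rw [h2]
  linarith

end Pool.Agent.H20.QCat
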