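import Pool.Agent.H20.QCat.KernC
import Pool.Agent.H20.QCat.Digits

/-! # The limiting coefficients up to 16451 -/

namespace Pool.Agent.H20.QCat

open Finset

lemma bW_pow (p : ℕ) : bW ^ p = 2 ^ (512 * p) := by rw [bW_eq, ← pow_mul]

lemma shr_gen (X p e : ℕ) (he : e = 512 * p) : Nat.shiftRight X e = X / bW ^ p := by
  subst he; rw [bW_pow]; exact Nat.shiftRight_eq_div_pow X _

lemma shr_one (X : ℕ) : Nat.shiftRight X 512 = X / bW := by
  rw [shr_gen X 1 512 (by norm_num), pow_one]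

lemma shr_two (X : ℕ) : Nat.shiftRight X 1024 = X / bW ^ 2 := shr_gen X 2 1024 (by norm_num)

lemma chk3_spec (X : ℕ) (h : chk3 X = true) :
    (X % bW) * (X / bW ^ 2 % bW) ≤ (X / bW % bW) * (X / bW % bW) ∧ X % bW ≤ 2 ^ 482 := by
  unfold chk3 at h
  obtain ⟨h1, h2⟩ := (Bool.and_eq_true _ _).mp h
  have h1' := Nat.le_of_ble_eq_true h1
  have h2' := Nat.le_of_ble_eq_true h2
  rw [shr_one, shr_two] at h1'
  exact ⟨h1', h2'⟩

lemma chkN_spec : ∀ (n X : ℕ), chkN n X = true → ∀ i < n, chk3 (X / bW ^ i) = true := by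
  intro n
  induction n with
  | zero => intro X _ i hi; omega
  | succ n ih =>
    intro X h i hi
    have h' : (chk3 X && chkN n (Nat.shiftRight X 512)) = true := h
    obtain ⟨h1, h2⟩ := (Bool.and_eq_true _ _).mp h'
    rcases Nat.eq_zero_or_pos i with rfl | h0
    · rwa [pow_zero, Nat.div_one]
    · obtain ⟨j, rfl⟩ : ∃ j, i = j + 1 := ⟨i - 1, by omega⟩
      have h3 := ih _ h2 j (by omega)
      rw [shr_one, Nat.div_div_eq_div_mul] at h3
      rwa [pow_succ, mul_comm (bW ^ j)]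

lemma chkB_spec : ∀ (n X : ℕ), chkB n X = true → ∀ i < n, X / bW ^ i % bW ≤ 2 ^ 482 := by
  intro n
  induction n with
  | zero => intro X _ i hi; omega
  | succ n ih =>
    intro X h i hi
    have h' : (Nat.ble (Nat.mod X bW) (2 ^ 482) && chkB n (Nat.shiftRight X 512)) = true := h
    obtain ⟨h1, h2⟩ := (Bool.and_eq_true _ _).mp h'
    rcases Nat.eq_zero_or_pos i with rfl | h0
    · rw [pow_zero, Nat.div_one]; exact Nat.le_of_ble_eq_true h1
    · obtain ⟨j, rfl⟩ : ∃ j, i = j + 1 := ⟨i - 1, by omega⟩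
      have h3 := ih _ h2 j (by omega)
      rw [shr_one, Nat.div_div_eq_div_mul] at h3
      rwa [pow_succ, mul_comm (bW ^ j)]

lemma blocks_spec : ∀ (b : ℕ), blocks b = true → ∀ β < b,
    chkN 126 ((bN / bW ^ (8 + 126 * β)) % bW ^ 128) = true := by
  intro b
  induction b with
  | zero => intro _ β hβ; omega
  | succ n ih =>
    intro h β hβ
    have h' : (chkN 126 (Nat.mod (Nat.shiftRight bN (512 * (8 + 126 * n))) (bW ^ 128)) &&
      blocks n) = true := h
    obtain ⟨h1, h2⟩ := (Bool.and_eq_true _ _).mp h'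
    rcases Nat.lt_or_ge β n with h0 | h0
    · exact ih h2 β h0
    · have e : β = n := by omega
      rw [e]
      have e2 : Nat.shiftRight bN (512 * (8 + 126 * n)) =
          bN / bW ^ (8 + 126 * n) := shr_gen _ _ _ rfl
      rw [e2] at h1
      exact h1

lemma W_pos : 0 < bW := by rw [bW_eq]; positivity

/-- digit of a block -/
lemma block_digit (Y i j : ℕ) (h : i + j < 128) :
    ((Y % bW ^ 128) / bW ^ i) / bW ^ j % bW = Y / bW ^ (i + j) % bW := by
  rw [Nat.div_div_eq_div_mul, ← pow_add]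
  have e : bW ^ 128 = bW ^ (i + j) * bW ^ (128 - (i + j)) := by
    rw [← pow_add]; congr 1; omega
  rw [e, Nat.mod_mul_right_div_self, Nat.mod_mod_of_dvd]
  exact dvd_pow_self _ (by omega)

/-- the digits -/
def dg (p : ℕ) : ℕ := bN / bW ^ p % bW

lemma block_props (p : ℕ) (h1 : 8 ≤ p) (h2 : p < 16388) :
    dg p * dg (p + 2) ≤ dg (p + 1) * dg (p + 1) ∧ dg p ≤ 2 ^ 482 := by
  obtain ⟨β, i, hβ, hi, rfl⟩ : ∃ β i, β < 130 ∧ i < 126 ∧ p = 8 + 126 * β + i :=
    ⟨(p - 8) / 126, (p - 8) % 126, by omega, by omega, by omega⟩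
  have h3 := blocks_spec 130 blocks_ok β hβ
  have h4 := chk3_spec _ (chkN_spec 126 _ h3 i hi)
  have e : ∀ j, j < 3 → ((bN / bW ^ (8 + 126 * β)) % bW ^ 128 / bW ^ i) / bW ^ j % bW =
      dg (8 + 126 * β + i + j) := by
    intro j hj
    rw [block_digit _ _ _ (by omega), Nat.div_div_eq_div_mul, ← pow_add, dg]
    congr 3
    omega
  have e0 := e 0 (by omega)
  have e1 := e 1 (by omega)
  have e2 := e 2 (by omega)
  rw [pow_zero, Nat.div_one, add_zero] at e0
  rw [pow_one] at e1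
  rw [e0, e1, e2] at h4
  exact h4

lemma dg_bound (p : ℕ) (hp : p ≤ 16460) : dg p ≤ 2 ^ 482 := by
  rcases Nat.lt_or_ge p 8 with h | h
  · exact chkB_spec 8 bN lo_ok p h
  · rcases Nat.lt_or_ge p 16388 with h' | h'
    · exact (block_props p h h').2
    · have h1 := chkB_spec 73 _ hi_ok (p - 16388) (by omega)
      have e2 : Nat.shiftRight bN 8390656 = bN / bW ^ 16388 := shr_gen _ _ _ (by norm_num)
      rw [e2, Nat.div_div_eq_div_mul, ← pow_add] at h1
      have e3 : 16388 + (p - 16388) = p := by omega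
      rw [e3] at h1
      exact h1

lemma hJ104 (j : ℤ) : pentagonal j ≤ 16460 ↔ j ∈ Icc (-((104 : ℕ) : ℤ)) ((104 : ℕ) : ℤ) := by
  have h := two_mul_natCast_pentagonal j
  rw [mem_Icc]
  push_cast
  constructor
  · intro h1
    have h2 : (pentagonal j : ℤ) ≤ 16460 := by exact_mod_cast h1
    constructor
    · by_contra hc
      have : j ≤ -105 := by omega
      nlinarith
    · by_contra hc
      have : 105 ≤ j := by omega
      nlinarith
  · rintro ⟨h1, h2⟩
    have h3 : (pentagonal j : ℤ) ≤ 16460 := by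
      rcases le_or_gt 0 j with h0 | h0
      · nlinarith
      · nlinarith
    exact_mod_cast h3

lemma Icc_step (f : ℤ → ℤ) (m : ℕ) : ∑ j ∈ Icc (-((m + 1 : ℕ) : ℤ)) ((m + 1 : ℕ) : ℤ), f j =
    ∑ j ∈ Icc (-(m : ℤ)) (m : ℤ), f j + (f ((m : ℤ) + 1) + f (-((m : ℤ) + 1))) := by
  have e : Icc (-((m + 1 : ℕ) : ℤ)) ((m + 1 : ℕ) : ℤ) =
      insert ((m : ℤ) + 1) (insert (-((m : ℤ) + 1)) (Icc (-(m : ℤ)) (m : ℤ))) := by
    ext x; simp only [mem_insert, mem_Icc]; push_cast; omega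
  rw [e, sum_insert, sum_insert]
  · ring
  · simp
  · simp only [mem_insert, mem_Icc, not_or]
    constructor
    · omega
    · omega

lemma pent_nat (j : ℕ) : pentagonal (j : ℤ) = j * (3 * j - 1) / 2 := by
  rw [pentagonal_def]
  rcases Nat.eq_zero_or_pos j with rfl | h
  · simp
  · have : ((j : ℤ) * (3 * j - 1) / 2) = ((j * (3 * j - 1) / 2 : ℕ) : ℤ) := by
      push_cast [Nat.cast_sub (show 1 ≤ 3 * j by omega)]
      rfl
    rw [this, Int.toNat_natCast]

lemma pent_neg_nat (j : ℕ) : pentagonal (-(j : ℤ)) = j * (3 * j + 1) / 2 := by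
  rw [pentagonal_neg]
  have : ((j : ℤ) * (3 * j + 1) / 2) = ((j * (3 * j + 1) / 2 : ℕ) : ℤ) := by
    push_cast
    rfl
  rw [this, Int.toNat_natCast]

lemma tm_eq (j : ℕ) : (tm j : ℤ) = (bW : ℤ) ^ (16460 - pentagonal (j : ℤ)) +
    (bW : ℤ) ^ (16460 - pentagonal (-(j : ℤ))) := by
  rw [pent_nat, pent_neg_nat]
  unfold tm
  push_cast
  rfl

lemma sps (n : ℕ) : (sp n : ℤ) - sn n = ∑ j ∈ Icc (-((2 * n : ℕ) : ℤ)) ((2 * n : ℕ) : ℤ),
    ((Int.negOnePow j : ℤˣ) : ℤ) * (bW : ℤ) ^ (16460 - pentagonal j) := by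
  induction n with
  | zero =>
    have h3 : pentagonal 0 = 0 := by decide
    rw [sp_zero, sn_zero, mul_zero, Nat.cast_zero, neg_zero, Icc_self, sum_singleton, h3, Int.negOnePow_zero]
    push_cast
    ring_nf
  | succ n ih =>
    have e : 2 * (n + 1) = (2 * n + 1) + 1 := by ring
    rw [e, Icc_step, Icc_step, ← ih, sp_succ, sn_succ]
    push_cast [tm_eq]
    have o1 : Int.negOnePow (2 * (n : ℤ) + 1) = -1 := Int.negOnePow_odd _ ⟨n, by ring⟩
    have o2 : Int.negOnePow (-(2 * (n : ℤ) + 1)) = -1 := Int.negOnePow_odd _ ⟨-n - 1, by ring⟩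
    have o3 : Int.negOnePow (2 * (n : ℤ) + 1 + 1) = 1 := Int.negOnePow_even _ ⟨n + 1, by ring⟩
    have o4 : Int.negOnePow (-(2 * (n : ℤ) + 1 + 1)) = 1 := Int.negOnePow_even _ ⟨-n - 1, by ring⟩
    rw [o1, o2, o3, o4]
    have e3 : (2 * (n : ℤ) + 2) = 2 * n + 1 + 1 := by ring
    rw [e3]
    push_cast
    ring

lemma bE_sum : (bE : ℤ) = ∑ j ∈ Icc (-((104 : ℕ) : ℤ)) ((104 : ℕ) : ℤ),
    ((Int.negOnePow j : ℤˣ) : ℤ) * (bW : ℤ) ^ (16460 - pentagonal j) := by
  have h := sps 52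
  rw [bE_eq, Nat.cast_sub sn_le, h]

theorem ac_dg (m : ℕ) (hm : m < 16460) : ac m = (dg (16460 - m) : ℤ) := by
  have hN := bN_lt
  have hE := bE_le
  have hE0 := bE_pos
  have hd := dg_bound
  have hN2 := bN_eq
  have hS := bE_sum
  unfold dg at hd ⊢
  generalize bN = N at *
  generalize bE = E at *
  have hN2' : N = (bW ^ 16460 * (bW ^ 16460 - bW ^ (16460 - 1))) / E := by
    rw [show (16460 - 1 : ℕ) = 16459 by norm_num]; exact hN2
  have hN' : N < bW ^ (16460 + 1) := by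
    rw [show (16460 + 1 : ℕ) = 16461 by norm_num]; exact hN
  exact ac_eq_digit bW 16460 104 N E (2 ^ 482) (by norm_num) hJ104 hS hE0 hE hN2' hN' hd
    (by
      rw [bW_eq]
      have h1 : (2 : ℕ) ^ 512 = 2 ^ 482 * 2 ^ 30 := by rw [← pow_add]
      have h2 : 1 ≤ (2 : ℕ) ^ 482 := Nat.one_le_two_pow
      rw [h1]
      generalize (2 : ℕ) ^ 482 = x at *
      omega) m hm

theorem ac_small (k : ℕ) (h1 : 72 ≤ k) (h2 : k ≤ 16451) : ac (k - 1) * ac (k + 1) ≤ ac k ^ 2 := by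
  rw [ac_dg _ (by omega), ac_dg _ (by omega), ac_dg _ (by omega)]
  have h := (block_props (16459 - k) (by omega) (by omega)).1
  have e1 : 16460 - (k + 1) = 16459 - k := by omega
  have e2 : 16460 - (k - 1) = 16459 - k + 2 := by omega
  have e3 : 16460 - k = 16459 - k + 1 := by omega
  rw [e1, e2, e3, pow_two, mul_comm]
  exact_mod_cast h

theorem ac_fail : ac 71 ^ 2 < ac 70 * ac 72 := by
  rw [ac_dg _ (by omega), ac_dg _ (by omega), ac_dg _ (by omega)]
  have h := fail_ok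
  have e1 : Nat.shiftRight bN 8390656 = bN / bW ^ 16388 := shr_gen _ _ _ (by norm_num)
  have e2 : Nat.shiftRight bN 8391168 = bN / bW ^ 16389 := shr_gen _ _ _ (by norm_num)
  have e3 : Nat.shiftRight bN 8391680 = bN / bW ^ 16390 := shr_gen _ _ _ (by norm_num)
  rw [e1, e2, e3] at h
  have h' : dg 16389 * dg 16389 < dg 16390 * dg 16388 := h
  have h4 : ((dg 16389 * dg 16389 : ℕ) : ℤ) < ((dg 16390 * dg 16388 : ℕ) : ℤ) := by
    exact_mod_cast h'
  push_cast at h4
  have f1 : 16460 - 71 = 16389 := by norm_num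
  have f2 : 16460 - 70 = 16390 := by norm_num
  have f3 : 16460 - 72 = 16388 := by norm_num
  rw [f1, f2, f3, pow_two]
  exact h4

end Pool.Agent.H20.QCat
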