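import Mathlib

/-! # Kernel computation of the first 16460 limiting coefficients -/

namespace Pool.Agent.H20.QCat

/-- the base -/
@[irreducible] def bW : ℕ := 2 ^ 512

lemma bW_eq : bW = 2 ^ 512 := by unfold bW; rfl

/-- pair of pentagonal powers -/
def tm (j : ℕ) : ℕ :=
  bW ^ (16460 - j * (3 * j - 1) / 2) + bW ^ (16460 - j * (3 * j + 1) / 2)

/-- positive part -/
def sp (n : ℕ) : ℕ := Nat.rec (bW ^ 16460) (fun i ih => ih + tm (2 * i + 2)) n

/-- negative part -/
def sn (n : ℕ) : ℕ := Nat.rec 0 (fun i ih => ih + tm (2 * i + 1)) n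

lemma sp_zero : sp 0 = bW ^ 16460 := rfl

lemma sp_succ (n : ℕ) : sp (n + 1) = sp n + tm (2 * n + 2) := rfl

lemma sn_zero : sn 0 = 0 := rfl

lemma sn_succ (n : ℕ) : sn (n + 1) = sn n + tm (2 * n + 1) := rfl

/-- the truncated Euler product at `1/W`, scaled -/
@[irreducible] def bE : ℕ := sp 52 - sn 52

lemma bE_eq : bE = sp 52 - sn 52 := by unfold bE; rfl

/-- the big quotient -/
@[irreducible] def bN : ℕ := (bW ^ 16460 * (bW ^ 16460 - bW ^ 16459)) / bE

lemma bN_eq : bN = (bW ^ 16460 * (bW ^ 16460 - bW ^ 16459)) / bE := by unfold bN; rfl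

/-- check of three consecutive digits -/
def chk3 (X : ℕ) : Bool :=
  Nat.ble (Nat.mul (Nat.mod X bW) (Nat.mod (Nat.shiftRight X 1024) bW))
    (Nat.mul (Nat.mod (Nat.shiftRight X 512) bW) (Nat.mod (Nat.shiftRight X 512) bW)) &&
  Nat.ble (Nat.mod X bW) (2 ^ 482)

/-- check a block -/
def chkN (n : ℕ) : ℕ → Bool :=
  Nat.rec (motive := fun _ => ℕ → Bool) (fun _ => true)
    (fun _ ih X => (chk3 X) && (ih (Nat.shiftRight X 512))) n

/-- bounds in a block -/
def chkB (n : ℕ) : ℕ → Bool :=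
  Nat.rec (motive := fun _ => ℕ → Bool) (fun _ => true)
    (fun _ ih X => (Nat.ble (Nat.mod X bW) (2 ^ 482)) && (ih (Nat.shiftRight X 512))) n

/-- check all the blocks -/
def blocks (b : ℕ) : Bool :=
  Nat.rec true (fun β ih =>
    chkN 126 (Nat.mod (Nat.shiftRight bN (512 * (8 + 126 * β))) (bW ^ 128)) && ih) b

theorem blocks_ok : blocks 130 = true := by decide +kernel

theorem lo_ok : chkB 8 bN = true := by decide +kernel

theorem hi_ok : chkB 73 (Nat.shiftRight bN 8390656) = true := by decide +kernel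

lemma lt_of_ble (a b : ℕ) (h : Nat.ble (a + 1) b = true) : a < b := Nat.le_of_ble_eq_true h

lemma le_of_ble (a b : ℕ) (h : Nat.ble a b = true) : a ≤ b := Nat.le_of_ble_eq_true h

theorem bE_pos : 0 < bE := by
  apply lt_of_ble
  decide +kernel

theorem bE_le : bE ≤ 3 * bW ^ 16460 := by
  apply le_of_ble
  decide +kernel

theorem bN_lt : bN < bW ^ 16461 := by
  apply lt_of_ble
  decide +kernel

theorem sn_le : sn 52 ≤ sp 52 := by
  apply le_of_ble
  decide +kernel

theorem fail_ok : (Nat.shiftRight bN 8391168 % bW) * (Nat.shiftRight bN 8391168 % bW) <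
    (Nat.shiftRight bN 8391680 % bW) * (Nat.shiftRight bN 8390656 % bW) := by
  apply lt_of_ble
  decide +kernel

end Pool.Agent.H20.QCat
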