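import Pool.Agent.H20.QCat.Poly2

/-! # Stability of the low coefficients of the q-Catalan numbers -/

namespace Pool.Agent.H20.QCat

open Finset

open PowerSeries in
/-- the limiting series `∏_{i ≥ 2} 1/(1 - q^i)`. -/
noncomputable def aS : PowerSeries ℤ :=
  (1 - PowerSeries.X) * PowerSeries.invOfUnit (PowerSeries.pentagonalSeries ℤ) 1

/-- the limiting coefficients -/
noncomputable def ac (k : ℕ) : ℤ := PowerSeries.coeff k aS

lemma pol_prod (n : ℕ) (hn : 1 ≤ n) :
    qCatalan n * ∏ i ∈ Icc 2 n, (1 - Polynomial.X ^ i) =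
      ∏ i ∈ Icc 2 n, (1 - Polynomial.X ^ (n + i)) := by
  have h1 := qCatalan_prod n hn
  have h2 : ∀ j : ℕ, (1 - Polynomial.X ^ j : Polynomial ℤ) = qnum j * (1 - Polynomial.X) := by
    intro j; rw [qnum, geom_sum_mul_neg]
  simp_rw [h2]
  rw [prod_mul_distrib, prod_mul_distrib, ← h1]
  ring

lemma ps_prod (n : ℕ) (hn : 1 ≤ n) :
    (qCatalan n : PowerSeries ℤ) * ∏ i ∈ Icc 2 n, (1 - PowerSeries.X ^ i) =
      ∏ i ∈ Icc 2 n, (1 - PowerSeries.X ^ (n + i)) := by
  have h := congrArg (Polynomial.coeToPowerSeries.ringHom (R := ℤ)) (pol_prod n hn)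
  rw [map_mul, map_prod, map_prod] at h
  simpa using h

/-- congruence to one modulo a power of `X` is multiplicative -/
lemma dvd_prod_sub_one (m : ℕ) (s : Finset ℕ) (f : ℕ → PowerSeries ℤ)
    (h : ∀ i ∈ s, PowerSeries.X ^ m ∣ f i - 1) : PowerSeries.X ^ m ∣ ∏ i ∈ s, f i - 1 := by
  classical
  induction s using Finset.induction_on with
  | empty => simp
  | insert a s ha ih =>
    rw [prod_insert ha]
    have h1 := h a (mem_insert_self _ _)
    have h2 := ih fun i hi => h i (mem_insert_of_mem hi)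
    have e : f a * ∏ i ∈ s, f i - 1 = f a * (∏ i ∈ s, f i - 1) + (f a - 1) := by ring
    rw [e]
    exact dvd_add (h2.mul_left _) h1

lemma dvd_pow_sub (m j : ℕ) (h : m ≤ j) :
    (PowerSeries.X : PowerSeries ℤ) ^ m ∣ (1 - PowerSeries.X ^ j) - 1 := by
  have e : ((1 : PowerSeries ℤ) - PowerSeries.X ^ j) - 1 = -(PowerSeries.X ^ j) := by ring
  rw [e, dvd_neg]
  exact pow_dvd_pow _ h

lemma coeff_eq_of_dvd {m d : ℕ} {A B : PowerSeries ℤ} (h : PowerSeries.X ^ m ∣ A - B)
    (hd : d < m) : PowerSeries.coeff d A = PowerSeries.coeff d B := by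
  rw [PowerSeries.X_pow_dvd_iff] at h
  have := h d hd
  rwa [map_sub, sub_eq_zero] at this

lemma penta_dvd (n : ℕ) : (PowerSeries.X : PowerSeries ℤ) ^ (n + 1) ∣
    ∏ i ∈ Icc 1 n, (1 - PowerSeries.X ^ i) - PowerSeries.pentagonalSeries ℤ := by
  rw [PowerSeries.X_pow_dvd_iff]
  intro d hd
  rw [map_sub, sub_eq_zero]
  obtain ⟨s, hs⟩ := Filter.eventually_atTop.1
    (PowerSeries.coeff_prod_one_sub_X_pow_eventually_eq ℤ d)
  have h1 := hs (s ∪ range n) subset_union_left
  rw [← h1]
  have h2 : ∏ i ∈ Icc 1 n, ((1 : PowerSeries ℤ) - PowerSeries.X ^ i) =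
      ∏ j ∈ range n, (1 - PowerSeries.X ^ (j + 1)) := by
    rw [← Finset.prod_image (s := range n) (g := fun i => i + 1)
      (f := fun i => (1 : PowerSeries ℤ) - PowerSeries.X ^ i)]
    · congr 1
      ext i
      simp only [mem_image, mem_range, mem_Icc]
      constructor
      · rintro ⟨h1, h2⟩; exact ⟨i - 1, by omega, by omega⟩
      · rintro ⟨a, ha, rfl⟩; omega
    · intro a _ b _ hab; simpa using hab
  have h3 : s ∪ range n = range n ∪ (s \ range n) := by
    ext i; simp only [mem_union, Finset.mem_sdiff, mem_range]; tauto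
  rw [h2, h3, prod_union Finset.disjoint_sdiff]
  apply coeff_eq_of_dvd (m := n + 1) _ hd
  have h4 : (PowerSeries.X : PowerSeries ℤ) ^ (n + 1) ∣
      ∏ j ∈ s \ range n, (1 - PowerSeries.X ^ (j + 1)) - 1 := by
    apply dvd_prod_sub_one
    intro j hj
    rw [Finset.mem_sdiff, mem_range] at hj
    exact dvd_pow_sub _ _ (by omega)
  have e : ∏ j ∈ range n, ((1 : PowerSeries ℤ) - PowerSeries.X ^ (j + 1)) -
      (∏ j ∈ range n, (1 - PowerSeries.X ^ (j + 1))) *
        ∏ j ∈ s \ range n, (1 - PowerSeries.X ^ (j + 1)) =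
      -((∏ j ∈ range n, (1 - PowerSeries.X ^ (j + 1))) *
        (∏ j ∈ s \ range n, (1 - PowerSeries.X ^ (j + 1)) - 1)) := by ring
  rw [e, dvd_neg]
  exact h4.mul_left _

lemma penta_zero : PowerSeries.constantCoeff (PowerSeries.pentagonalSeries ℤ) = 1 := by
  have h := PowerSeries.coeff_pentagonalSeries_pentagonal ℤ 0
  have e : pentagonal 0 = 0 := by decide
  rw [e] at h
  rw [← PowerSeries.coeff_zero_eq_constantCoeff_apply, h]
  simp

lemma penta_inv : PowerSeries.pentagonalSeries ℤ *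
    PowerSeries.invOfUnit (PowerSeries.pentagonalSeries ℤ) 1 = 1 :=
  PowerSeries.mul_invOfUnit _ _ (by rw [penta_zero]; rfl)

lemma aS_mul : aS * PowerSeries.pentagonalSeries ℤ = 1 - PowerSeries.X := by
  rw [aS, mul_assoc, mul_comm (PowerSeries.invOfUnit _ _), penta_inv, mul_one]

/-- stability -/
theorem coeff_stab (n k : ℕ) (hn : 1 ≤ n) (hk : k ≤ n) : (qCatalan n).coeff k = ac k := by
  have h1 := ps_prod n hn
  have hsplit : ∏ i ∈ Icc 1 n, ((1 : PowerSeries ℤ) - PowerSeries.X ^ i) =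
      (1 - PowerSeries.X) * ∏ i ∈ Icc 2 n, (1 - PowerSeries.X ^ i) := by
    have : Icc 1 n = insert 1 (Icc 2 n) := by
      ext i; simp only [mem_Icc, mem_insert]; omega
    rw [this, prod_insert (by simp), pow_one]
  have h2 : (PowerSeries.X : PowerSeries ℤ) ^ (n + 1) ∣
      ∏ i ∈ Icc 2 n, (1 - PowerSeries.X ^ (n + i)) - 1 := by
    apply dvd_prod_sub_one
    intro i hi
    rw [mem_Icc] at hi
    exact dvd_pow_sub _ _ (by omega)
  have h3 : (PowerSeries.X : PowerSeries ℤ) ^ (n + 1) ∣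
      (qCatalan n : PowerSeries ℤ) * PowerSeries.pentagonalSeries ℤ - (1 - PowerSeries.X) := by
    have h4 := (penta_dvd n).mul_left (qCatalan n : PowerSeries ℤ)
    have h5 := h2.mul_left (1 - PowerSeries.X : PowerSeries ℤ)
    have e : (qCatalan n : PowerSeries ℤ) * PowerSeries.pentagonalSeries ℤ - (1 - PowerSeries.X) =
        (1 - PowerSeries.X) * (∏ i ∈ Icc 2 n, (1 - PowerSeries.X ^ (n + i)) - 1) -
        (qCatalan n : PowerSeries ℤ) * (∏ i ∈ Icc 1 n, (1 - PowerSeries.X ^ i) -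
          PowerSeries.pentagonalSeries ℤ) := by
      rw [hsplit, ← h1]; ring
    rw [e]
    exact dvd_sub h5 h4
  have h4 : (PowerSeries.X : PowerSeries ℤ) ^ (n + 1) ∣ (qCatalan n : PowerSeries ℤ) - aS := by
    have h5 := h3.mul_right (PowerSeries.invOfUnit (PowerSeries.pentagonalSeries ℤ) 1)
    have e : ((qCatalan n : PowerSeries ℤ) * PowerSeries.pentagonalSeries ℤ -
        (1 - PowerSeries.X)) * PowerSeries.invOfUnit (PowerSeries.pentagonalSeries ℤ) 1 =
        (qCatalan n : PowerSeries ℤ) * (PowerSeries.pentagonalSeries ℤ *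
          PowerSeries.invOfUnit (PowerSeries.pentagonalSeries ℤ) 1) - aS := by
      rw [aS]; ring
    rw [e, penta_inv, mul_one] at h5
    exact h5
  have := coeff_eq_of_dvd h4 (show k < n + 1 by omega)
  rw [Polynomial.coeff_coe] at this
  exact this

/-- the limiting coefficients are nonnegative -/
theorem ac_nonneg (k : ℕ) : 0 ≤ ac k := by
  set n := k + 1 with hn
  rw [← coeff_stab n k (by omega) (by omega)]
  set g : ℕ → PowerSeries ℤ := fun i => PowerSeries.mk fun j => if i ∣ j then 1 else 0 with hg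
  have hg1 : ∀ i, 1 ≤ i → g i * (1 - PowerSeries.X ^ i) = 1 := by
    intro i hi
    ext d
    rw [mul_sub, mul_one, map_sub, PowerSeries.coeff_mul_X_pow', PowerSeries.coeff_one]
    simp only [hg, PowerSeries.coeff_mk]
    rcases Nat.eq_zero_or_pos d with rfl | hd
    · rw [if_pos (dvd_zero _), if_neg (by omega), if_pos rfl, sub_zero]
    · rw [if_neg (show ¬ d = 0 by omega)]
      by_cases hid : i ≤ d
      · rw [if_pos hid]
        have : i ∣ d ↔ i ∣ d - i := by
          constructor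
          · intro h; exact Nat.dvd_sub h (dvd_refl _)
          · intro h
            have := Nat.dvd_add h (dvd_refl i)
            rwa [Nat.sub_add_cancel hid] at this
        by_cases h : i ∣ d
        · rw [if_pos h, if_pos (this.1 h), sub_self]
        · rw [if_neg h, if_neg (fun h' => h (this.2 h')), sub_self]
      · rw [if_neg hid, if_neg (fun h => hid (Nat.le_of_dvd hd h)), sub_zero]
  have hnn : ∀ s : Finset ℕ, ∀ d, 0 ≤ PowerSeries.coeff d (∏ i ∈ s, g i) := by
    classical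
    intro s
    induction s using Finset.induction_on with
    | empty =>
      intro d
      rw [prod_empty, PowerSeries.coeff_one]
      split_ifs <;> norm_num
    | insert a s ha ih =>
      intro d
      rw [prod_insert ha, PowerSeries.coeff_mul]
      apply sum_nonneg
      intro p _
      apply mul_nonneg _ (ih _)
      simp only [hg, PowerSeries.coeff_mk]
      split_ifs <;> norm_num
  have h1 := ps_prod n (by omega)
  have h2 : (∏ i ∈ Icc 2 n, ((1 : PowerSeries ℤ) - PowerSeries.X ^ i)) * ∏ i ∈ Icc 2 n, g i = 1 := by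
    rw [← prod_mul_distrib]
    apply prod_eq_one
    intro i hi
    rw [mem_Icc] at hi
    rw [mul_comm]
    exact hg1 i (by omega)
  have h3 : (qCatalan n : PowerSeries ℤ) = (∏ i ∈ Icc 2 n, (1 - PowerSeries.X ^ (n + i))) *
      ∏ i ∈ Icc 2 n, g i := by
    rw [← h1, mul_assoc, h2, mul_one]
  have h4 : (PowerSeries.X : PowerSeries ℤ) ^ (n + 1) ∣
      ∏ i ∈ Icc 2 n, (1 - PowerSeries.X ^ (n + i)) - 1 := by
    apply dvd_prod_sub_one
    intro i hi
    rw [mem_Icc] at hi
    exact dvd_pow_sub _ _ (by omega)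
  have h5 : (PowerSeries.X : PowerSeries ℤ) ^ (n + 1) ∣
      (qCatalan n : PowerSeries ℤ) - ∏ i ∈ Icc 2 n, g i := by
    have h6 := h4.mul_right (∏ i ∈ Icc 2 n, g i)
    have e : (∏ i ∈ Icc 2 n, ((1 : PowerSeries ℤ) - PowerSeries.X ^ (n + i)) - 1) *
        ∏ i ∈ Icc 2 n, g i = (qCatalan n : PowerSeries ℤ) - ∏ i ∈ Icc 2 n, g i := by
      rw [h3]; ring
    rwa [e] at h6
  have h6 := coeff_eq_of_dvd h5 (show k < n + 1 by omega)
  rw [Polynomial.coeff_coe] at h6
  rw [h6]
  exact hnn _ _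

/-- the recurrence -/
theorem ac_rec (d : ℕ) : ∑ p ∈ antidiagonal d, ac p.1 *
    PowerSeries.coeff p.2 (PowerSeries.pentagonalSeries ℤ) =
      (if d = 0 then 1 else 0) - (if d = 1 then 1 else 0) := by
  have h := congrArg (PowerSeries.coeff d) aS_mul
  rw [PowerSeries.coeff_mul, map_sub, PowerSeries.coeff_one, PowerSeries.coeff_X] at h
  exact h

end Pool.Agent.H20.QCat
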