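import Pool.Agent.H20.QCat.Expl
import Pool.Agent.H20.QCat.Stab

/-! # Log-concavity of the limiting coefficients for `k ≥ 16450` -/

namespace Pool.Agent.H20.QCat

open Polynomial Finset Filter Topology

/-- from one weighted integral to the log-concavity inequality, with nonnegative neighbours -/
lemma logconcave_of_integral' (P : ℤ[X]) (k : ℕ) (hk : 1 ≤ k) (r : ℝ) (hr : 0 < r)
    (hn1 : 0 ≤ P.coeff (k - 1)) (hn2 : 0 ≤ P.coeff (k + 1))
    (h : 0 ≤ ∫ θ in (0 : ℝ)..Real.pi,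
      (aeval ((r : ℂ) * Complex.exp (θ * Complex.I)) P * Complex.exp (-(k * θ * Complex.I))).re *
        (1 - Real.cos θ)) :
    P.coeff (k - 1) * P.coeff (k + 1) ≤ P.coeff k ^ 2 := by
  set D := P.natDegree with hD
  set c : ℕ → ℝ := fun j => (P.coeff j : ℝ) * r ^ j with hc
  have hc0 : ∀ j, D < j → c j = 0 := by
    intro j hj
    simp [hc, coeff_eq_zero_of_natDegree_lt hj]
  have h1 : 0 ≤ Real.pi * c k + (-1) * (Real.pi / 2) * (c (k - 1) + c (k + 1)) := by
    rw [← integral_weight c D k hk hc0 (-1)]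
    have e : ∀ θ : ℝ, 1 - Real.cos θ = 1 + (-1) * Real.cos θ := by intro θ; ring
    simp_rw [re_char P D le_rfl k r, e] at h
    exact h
  have hpi := Real.pi_pos
  have ha : 0 ≤ c (k - 1) := by
    simp only [hc]
    have : (0 : ℝ) ≤ P.coeff (k - 1) := by exact_mod_cast hn1
    positivity
  have hb : 0 ≤ c (k + 1) := by
    simp only [hc]
    have : (0 : ℝ) ≤ P.coeff (k + 1) := by exact_mod_cast hn2
    positivity
  have h2 : c (k - 1) + c (k + 1) ≤ 2 * c k := by
    by_contra hcon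
    push Not at hcon
    nlinarith
  have h3 : c (k - 1) * c (k + 1) ≤ c k ^ 2 := by
    have h5 : (c (k - 1) + c (k + 1)) ^ 2 ≤ (2 * c k) ^ 2 :=
      pow_le_pow_left₀ (by linarith) h2 2
    nlinarith [sq_nonneg (c (k - 1) - c (k + 1))]
  have h4 : c (k - 1) * c (k + 1) = ((P.coeff (k - 1) : ℝ) * P.coeff (k + 1)) * r ^ (2 * k) := by
    simp only [hc]
    have : r ^ (2 * k) = r ^ (k - 1) * r ^ (k + 1) := by rw [← pow_add]; congr 1; omega
    rw [this]; ring
  have h5 : c k ^ 2 = ((P.coeff k : ℝ) ^ 2) * r ^ (2 * k) := by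
    simp only [hc]; ring
  rw [h4, h5] at h3
  have h6 := le_of_mul_le_mul_right h3 (pow_pos hr _)
  exact_mod_cast h6

/-- the tilt is not zero below the centre -/
lemma tilt_pos (n k : ℕ) (hkn : 2 * k < n * (n - 1)) (s : ℝ) (hs : 0 ≤ s)
    (h : ∑ j ∈ range (n * (n - 1) + 1),
      ((j : ℝ) - k) * (((qCatalan n).coeff j : ℝ) * Real.exp (-s) ^ j) = 0) : 0 < s := by
  rcases hs.lt_or_eq with h1 | h1
  · exact h1
  · exfalso
    rw [← h1] at h
    simp only [neg_zero, Real.exp_zero, one_pow, mul_one] at h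
    have h2 := qCatalan_mean n
    have h3 := aeval_qCatalan_pos (r := 1) one_pos n
    rw [aeval_sum] at h3
    simp only [one_pow, mul_one] at h3
    have h4 : ∑ j ∈ range (n * (n - 1) + 1), ((j : ℝ) - k) * ((qCatalan n).coeff j : ℝ) =
        ∑ j ∈ range (n * (n - 1) + 1), (j : ℝ) * ((qCatalan n).coeff j : ℝ) -
        k * ∑ j ∈ range (n * (n - 1) + 1), ((qCatalan n).coeff j : ℝ) := by
      rw [mul_sum, ← sum_sub_distrib]
      exact sum_congr rfl fun j _ => by ring
    rw [h4] at h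
    have h5 : (2 * k : ℝ) < ((n * (n - 1) : ℕ) : ℝ) := by exact_mod_cast hkn
    nlinarith [mul_lt_mul_of_pos_right h5 h3]

theorem ac_large (k : ℕ) (hk : 16450 ≤ k) : ac (k - 1) * ac (k + 1) ≤ ac k ^ 2 := by
  set s₁ : ℝ := 1 / (2 * ((k : ℝ) + 1)) with hs₁
  have hk0 : (16450 : ℝ) ≤ k := by exact_mod_cast hk
  have hs₁0 : 0 < s₁ := by positivity
  set ρ := Real.exp (-s₁) with hρ
  have hρ0 : 0 < ρ := Real.exp_pos _
  have hρ1 : ρ < 1 := by rw [hρ, Real.exp_lt_one_iff]; linarith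
  have h1ρ : 0 < 1 - ρ := by linarith
  have hlim : Tendsto (fun n : ℕ => 4 * ρ ^ n / (1 - ρ) ^ 2) atTop (𝓝 0) := by
    have := ((tendsto_pow_atTop_nhds_zero_of_lt_one hρ0.le hρ1).const_mul 4).div_const
      ((1 - ρ) ^ 2)
    simpa using this
  have hev := hlim.eventually (gt_mem_nhds (show (0 : ℝ) < 0.0099 by norm_num))
  obtain ⟨n, hn1, hn2⟩ := (hev.and (eventually_ge_atTop (4 * (k + 1)))).exists
  have hnk : k + 1 ≤ n := by omega
  have hn0 : 1 ≤ n := by omega
  have h2k : 2 * k < n * (n - 1) := by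
    have h3 : k ≤ n - 1 := by omega
    have h4 : 3 ≤ n := by omega
    calc 2 * k < 3 * k := by omega
      _ ≤ n * (n - 1) := Nat.mul_le_mul h4 h3
  obtain ⟨s, hs, hsum⟩ := exists_tilt n k (by omega) h2k.le
  have hs0 := tilt_pos n k h2k s hs hsum
  have hstat : deriv (G n k s) 0 = 0 := by
    rw [(G_deriv n k s).deriv, hsum]
    simp
  have hup := tilt_upper n k hn0 s hs0 hsum
  have hlo := tilt_lower n k (by omega) s hs0 hsum
  have hs100 : s ≤ 1 / 100 := by
    by_contra hcon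
    push Not at hcon
    have h3 : (1 / 100 : ℝ) ^ 2 ≤ s ^ 2 := pow_le_pow_left₀ (by norm_num) hcon.le 2
    have h4 : Real.pi ^ 2 / 6 / s ^ 2 ≤ Real.pi ^ 2 / 6 / (1 / 100) ^ 2 :=
      div_le_div_of_nonneg_left (by positivity) (by norm_num) h3
    have h5 := kappa_hi
    have h6 : Real.pi ^ 2 / 6 / (1 / 100) ^ 2 = Real.pi ^ 2 / 6 * 10000 := by ring
    linarith
  have hss : s₁ ≤ s := by
    refine le_trans ?_ hlo
    have h3 : (4 : ℝ) * (k + 1) ≤ n := by exact_mod_cast hn2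
    have h4 : 2 / ((n : ℝ) + 2) ≤ 1 / (2 * ((k : ℝ) + 1)) := by
      rw [div_le_div_iff₀ (by positivity) (by positivity)]
      linarith
    have h5 : 1 / ((k : ℝ) + 1) = 1 / (2 * ((k : ℝ) + 1)) + 1 / (2 * ((k : ℝ) + 1)) := by
      field_simp
      norm_num
    rw [hs₁]
    linarith
  have hr : Real.exp (-s) ≤ ρ := Real.exp_le_exp.2 (by linarith)
  have hr0 := Real.exp_pos (-s)
  have hC : Real.exp (4 * Real.exp (-s) ^ n / (1 - Real.exp (-s)) ^ 2) ≤ 1.01 := by
    have h3 : 4 * Real.exp (-s) ^ n / (1 - Real.exp (-s)) ^ 2 ≤ 0.0099 := by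
      refine le_trans ?_ hn1.le
      have h4 : Real.exp (-s) ^ n ≤ ρ ^ n := pow_le_pow_left₀ hr0.le hr n
      have h5 : (1 - ρ) ^ 2 ≤ (1 - Real.exp (-s)) ^ 2 :=
        pow_le_pow_left₀ h1ρ.le (by linarith) 2
      apply div_le_div₀ (by positivity) (by linarith) (by positivity) h5
    set x := 4 * Real.exp (-s) ^ n / (1 - Real.exp (-s)) ^ 2 with hx
    have h4 := Real.add_one_le_exp (-x)
    have h5 : Real.exp x * Real.exp (-x) = 1 := by rw [← Real.exp_add]; simp
    have h6 := Real.exp_pos x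
    nlinarith
  have hint := explicit_int n k hn0 s hs0 hs100 hstat hC
  have e1 := coeff_stab n (k - 1) hn0 (by omega)
  have e2 := coeff_stab n k hn0 (by omega)
  have e3 := coeff_stab n (k + 1) hn0 (by omega)
  have := logconcave_of_integral' (qCatalan n) k (by omega) (Real.exp (-s)) (Real.exp_pos _)
    (by rw [e1]; exact ac_nonneg _) (by rw [e3]; exact ac_nonneg _) hint
  rwa [e1, e2, e3] at this

end Pool.Agent.H20.QCat
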