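import Pool.Agent.H20.QCat.Tail

/-! # The tilted characteristic function near the positive axis -/

namespace Pool.Agent.H20.QCat

open Polynomial Finset

/-- the tilted (not normalised) characteristic function -/
noncomputable def G (n k : ℕ) (s θ : ℝ) : ℂ :=
  aeval (((Real.exp (-s) : ℝ) : ℂ) * Complex.exp (θ * Complex.I)) (qCatalan n) *
    Complex.exp (-(k * θ * Complex.I))

lemma exp_neg_u (s θ : ℝ) : ((Real.exp (-s) : ℝ) : ℂ) * Complex.exp (θ * Complex.I) =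
    Complex.exp (-((s : ℂ) - θ * Complex.I)) := by
  rw [Complex.ofReal_exp, ← Complex.exp_add]
  congr 1
  push_cast
  ring

/-- quadratic Taylor estimate from a bound on the third derivative -/
lemma taylor3 (f f1 f2 f3 : ℝ → ℂ) (δ S : ℝ)
    (h0 : ∀ θ ∈ Set.Icc 0 δ, HasDerivAt f (f1 θ) θ)
    (h1 : ∀ θ ∈ Set.Icc 0 δ, HasDerivAt f1 (f2 θ) θ)
    (h2 : ∀ θ ∈ Set.Icc 0 δ, HasDerivAt f2 (f3 θ) θ)
    (h3 : ∀ θ ∈ Set.Icc 0 δ, ‖f3 θ‖ ≤ S) (hf : f 0 = 0) (hf1 : f1 0 = 0)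
    (θ : ℝ) (hθ : θ ∈ Set.Icc 0 δ) :
    ‖f θ - f2 0 * (θ ^ 2 / 2)‖ ≤ S / 6 * θ ^ 3 := by
  have key : ∀ (g g' : ℝ → ℂ) (B B' : ℝ → ℝ), g 0 = 0 → B 0 = 0 →
      (∀ y ∈ Set.Icc 0 δ, HasDerivAt g (g' y) y) → (∀ y, HasDerivAt B (B' y) y) →
      (∀ y ∈ Set.Icc 0 δ, ‖g' y‖ ≤ B' y) → ∀ x ∈ Set.Icc 0 δ, ‖g x‖ ≤ B x := by
    intro g g' B B' hg0 hB0 hg hB hb x hx
    refine image_norm_le_of_norm_deriv_right_le_deriv_boundary (f := g) (f' := g') (a := 0)
      (b := δ) (fun y hy => (hg y hy).continuousAt.continuousWithinAt)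
      (fun y hy => (hg y ⟨hy.1, hy.2.le⟩).hasDerivWithinAt) ?_ hB
      (fun y hy => hb y ⟨hy.1, hy.2.le⟩) hx
    rw [hg0, hB0]; simp
  have s1 : ∀ x ∈ Set.Icc 0 δ, ‖f2 x - f2 0‖ ≤ S * x := by
    refine key (fun y => f2 y - f2 0) f3 (fun y => S * y) (fun _ => S * 1) (by simp) (by simp)
      (fun y hy => (h2 y hy).sub_const _) (fun y => (hasDerivAt_id y).const_mul S) ?_
    intro y hy
    rw [mul_one]
    exact h3 y hy
  have s2 : ∀ x ∈ Set.Icc 0 δ, ‖f1 x - f2 0 * x‖ ≤ S / 2 * x ^ 2 := by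
    refine key (fun y => f1 y - f2 0 * y) (fun y => f2 y - f2 0) (fun y => S / 2 * y ^ 2)
      (fun y => S / 2 * (((2 : ℕ) : ℝ) * y ^ (2 - 1))) (by simp [hf1]) (by simp) ?_
      (fun y => (hasDerivAt_pow 2 y).const_mul _) ?_
    · intro y hy
      have h := (h1 y hy).sub ((Complex.ofRealCLM.hasDerivAt (x := y)).const_mul (f2 0))
      have e : f2 y - f2 0 = f2 y - f2 0 * Complex.ofRealCLM 1 := by simp
      rw [e]
      exact h
    · intro y hy
      refine (s1 y hy).trans (le_of_eq ?_)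
      push_cast
      ring
  have s3 : ∀ x ∈ Set.Icc 0 δ, ‖f x - f2 0 * ((x : ℂ) ^ 2 / 2)‖ ≤ S / 6 * x ^ 3 := by
    refine key (fun y => f y - f2 0 * ((y : ℂ) ^ 2 / 2)) (fun y => f1 y - f2 0 * y)
      (fun y => S / 6 * y ^ 3) (fun y => S / 6 * (((3 : ℕ) : ℝ) * y ^ (3 - 1)))
      (by simp [hf]) (by simp) ?_ (fun y => (hasDerivAt_pow 3 y).const_mul _) ?_
    · intro y hy
      have h := (h0 y hy).sub
        ((((Complex.ofRealCLM.hasDerivAt (x := y)).pow 2).div_const 2).const_mul (f2 0))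
      have e : f1 y - f2 0 * y = f1 y - f2 0 * (((2 : ℕ) : ℂ) * Complex.ofRealCLM y ^ (2 - 1) *
        Complex.ofRealCLM 1 / 2) := by
        simp
      rw [e]
      exact h
    · intro y hy
      refine (s2 y hy).trans (le_of_eq ?_)
      push_cast
      ring
  exact s3 θ hθ

/-- Local description of the characteristic function, abstract version, sharp constants. -/
lemma near_core_sharp (n k : ℕ) (hn : 1 ≤ n) (s δ : ℝ) (hδ : 0 < δ) (L0 L1 L2 L3 : ℂ → ℂ)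
    (K : ℕ → ℝ) (hK : ∀ j, 1 ≤ j → 0 < K j)
    (hd : ∀ j : ℕ, 1 ≤ j → j ≤ 2 * n → ∀ θ ∈ Set.Icc 0 δ,
      HasDerivAt L0 (L1 (j * (s - θ * Complex.I))) (j * (s - θ * Complex.I)) ∧
      HasDerivAt L1 (L2 (j * (s - θ * Complex.I))) (j * (s - θ * Complex.I)) ∧
      HasDerivAt L2 (L3 (j * (s - θ * Complex.I))) (j * (s - θ * Complex.I)))
    (hval : ∀ j : ℕ, 1 ≤ j → j ≤ 2 * n → ∀ θ ∈ Set.Icc 0 δ,
      aeval (Complex.exp (-((s : ℂ) - θ * Complex.I))) (qnum j) =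
        K j * Complex.exp (L0 (j * (s - θ * Complex.I)) - L0 (s - θ * Complex.I)))
    (hreal : ∀ j : ℕ, 1 ≤ j → j ≤ 2 * n → (L2 (j * s)).im = 0)
    (V S : ℝ)
    (hV : ∑ i ∈ Icc 2 n, ((((n + i : ℕ) : ℝ)) ^ 2 * ‖L2 ((n + i : ℕ) * s)‖ +
      (i : ℝ) ^ 2 * ‖L2 (i * s)‖) ≤ V)
    (hS : ∀ θ ∈ Set.Icc 0 δ, ∑ i ∈ Icc 2 n,
      ((((n + i : ℕ) : ℝ)) ^ 3 * ‖L3 ((n + i : ℕ) * (s - θ * Complex.I))‖ +
      (i : ℝ) ^ 3 * ‖L3 (i * (s - θ * Complex.I))‖) ≤ S)
    (hstat : deriv (G n k s) 0 = 0) :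
    ∀ θ ∈ Set.Icc 0 δ, ∃ a b : ℝ, |b| ≤ S / 6 * θ ^ 3 ∧
      -(V / 2 * θ ^ 2) - S / 6 * θ ^ 3 ≤ a ∧
      (G n k s θ).re = aeval (Real.exp (-s)) (qCatalan n) * (Real.exp a * Real.cos b) := by
  set u : ℝ → ℂ := fun θ => (s : ℂ) - θ * Complex.I with hu
  have hu' : ∀ θ, HasDerivAt u (-Complex.I) θ := by
    intro θ
    have h := ((Complex.ofRealCLM.hasDerivAt (x := θ)).mul_const Complex.I).const_sub (s : ℂ)
    simpa using h
  have hju : ∀ (j : ℕ) θ, HasDerivAt (fun θ => (j : ℂ) * u θ) (-(j * Complex.I)) θ := by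
    intro j θ
    have := (hu' θ).const_mul (j : ℂ)
    have e : -((j : ℂ) * Complex.I) = j * -Complex.I := by ring
    rw [e]
    exact this
  set f : ℝ → ℂ := fun θ => ∑ i ∈ Icc 2 n, (L0 ((n + i : ℕ) * u θ) - L0 (i * u θ)) -
    ∑ i ∈ Icc 2 n, (L0 ((n + i : ℕ) * u 0) - L0 (i * u 0)) - k * Complex.I * θ with hf
  set f1 : ℝ → ℂ := fun θ => ∑ i ∈ Icc 2 n, (L1 ((n + i : ℕ) * u θ) * (-((n + i : ℕ) * Complex.I)) -
    L1 (i * u θ) * (-(i * Complex.I))) - k * Complex.I with hf1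
  set f2 : ℝ → ℂ := fun θ => ∑ i ∈ Icc 2 n,
    (L2 ((n + i : ℕ) * u θ) * (-((n + i : ℕ) * Complex.I)) * (-((n + i : ℕ) * Complex.I)) -
    L2 (i * u θ) * (-(i * Complex.I)) * (-(i * Complex.I))) with hf2
  set f3 : ℝ → ℂ := fun θ => ∑ i ∈ Icc 2 n,
    (L3 ((n + i : ℕ) * u θ) * (-((n + i : ℕ) * Complex.I)) * (-((n + i : ℕ) * Complex.I)) *
      (-((n + i : ℕ) * Complex.I)) -
    L3 (i * u θ) * (-(i * Complex.I)) * (-(i * Complex.I)) * (-(i * Complex.I))) with hf3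
  have hd0 : ∀ θ ∈ Set.Icc 0 δ, HasDerivAt f (f1 θ) θ := by
    intro θ hθ
    have h1 : HasDerivAt (fun θ : ℝ => (k : ℂ) * Complex.I * θ) (k * Complex.I) θ := by
      have := (Complex.ofRealCLM.hasDerivAt (x := θ)).const_mul ((k : ℂ) * Complex.I)
      simpa using this
    refine HasDerivAt.sub (HasDerivAt.sub_const _ (HasDerivAt.fun_sum fun i hi => ?_)) h1
    rw [mem_Icc] at hi
    refine HasDerivAt.sub ?_ ?_
    · exact ((hd (n + i) (by omega) (by omega) θ hθ).1).comp (h := fun θ => ((n + i : ℕ) : ℂ) * u θ)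
        θ (hju (n + i) θ)
    · exact ((hd i (by omega) (by omega) θ hθ).1).comp (h := fun θ => ((i : ℕ) : ℂ) * u θ)
        θ (hju i θ)
  have hd1 : ∀ θ ∈ Set.Icc 0 δ, HasDerivAt f1 (f2 θ) θ := by
    intro θ hθ
    refine HasDerivAt.sub_const _ (HasDerivAt.fun_sum fun i hi => ?_)
    rw [mem_Icc] at hi
    refine HasDerivAt.sub ?_ ?_
    · exact (((hd (n + i) (by omega) (by omega) θ hθ).2.1).comp
        (h := fun θ => ((n + i : ℕ) : ℂ) * u θ) θ (hju (n + i) θ)).mul_const _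
    · exact (((hd i (by omega) (by omega) θ hθ).2.1).comp
        (h := fun θ => ((i : ℕ) : ℂ) * u θ) θ (hju i θ)).mul_const _
  have hd2 : ∀ θ ∈ Set.Icc 0 δ, HasDerivAt f2 (f3 θ) θ := by
    intro θ hθ
    refine HasDerivAt.fun_sum fun i hi => ?_
    rw [mem_Icc] at hi
    refine HasDerivAt.sub ?_ ?_
    · exact ((((hd (n + i) (by omega) (by omega) θ hθ).2.2).comp
        (h := fun θ => ((n + i : ℕ) : ℂ) * u θ) θ (hju (n + i) θ)).mul_const _).mul_const _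
    · exact ((((hd i (by omega) (by omega) θ hθ).2.2).comp
        (h := fun θ => ((i : ℕ) : ℂ) * u θ) θ (hju i θ)).mul_const _).mul_const _
  have hb3 : ∀ θ ∈ Set.Icc 0 δ, ‖f3 θ‖ ≤ S := by
    intro θ hθ
    refine (norm_sum_le _ _).trans (le_trans (sum_le_sum fun i hi => ?_) (hS θ hθ))
    refine (norm_sub_le _ _).trans (add_le_add ?_ ?_)
    · simp only [norm_mul, norm_neg, Complex.norm_I, mul_one, Complex.norm_natCast]
      apply le_of_eq
      ring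
    · simp only [norm_mul, norm_neg, Complex.norm_I, mul_one, Complex.norm_natCast]
      apply le_of_eq
      ring
  have hf0 : f 0 = 0 := by simp [hf]
  have h0mem : (0 : ℝ) ∈ Set.Icc 0 δ := ⟨le_rfl, hδ.le⟩
  -- value of G
  have hP0 := aeval_qCatalan_pos (Real.exp_pos (-s)) n
  set r := Real.exp (-s) with hr
  have hG0 : G n k s 0 = ((aeval r (qCatalan n) : ℝ) : ℂ) := by
    simp only [G, Complex.ofReal_zero, zero_mul, Complex.exp_zero, mul_one, mul_zero, neg_zero]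
    exact aeval_algebraMap_apply ℂ r (qCatalan n)
  have hprod : ∀ θ ∈ Set.Icc 0 δ, aeval (Complex.exp (-(u θ))) (qCatalan n) *
      ∏ i ∈ Icc 2 n, ((K i : ℂ) * Complex.exp (L0 (i * u θ) - L0 (u θ))) =
      ∏ i ∈ Icc 2 n, ((K (n + i) : ℂ) * Complex.exp (L0 ((n + i : ℕ) * u θ) - L0 (u θ))) := by
    intro θ hθ
    have h1 := congrArg (aeval (Complex.exp (-(u θ)))) (qCatalan_prod n hn)
    rw [map_mul, map_prod, map_prod] at h1
    rw [prod_congr rfl fun i hi => (hval i (by rw [mem_Icc] at hi; omega)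
      (by rw [mem_Icc] at hi; omega) θ hθ)] at h1
    rw [prod_congr rfl fun i hi => (hval (n + i) (by rw [mem_Icc] at hi; omega)
      (by rw [mem_Icc] at hi; omega) θ hθ)] at h1
    exact h1
  have hquot : ∀ θ ∈ Set.Icc 0 δ, aeval (Complex.exp (-(u θ))) (qCatalan n) =
      (∏ i ∈ Icc 2 n, ((K (n + i) : ℂ) / K i)) *
        Complex.exp (∑ i ∈ Icc 2 n, (L0 ((n + i : ℕ) * u θ) - L0 (i * u θ))) := by
    intro θ hθ
    have h1 := hprod θ hθ
    have h2 : (∏ i ∈ Icc 2 n, ((K i : ℂ) * Complex.exp (L0 (i * u θ) - L0 (u θ)))) ≠ 0 := by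
      refine prod_ne_zero_iff.2 fun i hi => mul_ne_zero ?_ (Complex.exp_ne_zero _)
      exact_mod_cast (hK i (by rw [mem_Icc] at hi; omega)).ne'
    apply mul_right_cancel₀ h2
    rw [h1, Complex.exp_sum, ← prod_mul_distrib, ← prod_mul_distrib]
    refine prod_congr rfl fun i hi => ?_
    have h3 : (K i : ℂ) ≠ 0 := by exact_mod_cast (hK i (by rw [mem_Icc] at hi; omega)).ne'
    have h4 : Complex.exp (L0 ((n + i : ℕ) * u θ) - L0 (u θ)) =
        Complex.exp (L0 ((n + i : ℕ) * u θ) - L0 (i * u θ)) *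
          Complex.exp (L0 (i * u θ) - L0 (u θ)) := by
      rw [← Complex.exp_add]; congr 1; ring
    rw [h4]
    field_simp
  have hGf : ∀ θ ∈ Set.Icc 0 δ, G n k s θ = ((aeval r (qCatalan n) : ℝ) : ℂ) *
      Complex.exp (f θ) := by
    intro θ hθ
    have h1 := hquot θ hθ
    have h2 := hquot 0 h0mem
    rw [← hG0]
    simp only [G, ← hr, Complex.ofReal_zero, zero_mul, mul_zero, neg_zero, Complex.exp_zero,
      mul_one]
    have e1 : (r : ℂ) * Complex.exp (θ * Complex.I) = Complex.exp (-(u θ)) := exp_neg_u s θ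
    have e2 : (r : ℂ) = Complex.exp (-(u 0)) := by
      rw [hr, Complex.ofReal_exp]
      simp [hu]
    have h3 : Complex.exp (∑ i ∈ Icc 2 n, (L0 ((n + i : ℕ) * u θ) - L0 (i * u θ))) *
        Complex.exp (-(k * θ * Complex.I)) =
        Complex.exp (∑ i ∈ Icc 2 n, (L0 ((n + i : ℕ) * u 0) - L0 (i * u 0))) *
          Complex.exp (f θ) := by
      rw [← Complex.exp_add, ← Complex.exp_add]
      congr 1
      simp only [hf]
      ring
    rw [e1, h1]
    conv_rhs => rw [e2]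
    rw [h2]
    linear_combination (∏ i ∈ Icc 2 n, ((K (n + i) : ℂ) / K i)) * h3
  -- stationarity
  have hGd : HasDerivAt (G n k s) 0 0 := by
    have hdiff : DifferentiableAt ℝ (G n k s) 0 := by
      unfold G
      have h1 : (fun θ : ℝ => aeval (((Real.exp (-s) : ℝ) : ℂ) * Complex.exp (θ * Complex.I))
          (qCatalan n)) = fun θ : ℝ => ((qCatalan n).map (Int.castRingHom ℂ)).eval
            (((Real.exp (-s) : ℝ) : ℂ) * Complex.exp (θ * Complex.I)) := by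
        ext θ
        rw [aeval_def, eval_map]
        rfl
      have h2 : DifferentiableAt ℝ (fun θ : ℝ => ((Real.exp (-s) : ℝ) : ℂ) *
          Complex.exp (θ * Complex.I)) 0 := by
        have : DifferentiableAt ℝ (fun θ : ℝ => (θ : ℂ)) 0 := Complex.ofRealCLM.differentiableAt
        fun_prop
      have h3 : DifferentiableAt ℝ (fun θ : ℝ => Complex.exp (-(k * θ * Complex.I))) 0 := by
        have : DifferentiableAt ℝ (fun θ : ℝ => (θ : ℂ)) 0 := Complex.ofRealCLM.differentiableAt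
        fun_prop
      refine DifferentiableAt.mul ?_ h3
      rw [h1]
      exact (((qCatalan n).map (Int.castRingHom ℂ)).differentiable.differentiableAt.restrictScalars
        ℝ).comp (0 : ℝ) h2
    have := hdiff.hasDerivAt
    rwa [hstat] at this
  have hf10 : f1 0 = 0 := by
    have h1 : HasDerivWithinAt (G n k s) 0 (Set.Icc 0 δ) 0 := hGd.hasDerivWithinAt
    have h2 : HasDerivWithinAt (fun θ => ((aeval r (qCatalan n) : ℝ) : ℂ) * Complex.exp (f θ))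
        (((aeval r (qCatalan n) : ℝ) : ℂ) * (Complex.exp (f 0) * f1 0)) (Set.Icc 0 δ) 0 :=
      (((hd0 0 h0mem).cexp).const_mul _).hasDerivWithinAt
    have h3 : HasDerivWithinAt (G n k s)
        (((aeval r (qCatalan n) : ℝ) : ℂ) * (Complex.exp (f 0) * f1 0)) (Set.Icc 0 δ) 0 :=
      h2.congr (fun θ hθ => hGf θ hθ) (hGf 0 h0mem)
    have h4 := UniqueDiffWithinAt.eq_deriv _ (uniqueDiffOn_Icc hδ 0 h0mem) h1 h3
    rw [hf0, Complex.exp_zero, one_mul] at h4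
    have h5 : ((aeval r (qCatalan n) : ℝ) : ℂ) ≠ 0 := by exact_mod_cast hP0.ne'
    rcases mul_eq_zero.1 h4.symm with h | h
    · exact absurd h h5
    · exact h
  -- second derivative at zero
  have hf2im : (f2 0).im = 0 := by
    simp only [hf2, hu]
    rw [Complex.im_sum]
    refine sum_eq_zero fun i hi => ?_
    rw [mem_Icc] at hi
    have e : ∀ j : ℕ, L2 (j * ((s : ℂ) - ((0 : ℝ) : ℂ) * Complex.I)) = L2 (j * s) := by
      intro j; congr 1; simp
    have e2 : ∀ j : ℕ, L2 (j * s) * (-(j * Complex.I)) * (-(j * Complex.I)) =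
        (((-(j : ℝ) ^ 2 : ℝ)) : ℂ) * L2 (j * s) := by
      intro j
      have : L2 (j * s) * (-(j * Complex.I)) * (-(j * Complex.I)) =
        L2 (j * s) * j ^ 2 * (Complex.I * Complex.I) := by ring
      rw [this, Complex.I_mul_I]
      push_cast
      ring
    rw [e (n + i), e i, e2 (n + i), e2 i, Complex.sub_im, Complex.im_ofReal_mul,
      Complex.im_ofReal_mul, hreal (n + i) (by omega) (by omega), hreal i (by omega) (by omega)]
    simp
  have hf2norm : ‖f2 0‖ ≤ V := by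
    refine (norm_sum_le _ _).trans (le_trans (sum_le_sum fun i hi => ?_) hV)
    have e : ∀ j : ℕ, L2 (j * ((s : ℂ) - ((0 : ℝ) : ℂ) * Complex.I)) = L2 (j * s) := by
      intro j; congr 1; simp
    simp only [hu]
    rw [e (n + i), e i]
    refine (norm_sub_le _ _).trans (add_le_add ?_ ?_)
    · simp only [norm_mul, norm_neg, Complex.norm_I, mul_one, Complex.norm_natCast]
      apply le_of_eq
      ring
    · simp only [norm_mul, norm_neg, Complex.norm_I, mul_one, Complex.norm_natCast]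
      apply le_of_eq
      ring
  intro θ hθ
  have ht := taylor3 f f1 f2 f3 δ S hd0 hd1 hd2 hb3 hf0 hf10 θ hθ
  refine ⟨(f θ).re, (f θ).im, ?_, ?_, ?_⟩
  · have h1 : (f θ - f2 0 * ((θ : ℂ) ^ 2 / 2)).im = (f θ).im := by
      have e : (f2 0 * ((θ : ℂ) ^ 2 / 2)) = (((θ ^ 2 / 2 : ℝ)) : ℂ) * f2 0 := by
        push_cast; ring
      rw [Complex.sub_im, e, Complex.im_ofReal_mul, hf2im]
      simp
    rw [← h1]
    exact (Complex.abs_im_le_norm _).trans ht
  · have h1 : (f θ - f2 0 * ((θ : ℂ) ^ 2 / 2)).re = (f θ).re - (θ ^ 2 / 2) * (f2 0).re := by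
      have e : (f2 0 * ((θ : ℂ) ^ 2 / 2)) = (((θ ^ 2 / 2 : ℝ)) : ℂ) * f2 0 := by
        push_cast; ring
      rw [Complex.sub_re, e, Complex.re_ofReal_mul]
    have h2 := (Complex.abs_re_le_norm _).trans ht
    rw [h1] at h2
    have h3 := (Complex.abs_re_le_norm _).trans hf2norm
    have h4 := (abs_le.1 h2).1
    have h5 := (abs_le.1 h3).1
    have h6 : -(V / 2 * θ ^ 2) ≤ (θ ^ 2 / 2) * (f2 0).re := by
      nlinarith [mul_le_mul_of_nonneg_left h5 (by positivity : (0 : ℝ) ≤ θ ^ 2 / 2)]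
    linarith
  · rw [hGf θ hθ, Complex.re_ofReal_mul, Complex.exp_re]

/-- Local description of the characteristic function, abstract version. -/
lemma near_core (n k : ℕ) (hn : 1 ≤ n) (s δ : ℝ) (hδ : 0 < δ) (L0 L1 L2 L3 : ℂ → ℂ)
    (K : ℕ → ℝ) (hK : ∀ j, 1 ≤ j → 0 < K j)
    (hd : ∀ j : ℕ, 1 ≤ j → j ≤ 2 * n → ∀ θ ∈ Set.Icc 0 δ,
      HasDerivAt L0 (L1 (j * (s - θ * Complex.I))) (j * (s - θ * Complex.I)) ∧
      HasDerivAt L1 (L2 (j * (s - θ * Complex.I))) (j * (s - θ * Complex.I)) ∧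
      HasDerivAt L2 (L3 (j * (s - θ * Complex.I))) (j * (s - θ * Complex.I)))
    (hval : ∀ j : ℕ, 1 ≤ j → j ≤ 2 * n → ∀ θ ∈ Set.Icc 0 δ,
      aeval (Complex.exp (-((s : ℂ) - θ * Complex.I))) (qnum j) =
        K j * Complex.exp (L0 (j * (s - θ * Complex.I)) - L0 (s - θ * Complex.I)))
    (hreal : ∀ j : ℕ, 1 ≤ j → j ≤ 2 * n → (L2 (j * s)).im = 0)
    (V S : ℝ)
    (hV : ∑ i ∈ Icc 2 n, ((((n + i : ℕ) : ℝ)) ^ 2 * ‖L2 ((n + i : ℕ) * s)‖ +
      (i : ℝ) ^ 2 * ‖L2 (i * s)‖) ≤ V)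
    (hS : ∀ θ ∈ Set.Icc 0 δ, ∑ i ∈ Icc 2 n,
      ((((n + i : ℕ) : ℝ)) ^ 3 * ‖L3 ((n + i : ℕ) * (s - θ * Complex.I))‖ +
      (i : ℝ) ^ 3 * ‖L3 (i * (s - θ * Complex.I))‖) ≤ S)
    (hstat : deriv (G n k s) 0 = 0) :
    ∀ θ ∈ Set.Icc 0 δ, ∃ a b : ℝ, |b| ≤ S * θ ^ 3 ∧ -(V * θ ^ 2) - S * θ ^ 3 ≤ a ∧
      (G n k s θ).re = aeval (Real.exp (-s)) (qCatalan n) * (Real.exp a * Real.cos b) := by
  intro θ hθ
  obtain ⟨a, b, h1, h2, h3⟩ := near_core_sharp n k hn s δ hδ L0 L1 L2 L3 K hK hd hval hreal V S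
    hV hS hstat θ hθ
  have hV0 : 0 ≤ V := le_trans (sum_nonneg fun i _ => by positivity) hV
  have hS0 : 0 ≤ S := le_trans (sum_nonneg fun i _ => by positivity) (hS θ hθ)
  have hθ0 := hθ.1
  have e1 : S / 6 * θ ^ 3 ≤ S * θ ^ 3 := by
    apply mul_le_mul_of_nonneg_right _ (by positivity)
    linarith
  have e2 : V / 2 * θ ^ 2 ≤ V * θ ^ 2 := by
    apply mul_le_mul_of_nonneg_right _ (by positivity)
    linarith
  exact ⟨a, b, h1.trans e1, by linarith, h3⟩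

end Pool.Agent.H20.QCat
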