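import Mathlib

/-! # Sharp bounds for some Lambert-type sums -/

namespace Pool.Agent.H20.QCat

open Finset

/-! ### elementary hyperbolic inequalities -/

lemma nonneg_of_deriv (g g' : ℝ → ℝ) (hg : ∀ y, HasDerivAt g (g' y) y) (h0 : 0 ≤ g 0)
    (hpos : ∀ y, 0 < y → 0 ≤ g' y) (x : ℝ) (hx : 0 ≤ x) : 0 ≤ g x := by
  have hmono : MonotoneOn g (Set.Ici 0) := by
    apply monotoneOn_of_deriv_nonneg (convex_Ici 0)
    · exact fun y _ => (hg y).continuousAt.continuousWithinAt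
    · exact fun y _ => (hg y).differentiableAt.differentiableWithinAt
    · intro y hy
      rw [interior_Ici, Set.mem_Ioi] at hy
      rw [(hg y).deriv]
      exact hpos y hy
  exact h0.trans (hmono (Set.mem_Ici.2 le_rfl) (Set.mem_Ici.2 hx) hx)

lemma sinh_le_mul_cosh (x : ℝ) (hx : 0 ≤ x) : Real.sinh x ≤ x * Real.cosh x := by
  have := nonneg_of_deriv (fun x => x * Real.cosh x - Real.sinh x)
    (fun y => 1 * Real.cosh y + y * Real.sinh y - Real.cosh y)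
    (fun y => ((hasDerivAt_id y).mul (Real.hasDerivAt_cosh y)).sub (Real.hasDerivAt_sinh y))
    (by simp) (fun y hy => by
      have := Real.sinh_pos_iff.2 hy
      nlinarith) x hx
  linarith

lemma mul_cosh_le (x : ℝ) (hx : 0 ≤ x) :
    x * Real.cosh x ≤ (1 + x ^ 2 / 3) * Real.sinh x := by
  have h0 : ∀ y : ℝ, HasDerivAt (fun x : ℝ => 1 + x ^ 2 / 3) (((2 : ℕ) : ℝ) * y ^ (2 - 1) / 3) y :=
    fun y => ((hasDerivAt_pow 2 y).div_const 3).const_add 1
  have := nonneg_of_deriv (fun x => (1 + x ^ 2 / 3) * Real.sinh x - x * Real.cosh x)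
    (fun y => (((2 : ℕ) : ℝ) * y ^ (2 - 1) / 3) * Real.sinh y + (1 + y ^ 2 / 3) * Real.cosh y -
            (1 * Real.cosh y + y * Real.sinh y))
    (fun y => ((h0 y).mul (Real.hasDerivAt_sinh y)).sub
      ((hasDerivAt_id y).mul (Real.hasDerivAt_cosh y)))
    (by simp) (fun y hy => by
      have := sinh_le_mul_cosh y hy.le
      norm_num
      nlinarith) x hx
  linarith

/-- `1 - e^{-t} = 2 e^{-t/2} sinh(t/2)` -/
lemma one_sub_exp_eq (t : ℝ) : 1 - Real.exp (-t) = 2 * Real.exp (-(t / 2)) * Real.sinh (t / 2) := by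
  rw [Real.sinh_eq]
  have h1 : Real.exp (-(t / 2)) * Real.exp (t / 2) = 1 := by rw [← Real.exp_add]; simp
  have h2 : Real.exp (-(t / 2)) * Real.exp (-(t / 2)) = Real.exp (-t) := by
    rw [← Real.exp_add]; congr 1; ring
  linear_combination h2 - h1

lemma one_add_exp_eq (t : ℝ) : 1 + Real.exp (-t) = 2 * Real.exp (-(t / 2)) * Real.cosh (t / 2) := by
  rw [Real.cosh_eq]
  have h1 : Real.exp (-(t / 2)) * Real.exp (t / 2) = 1 := by rw [← Real.exp_add]; simp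
  have h2 : Real.exp (-(t / 2)) * Real.exp (-(t / 2)) = Real.exp (-t) := by
    rw [← Real.exp_add]; congr 1; ring
  linear_combination - h2 - h1

lemma exp_half_sq (t : ℝ) : Real.exp (-t) = Real.exp (-(t / 2)) ^ 2 := by
  rw [← Real.exp_nat_mul]; congr 1; push_cast; ring

lemma cosh_ge_two (x : ℝ) (hx : 0 ≤ x) : 1 + x ^ 2 / 2 ≤ Real.cosh x := by
  have := nonneg_of_deriv (fun x => Real.cosh x - (1 + x ^ 2 / 2))
    (fun y => Real.sinh y - (((2 : ℕ) : ℝ) * y ^ (2 - 1) / 2))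
    (fun y => (Real.hasDerivAt_cosh y).sub (((hasDerivAt_pow 2 y).div_const 2).const_add 1))
    (by simp) (fun y hy => by
      have := Real.self_le_sinh_iff.2 hy.le
      norm_num
      linarith) x hx
  linarith

lemma sinh_ge_three (x : ℝ) (hx : 0 ≤ x) : x + x ^ 3 / 6 ≤ Real.sinh x := by
  have := nonneg_of_deriv (fun x => Real.sinh x - (x + x ^ 3 / 6))
    (fun y => Real.cosh y - (1 + ((3 : ℕ) : ℝ) * y ^ (3 - 1) / 6))
    (fun y => (Real.hasDerivAt_sinh y).sub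
      ((hasDerivAt_id y).add ((hasDerivAt_pow 3 y).div_const 6)))
    (by simp) (fun y hy => by
      have := cosh_ge_two y hy.le
      norm_num
      linarith) x hx
  linarith

lemma cosh_ge_four (x : ℝ) (hx : 0 ≤ x) : 1 + x ^ 2 / 2 + x ^ 4 / 24 ≤ Real.cosh x := by
  have := nonneg_of_deriv (fun x => Real.cosh x - (1 + x ^ 2 / 2 + x ^ 4 / 24))
    (fun y => Real.sinh y - (((2 : ℕ) : ℝ) * y ^ (2 - 1) / 2 + ((4 : ℕ) : ℝ) * y ^ (4 - 1) / 24))
    (fun y => (Real.hasDerivAt_cosh y).sub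
      ((((hasDerivAt_pow 2 y).div_const 2).const_add 1).add ((hasDerivAt_pow 4 y).div_const 24)))
    (by simp) (fun y hy => by
      have := sinh_ge_three y hy.le
      norm_num
      linarith) x hx
  linarith

/-- `4 sinh(t/2)^2 ≥ t^2 + t^4/12` -/
lemma sinh_sq_ge (t : ℝ) (ht : 0 ≤ t) : t ^ 2 * (1 + t ^ 2 / 12) ≤ 4 * Real.sinh (t / 2) ^ 2 := by
  have h1 := cosh_ge_four t ht
  have h2 : Real.cosh t = 1 + 2 * Real.sinh (t / 2) ^ 2 := by
    have h3 := Real.cosh_two_mul (t / 2)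
    have h4 := Real.cosh_sq (t / 2)
    have e : 2 * (t / 2) = t := by ring
    rw [e] at h3
    rw [h3, h4]; ring
  rw [h2] at h1
  linarith

/-- `e^{-t}/(1-e^{-t})^2 ≤ 1/t^2` -/
lemma V_le (t : ℝ) (ht : 0 < t) : Real.exp (-t) / (1 - Real.exp (-t)) ^ 2 ≤ 1 / t ^ 2 := by
  have hs : 0 < Real.sinh (t / 2) := Real.sinh_pos_iff.2 (by linarith)
  have he := Real.exp_pos (-(t / 2))
  have e : Real.exp (-t) / (1 - Real.exp (-t)) ^ 2 = 1 / (4 * Real.sinh (t / 2) ^ 2) := by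
    rw [one_sub_exp_eq, exp_half_sq]
    field_simp
    norm_num
  rw [e]
  apply one_div_le_one_div_of_le (by positivity)
  have := sinh_sq_ge t ht.le
  have h2 : 0 ≤ t ^ 2 * (t ^ 2 / 12) := by positivity
  linarith

/-- `e^{-2t}/(1-e^{-t})^4 ≤ 1/t^4` -/
lemma V_sq_le (t : ℝ) (ht : 0 < t) :
    Real.exp (-t) ^ 2 / (1 - Real.exp (-t)) ^ 4 ≤ 1 / t ^ 4 := by
  have h := V_le t ht
  have hlt : Real.exp (-t) < 1 := by rw [Real.exp_lt_one_iff]; linarith
  have h0 : 0 ≤ Real.exp (-t) / (1 - Real.exp (-t)) ^ 2 := by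
    have := Real.exp_pos (-t); positivity
  have h1 := pow_le_pow_left₀ h0 h 2
  have e1 : (Real.exp (-t) / (1 - Real.exp (-t)) ^ 2) ^ 2 =
      Real.exp (-t) ^ 2 / (1 - Real.exp (-t)) ^ 4 := by rw [div_pow, ← pow_mul]
  have e2 : (1 / t ^ 2) ^ 2 = 1 / t ^ 4 := by rw [div_pow, ← pow_mul]; simp
  rwa [e1, e2] at h1

/-- `e^{-t}(1+e^{-t})/(1-e^{-t})^3 ≤ 2/t^3` -/
lemma b2_le (t : ℝ) (ht : 0 < t) :
    Real.exp (-t) * (1 + Real.exp (-t)) / (1 - Real.exp (-t)) ^ 3 ≤ 2 / t ^ 3 := by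
  have hs : 0 < Real.sinh (t / 2) := Real.sinh_pos_iff.2 (by linarith)
  have hc := Real.cosh_pos (t / 2)
  have he := Real.exp_pos (-(t / 2))
  have e : Real.exp (-t) * (1 + Real.exp (-t)) / (1 - Real.exp (-t)) ^ 3 =
      Real.cosh (t / 2) / (4 * Real.sinh (t / 2) ^ 3) := by
    rw [one_sub_exp_eq, one_add_exp_eq, exp_half_sq]
    field_simp
    norm_num
  rw [e, div_le_div_iff₀ (by positivity) (by positivity)]
  have h1 := mul_cosh_le (t / 2) (by linarith)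
  have h2 := sinh_sq_ge t ht.le
  -- cosh * t^3 ≤ 2 t^2 (1 + t^2/12) sinh ≤ 8 sinh^3
  have h3 : Real.cosh (t / 2) * t ^ 3 ≤ 2 * Real.sinh (t / 2) * (t ^ 2 * (1 + t ^ 2 / 12)) := by
    have h4 : t * Real.cosh (t / 2) ≤ 2 * (1 + t ^ 2 / 12) * Real.sinh (t / 2) := by
      have e : (1 + (t / 2) ^ 2 / 3) = 1 + t ^ 2 / 12 := by ring
      rw [e] at h1
      linarith
    have := mul_le_mul_of_nonneg_left h4 (sq_nonneg t)
    linarith
  have h5 := mul_le_mul_of_nonneg_left h2 (by positivity : 0 ≤ 2 * Real.sinh (t / 2))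
  linarith

/-- `coth(s/2) ≥ 2/s` -/
lemma coth_ge (s : ℝ) (hs : 0 < s) :
    1 / s ≤ (1 + Real.exp (-s)) / (2 * (1 - Real.exp (-s))) := by
  have hs' : 0 < Real.sinh (s / 2) := Real.sinh_pos_iff.2 (by linarith)
  have he := Real.exp_pos (-(s / 2))
  rw [one_sub_exp_eq, one_add_exp_eq]
  have e : 2 * Real.exp (-(s / 2)) * Real.cosh (s / 2) /
      (2 * (2 * Real.exp (-(s / 2)) * Real.sinh (s / 2))) =
      Real.cosh (s / 2) / (2 * Real.sinh (s / 2)) := by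
    field_simp
  rw [e, div_le_div_iff₀ hs (by positivity)]
  have := sinh_le_mul_cosh (s / 2) (by linarith)
  linarith

/-! ### power sums -/

lemma hs_congr {f g : ℕ → ℝ} {a : ℝ} (h : ∀ n, f n = g n) (hg : HasSum g a) : HasSum f a := by
  have : f = g := funext h
  rwa [this]

lemma hasSum_sq (r : ℝ) (h0 : 0 ≤ r) (h1 : r < 1) :
    HasSum (fun j : ℕ => (j : ℝ) ^ 2 * r ^ j) (r * (1 + r) / (1 - r) ^ 3) := by
  have hn : ‖r‖ < 1 := by rw [Real.norm_of_nonneg h0]; exact h1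
  have h2 := hasSum_choose_mul_geometric_of_norm_lt_one 2 hn
  have h3 := hasSum_choose_mul_geometric_of_norm_lt_one 1 hn
  have h4 := (h2.mul_left (2 * r)).sub (h3.mul_left r)
  have h5 : HasSum (fun n : ℕ => ((n + 1 : ℕ) : ℝ) ^ 2 * r ^ (n + 1))
      (r * (1 + r) / (1 - r) ^ 3) := by
    have e : r * (1 + r) / (1 - r) ^ 3 =
        2 * r * (1 / (1 - r) ^ (2 + 1)) - r * (1 / (1 - r) ^ (1 + 1)) := by
      have : 1 - r ≠ 0 := by linarith
      field_simp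
      ring
    rw [e]
    refine hs_congr (fun n => ?_) h4
    have e1 : (((n + 2).choose 2 : ℕ) : ℝ) = (n + 2) * (n + 1) / 2 := by
      rw [Nat.cast_choose_two]; push_cast; ring
    have e2 : (((n + 1).choose 1 : ℕ) : ℝ) = n + 1 := by simp
    rw [e1, e2]
    push_cast
    ring
  have h6 := (hasSum_nat_add_iff (f := fun j : ℕ => (j : ℝ) ^ 2 * r ^ j) 1).1 h5
  simpa using h6

lemma choose_three (n : ℕ) : (((n + 3).choose 3 : ℕ) : ℝ) = (n + 3) * (n + 2) * (n + 1) / 6 := by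
  have h10 : ((n + 3).choose 3) * 6 = (n + 3) * ((n + 2) * (n + 1)) := by
    have h7 := Nat.add_choose_mul_factorial_mul_factorial n 3
    have h8 : (n + 3).factorial = (n + 3) * ((n + 2) * ((n + 1) * n.factorial)) := by
      rw [Nat.factorial_succ, Nat.factorial_succ, Nat.factorial_succ]
    rw [h8] at h7
    have hpos := Nat.factorial_pos n
    have : (n + 3).choose 3 * 6 * n.factorial = (n + 3) * ((n + 2) * (n + 1)) * n.factorial := by
      have h6 : Nat.factorial 3 = 6 := rfl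
      rw [h6] at h7
      linarith
    exact Nat.eq_of_mul_eq_mul_right hpos this
  have h11 : (((n + 3).choose 3 : ℕ) : ℝ) * 6 = (n + 3) * ((n + 2) * (n + 1)) := by
    exact_mod_cast h10
  linarith

lemma hasSum_cube (r : ℝ) (h0 : 0 ≤ r) (h1 : r < 1) :
    HasSum (fun j : ℕ => (j : ℝ) ^ 3 * r ^ j) (6 * (r ^ 2 / (1 - r) ^ 4) + r / (1 - r) ^ 2) := by
  have hn : ‖r‖ < 1 := by rw [Real.norm_of_nonneg h0]; exact h1
  have h2 := hasSum_choose_mul_geometric_of_norm_lt_one 3 hn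
  have h3 : HasSum (fun j : ℕ => (j : ℝ) * r ^ j) (r / (1 - r) ^ 2) :=
    hasSum_coe_mul_geometric_of_norm_lt_one hn
  have h5 : HasSum (fun n : ℕ => (((n + 2 : ℕ) : ℝ) ^ 3 - ((n + 2 : ℕ) : ℝ)) * r ^ (n + 2))
      (6 * (r ^ 2 / (1 - r) ^ 4)) := by
    have e : 6 * (r ^ 2 / (1 - r) ^ 4) = 6 * r ^ 2 * (1 / (1 - r) ^ (3 + 1)) := by ring
    rw [e]
    refine hs_congr (fun n => ?_) (h2.mul_left (6 * r ^ 2))
    rw [choose_three]
    push_cast
    ring
  have h6 := (hasSum_nat_add_iff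
    (f := fun j : ℕ => ((j : ℝ) ^ 3 - (j : ℝ)) * r ^ j) 2).1 h5
  have h7 : HasSum (fun j : ℕ => ((j : ℝ) ^ 3 - (j : ℝ)) * r ^ j) (6 * (r ^ 2 / (1 - r) ^ 4)) := by
    simpa [sum_range_succ] using h6
  refine hs_congr (fun n => ?_) (h7.add h3)
  ring

/-- interchange lemma -/
lemma double_sum (J : Finset ℕ) (f : ℕ → ℕ → ℝ) (A : ℕ → ℝ) (B : ℕ → ℝ) (S : ℝ)
    (hA : ∀ j ∈ J, HasSum (f j) (A j)) (hB : ∀ m, ∑ j ∈ J, f j m ≤ B m) (hS : HasSum B S) :
    ∑ j ∈ J, A j ≤ S :=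
  hasSum_le hB (hasSum_sum hA) hS

lemma exp_swap (s : ℝ) (j m : ℕ) : Real.exp (-(j * s)) ^ m = Real.exp (-(m * s)) ^ j := by
  rw [← Real.exp_nat_mul, ← Real.exp_nat_mul]; congr 1; ring

lemma exp_lt_one' (s : ℝ) (hs : 0 < s) (j : ℕ) (hj : 1 ≤ j) : Real.exp (-(j * s)) < 1 := by
  rw [Real.exp_lt_one_iff]
  have : (0 : ℝ) < j := by exact_mod_cast hj
  have := mul_pos this hs
  linarith

lemma sum_S1 (J : Finset ℕ) (hJ : ∀ j ∈ J, 1 ≤ j) (s : ℝ) (hs : 0 < s) :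
    ∑ j ∈ J, (j : ℝ) * (Real.exp (-(j * s)) / (1 - Real.exp (-(j * s)))) ≤
      Real.pi ^ 2 / 6 / s ^ 2 := by
  have hz : HasSum (fun m : ℕ => 1 / (m : ℝ) ^ 2 / s ^ 2) (Real.pi ^ 2 / 6 / s ^ 2) :=
    hasSum_zeta_two.div_const _
  refine double_sum J (fun j m => if m = 0 then 0 else (j : ℝ) * Real.exp (-(j * s)) ^ m) _ _ _
    ?_ ?_ hz
  · intro j hj
    have h1 := exp_lt_one' s hs j (hJ j hj)
    have h2 := (hasSum_geometric_of_lt_one (Real.exp_pos (-(j * s))).le h1).mul_left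
      ((j : ℝ) * Real.exp (-(j * s)))
    have h3 : HasSum (fun n : ℕ => if n + 1 = 0 then 0 else (j : ℝ) *
        Real.exp (-(j * s)) ^ (n + 1))
        ((j : ℝ) * (Real.exp (-(j * s)) / (1 - Real.exp (-(j * s))))) := by
      have e : (j : ℝ) * (Real.exp (-(j * s)) / (1 - Real.exp (-(j * s)))) =
        (j : ℝ) * Real.exp (-(j * s)) * (1 - Real.exp (-(j * s)))⁻¹ := by ring
      rw [e]
      refine hs_congr (fun n => ?_) h2
      rw [if_neg (by omega)]; ring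
    have h4 := (hasSum_nat_add_iff (f := fun m : ℕ => if m = 0 then (0 : ℝ) else (j : ℝ) *
        Real.exp (-(j * s)) ^ m) 1).1 h3
    simpa using h4
  · intro m
    rcases Nat.eq_zero_or_pos m with rfl | hm
    · simp
    · have hm' : (0 : ℝ) < m := by exact_mod_cast hm
      have h1 : ∀ j ∈ J, (if m = 0 then 0 else (j : ℝ) * Real.exp (-(j * s)) ^ m) =
          (j : ℝ) * Real.exp (-(m * s)) ^ j := by
        intro j _
        rw [if_neg (by omega), exp_swap]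
      rw [sum_congr rfl h1]
      have h2 := exp_lt_one' s hs m hm
      have h3 : HasSum (fun j : ℕ => (j : ℝ) * Real.exp (-(m * s)) ^ j)
          (Real.exp (-(m * s)) / (1 - Real.exp (-(m * s))) ^ 2) :=
        hasSum_coe_mul_geometric_of_norm_lt_one
          (by rw [Real.norm_of_nonneg (Real.exp_pos _).le]; exact h2)
      have h4 := sum_le_hasSum J (fun j _ => by positivity) h3
      refine h4.trans ((V_le _ (by positivity)).trans (le_of_eq ?_))
      field_simp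

lemma sum_S2 (J : Finset ℕ) (hJ : ∀ j ∈ J, 1 ≤ j) (s : ℝ) (hs : 0 < s) :
    ∑ j ∈ J, (j : ℝ) ^ 2 * (Real.exp (-(j * s)) / (1 - Real.exp (-(j * s))) ^ 2) ≤
      Real.pi ^ 2 / 3 / s ^ 3 := by
  have hz : HasSum (fun m : ℕ => 1 / (m : ℝ) ^ 2 * (2 / s ^ 3)) (Real.pi ^ 2 / 3 / s ^ 3) := by
    have h := hasSum_zeta_two.mul_right (2 / s ^ 3)
    have e : Real.pi ^ 2 / 3 / s ^ 3 = Real.pi ^ 2 / 6 * (2 / s ^ 3) := by ring
    rw [e]
    exact h
  refine double_sum J (fun j m => (j : ℝ) ^ 2 * ((m : ℝ) * Real.exp (-(j * s)) ^ m)) _ _ _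
    ?_ ?_ hz
  · intro j hj
    have h1 := exp_lt_one' s hs j (hJ j hj)
    have h2 : HasSum (fun m : ℕ => (m : ℝ) * Real.exp (-(j * s)) ^ m)
        (Real.exp (-(j * s)) / (1 - Real.exp (-(j * s))) ^ 2) :=
      hasSum_coe_mul_geometric_of_norm_lt_one
        (by rw [Real.norm_of_nonneg (Real.exp_pos _).le]; exact h1)
    exact h2.mul_left _
  · intro m
    rcases Nat.eq_zero_or_pos m with rfl | hm
    · simp
    · have hm' : (0 : ℝ) < m := by exact_mod_cast hm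
      have h1 : ∀ j ∈ J, (j : ℝ) ^ 2 * ((m : ℝ) * Real.exp (-(j * s)) ^ m) =
          (m : ℝ) * ((j : ℝ) ^ 2 * Real.exp (-(m * s)) ^ j) := by
        intro j _
        rw [exp_swap]; ring
      rw [sum_congr rfl h1, ← mul_sum]
      have h2 := exp_lt_one' s hs m hm
      have h4 := sum_le_hasSum J (fun j _ => by positivity)
        (hasSum_sq (Real.exp (-(m * s))) (Real.exp_pos _).le h2)
      have h5 := b2_le (m * s) (by positivity)
      refine (mul_le_mul_of_nonneg_left (h4.trans h5) hm'.le).trans (le_of_eq ?_)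
      field_simp

lemma summable_V (s : ℝ) (hs : 0 < s) : ∃ S : ℝ, S ≤ Real.pi ^ 2 / 3 / s ^ 3 ∧
    HasSum (fun j : ℕ => (j : ℝ) ^ 2 * (Real.exp (-(j * s)) / (1 - Real.exp (-(j * s))) ^ 2)) S := by
  have hnn : ∀ j : ℕ, 0 ≤ (j : ℝ) ^ 2 * (Real.exp (-(j * s)) / (1 - Real.exp (-(j * s))) ^ 2) := by
    intro j; positivity
  have hb : ∀ u : Finset ℕ, ∑ j ∈ u, (j : ℝ) ^ 2 *
      (Real.exp (-(j * s)) / (1 - Real.exp (-(j * s))) ^ 2) ≤ Real.pi ^ 2 / 3 / s ^ 3 := by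
    intro u
    have h1 : ∑ j ∈ u, (j : ℝ) ^ 2 * (Real.exp (-(j * s)) / (1 - Real.exp (-(j * s))) ^ 2) =
        ∑ j ∈ u.filter (fun j => 1 ≤ j), (j : ℝ) ^ 2 *
          (Real.exp (-(j * s)) / (1 - Real.exp (-(j * s))) ^ 2) := by
      rw [sum_filter]
      refine sum_congr rfl fun j _ => ?_
      split_ifs with h
      · rfl
      · obtain rfl : j = 0 := by omega
        simp
    rw [h1]
    exact sum_S2 _ (fun j hj => (mem_filter.1 hj).2) s hs
  have hsum := summable_of_sum_le hnn hb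
  exact ⟨_, hsum.tsum_le_of_sum_le hb, hsum.hasSum⟩

lemma sum_S3 (J : Finset ℕ) (hJ : ∀ j ∈ J, 1 ≤ j) (s : ℝ) (hs : 0 < s) :
    ∑ j ∈ J, (j : ℝ) ^ 3 *
      (Real.exp (-(j * s)) * (1 + Real.exp (-(j * s))) / (1 - Real.exp (-(j * s))) ^ 3) ≤
      Real.pi ^ 2 / s ^ 4 + Real.pi ^ 2 / 3 / s ^ 3 := by
  obtain ⟨S, hS, hV⟩ := summable_V s hs
  have hz : HasSum (fun m : ℕ => 1 / (m : ℝ) ^ 2 * (6 / s ^ 4) +
      (m : ℝ) ^ 2 * (Real.exp (-(m * s)) / (1 - Real.exp (-(m * s))) ^ 2))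
      (Real.pi ^ 2 / s ^ 4 + S) := by
    have h := hasSum_zeta_two.mul_right (6 / s ^ 4)
    have e : Real.pi ^ 2 / s ^ 4 = Real.pi ^ 2 / 6 * (6 / s ^ 4) := by ring
    rw [e]
    exact h.add hV
  have key := double_sum J (fun j m => (j : ℝ) ^ 3 * ((m : ℝ) ^ 2 * Real.exp (-(j * s)) ^ m))
    (fun j => (j : ℝ) ^ 3 *
      (Real.exp (-(j * s)) * (1 + Real.exp (-(j * s))) / (1 - Real.exp (-(j * s))) ^ 3)) _ _
    ?_ ?_ hz
  · linarith
  · intro j hj
    have h1 := exp_lt_one' s hs j (hJ j hj)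
    exact (hasSum_sq _ (Real.exp_pos _).le h1).mul_left _
  · intro m
    rcases Nat.eq_zero_or_pos m with rfl | hm
    · simp
    · have hm' : (0 : ℝ) < m := by exact_mod_cast hm
      have h1 : ∀ j ∈ J, (j : ℝ) ^ 3 * ((m : ℝ) ^ 2 * Real.exp (-(j * s)) ^ m) =
          (m : ℝ) ^ 2 * ((j : ℝ) ^ 3 * Real.exp (-(m * s)) ^ j) := by
        intro j _
        rw [exp_swap]; ring
      rw [sum_congr rfl h1, ← mul_sum]
      have h2 := exp_lt_one' s hs m hm
      have h4 := sum_le_hasSum J (fun j _ => by positivity)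
        (hasSum_cube (Real.exp (-(m * s))) (Real.exp_pos _).le h2)
      have h5 := V_sq_le (m * s) (by positivity)
      have h6 : 6 * (Real.exp (-(m * s)) ^ 2 / (1 - Real.exp (-(m * s))) ^ 4) +
          Real.exp (-(m * s)) / (1 - Real.exp (-(m * s))) ^ 2 ≤
          6 * (1 / (m * s) ^ 4) + Real.exp (-(m * s)) / (1 - Real.exp (-(m * s))) ^ 2 := by
        linarith
      refine (mul_le_mul_of_nonneg_left (h4.trans h6) (by positivity)).trans (le_of_eq ?_)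
      field_simp

end Pool.Agent.H20.QCat
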