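import Pool.Agent.H20.QCat.RegA
import Pool.Agent.H20.QCat.Sums

/-! # Near the axis, with sharp constants (`s > 0`) -/

namespace Pool.Agent.H20.QCat

open Polynomial Finset

lemma sum_two (n : ℕ) (f : ℕ → ℝ) (B : ℝ)
    (h : ∀ J : Finset ℕ, (∀ j ∈ J, 1 ≤ j) → ∑ j ∈ J, f j ≤ B) :
    ∑ i ∈ Icc 2 n, (f (n + i) + f i) ≤ B := by
  have h1 : ∑ i ∈ Icc 2 n, (f (n + i) + f i) =
      ∑ j ∈ (Icc 2 n).image (fun i => n + i) ∪ Icc 2 n, f j := by
    rw [sum_union, sum_add_distrib, sum_image]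
    · intro a _ b _ hab; simpa using hab
    · rw [Finset.disjoint_left]
      intro a ha hb
      rw [mem_image] at ha
      obtain ⟨i, hi, rfl⟩ := ha
      rw [mem_Icc] at hi hb
      omega
  rw [h1]
  apply h
  intro j hj
  rw [mem_union, mem_image] at hj
  rcases hj with ⟨i, hi, rfl⟩ | hj
  · rw [mem_Icc] at hi; omega
  · rw [mem_Icc] at hj; omega

/-- sharp near-axis description -/
theorem nearX (n k : ℕ) (hn : 1 ≤ n) (s : ℝ) (hs : 0 < s)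
    (hstat : deriv (G n k s) 0 = 0) (δ : ℝ) (hδ : 0 < δ) :
    ∀ θ ∈ Set.Icc 0 δ, ∃ a b : ℝ,
      |b| ≤ (Real.pi ^ 2 / s ^ 4 + Real.pi ^ 2 / 3 / s ^ 3) / 6 * θ ^ 3 ∧
      -((Real.pi ^ 2 / 3 / s ^ 3) / 2 * θ ^ 2) -
        (Real.pi ^ 2 / s ^ 4 + Real.pi ^ 2 / 3 / s ^ 3) / 6 * θ ^ 3 ≤ a ∧
      (G n k s θ).re = aeval (Real.exp (-s)) (qCatalan n) * (Real.exp a * Real.cos b) := by
  have hre : ∀ (j : ℕ) (θ : ℝ), ((j : ℂ) * ((s : ℂ) - θ * Complex.I)).re = j * s := by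
    intro j θ; simp
  have hpos : ∀ (j : ℕ) (θ : ℝ), 1 ≤ j → 0 < ((j : ℂ) * ((s : ℂ) - θ * Complex.I)).re := by
    intro j θ hj
    rw [hre]
    have : (0 : ℝ) < j := by exact_mod_cast hj
    positivity
  refine near_core_sharp n k hn s δ hδ RegA.L0 RegA.L1 RegA.L2 RegA.L3 (fun _ => 1)
    (fun _ _ => one_pos) ?_ ?_ ?_ _ _ ?_ ?_ hstat
  · intro j hj _ θ _
    exact ⟨RegA.hasDerivAt_L0 (hpos j θ hj), RegA.hasDerivAt_L1 (hpos j θ hj),
      RegA.hasDerivAt_L2 (hpos j θ hj)⟩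
  · intro j hj _ θ _
    have h1 : 0 < ((s : ℂ) - θ * Complex.I).re := by simpa using hs
    rw [Complex.exp_sub, RegA.L0, RegA.L0, Complex.exp_log (RegA.one_sub_ne (hpos j θ hj)),
      Complex.exp_log (RegA.one_sub_ne h1), aeval_qnum]
    rw [Complex.ofReal_one, one_mul, eq_div_iff (RegA.one_sub_ne h1), geom_sum_mul_neg,
      ← Complex.exp_nat_mul]
    congr 2
    ring
  · intro j hj _
    have : ((j : ℂ) * (s : ℂ)) = ((j * s : ℝ) : ℂ) := by push_cast; rfl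
    rw [this]
    exact RegA.L2_im _
  · have h1 : ∀ j : ℕ, 1 ≤ j → ‖RegA.L2 ((j : ℂ) * s)‖ =
        Real.exp (-(j * s)) / (1 - Real.exp (-(j * s))) ^ 2 := by
      intro j hj
      have hj' : (0 : ℝ) < j := by exact_mod_cast hj
      have e : ((j : ℂ) * (s : ℂ)) = ((j * s : ℝ) : ℂ) := by push_cast; rfl
      rw [e, RegA.norm_L2 _ (by positivity)]
    apply sum_two n (fun j : ℕ => (j : ℝ) ^ 2 * ‖RegA.L2 ((j : ℂ) * s)‖)
    intro J hJ
    rw [sum_congr rfl fun j hj => by rw [h1 j (hJ j hj)]]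
    exact sum_S2 J hJ s hs
  · intro θ _
    have h1 : ∀ j : ℕ, 1 ≤ j → (j : ℝ) ^ 3 * ‖RegA.L3 ((j : ℂ) * ((s : ℂ) - θ * Complex.I))‖ ≤
        (j : ℝ) ^ 3 * (Real.exp (-(j * s)) * (1 + Real.exp (-(j * s))) /
          (1 - Real.exp (-(j * s))) ^ 3) := by
      intro j hj
      have h0 := RegA.norm_L3 _ (hpos j θ hj)
      rw [hre] at h0
      exact mul_le_mul_of_nonneg_left h0 (by positivity)
    apply sum_two n (fun j : ℕ => (j : ℝ) ^ 3 * ‖RegA.L3 ((j : ℂ) * ((s : ℂ) - θ * Complex.I))‖)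
    intro J hJ
    exact (sum_le_sum fun j hj => h1 j (hJ j hj)).trans (sum_S3 J hJ s hs)

end Pool.Agent.H20.QCat
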