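import Pool.Agent.H20.QCat.Gauss
import Pool.Agent.H20.QCat.TailX

/-! # The explicit estimate for `0 < s ≤ 1/100` -/

namespace Pool.Agent.H20.QCat

open MeasureTheory Set

/-- `e^{-v} cos v ≥ 1 - v` -/
lemma exp_cos_ge (v : ℝ) (hv : 0 ≤ v) : 1 - v ≤ Real.exp (-v) * Real.cos v := by
  have := nonneg_of_deriv (fun v => Real.exp (-v) * Real.cos v - (1 - v))
    (fun y => (Real.exp (-y) * -1 * Real.cos y + Real.exp (-y) * -Real.sin y) - (-1))
    (fun y => ((hasDerivAt_id y).neg.exp.mul (Real.hasDerivAt_cos y)).sub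
      ((hasDerivAt_id y).const_sub 1))
    (by simp) (fun y hy => by
      have h1 := Real.cos_le_one y
      have h2 := Real.sin_le hy.le
      have h3 := Real.add_one_le_exp y
      have h4 : Real.exp (-y) * Real.exp y = 1 := by rw [← Real.exp_add]; simp
      have h5 : Real.exp (-y) * (Real.cos y + Real.sin y) ≤ Real.exp (-y) * Real.exp y :=
        mul_le_mul_of_nonneg_left (by linarith) (Real.exp_pos _).le
      linarith) v hv
  linarith

lemma one_sub_cos_le (θ : ℝ) : 1 - Real.cos θ ≤ θ ^ 2 / 2 := by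
  linarith [Real.one_sub_sq_div_two_le_cos (x := θ)]

lemma one_sub_cos_ge (θ : ℝ) (hθ : |θ| ≤ 1) : θ ^ 2 / 2 - 5 / 96 * θ ^ 4 ≤ 1 - Real.cos θ := by
  have h := (abs_le.1 (Real.cos_bound hθ)).2
  have e : |θ| ^ 4 = θ ^ 4 := by
    have : |θ| ^ 4 = (|θ| ^ 2) ^ 2 := by ring
    rw [this, sq_abs]; ring
  rw [e] at h
  linarith

/-- the coefficients of the near-axis estimate -/
noncomputable def c2 (s : ℝ) : ℝ := (Real.pi ^ 2 / 3 / s ^ 3) / 2
noncomputable def c3 (s : ℝ) : ℝ := (Real.pi ^ 2 / s ^ 4 + Real.pi ^ 2 / 3 / s ^ 3) / 6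

lemma pointwise_tail (s θ : ℝ) (hs : 0 < s) (hs' : s ≤ 1 / 100) (h0 : 0 ≤ θ) (hπ : θ ≤ Real.pi) :
    Real.sqrt (1 + yy s θ) * Real.exp (-(1 / s * (yy s θ / (1 + yy s θ)))) * (1 - Real.cos θ) ≤
      Real.sqrt (3 / 2) / 2 * (θ ^ 2 * Real.exp (-(0.66 / s ^ 3 * θ ^ 2))) +
        4 * (1 + 1 / s) * Real.exp (-(1 / (3 * s))) := by
  set y := yy s θ with hy
  have hy0 : 0 ≤ y := yy_nonneg s θ
  set r := Real.exp (-s) with hr
  have hr0 : 0 < r := Real.exp_pos _
  have hr1 : r < 1 := by rw [hr, Real.exp_lt_one_iff]; linarith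
  have h1r : 0 < 1 - r := by linarith
  have hc0 : 0 ≤ 1 - Real.cos θ := sub_nonneg.2 (Real.cos_le_one _)
  have hydef : y * (1 - r) ^ 2 = 2 * r * (1 - Real.cos θ) := by
    rw [hy, yy, ← hr]
    field_simp
  have hA : 0 ≤ Real.sqrt (3 / 2) / 2 * (θ ^ 2 * Real.exp (-(0.66 / s ^ 3 * θ ^ 2))) := by
    positivity
  have hB : 0 ≤ 4 * (1 + 1 / s) * Real.exp (-(1 / (3 * s))) := by positivity
  rcases le_or_gt y (1 / 2) with hle | hgt
  · -- small y
    have hsq : (1 - r) ^ 2 ≤ 1.0001 * s ^ 2 * r := by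
      have h1 := one_sub_exp_eq s
      rw [← hr] at h1
      have h2 : (1 - r) ^ 2 = 4 * r * Real.sinh (s / 2) ^ 2 := by
        rw [h1, hr, exp_half_sq s]; ring
      have h3 : Real.cosh s = 1 + 2 * Real.sinh (s / 2) ^ 2 := by
        have h3 := Real.cosh_two_mul (s / 2)
        have h4 := Real.cosh_sq (s / 2)
        have e : 2 * (s / 2) = s := by ring
        rw [e] at h3
        rw [h3, h4]; ring
      have h4 := Real.cosh_le_exp_half_sq s
      have h5 : Real.exp (s ^ 2 / 2) ≤ 1 + 1.0001 * (s ^ 2 / 2) := by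
        have h6 := Real.add_one_le_exp (-(s ^ 2 / 2))
        have h7 : Real.exp (s ^ 2 / 2) * Real.exp (-(s ^ 2 / 2)) = 1 := by
          rw [← Real.exp_add]; simp
        have h8 := Real.exp_pos (s ^ 2 / 2)
        have h9 : Real.exp (s ^ 2 / 2) * (1 - s ^ 2 / 2) ≤ 1 := by nlinarith
        have h10 : s ^ 2 ≤ 1 / 10000 := by nlinarith
        have h11 : 1 ≤ (1 + 1.0001 * (s ^ 2 / 2)) * (1 - s ^ 2 / 2) := by nlinarith [sq_nonneg s]
        have h12 : 0 < 1 - s ^ 2 / 2 := by nlinarith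
        exact le_of_mul_le_mul_right (h9.trans h11) h12
      have h6 : 4 * Real.sinh (s / 2) ^ 2 ≤ 1.0001 * s ^ 2 := by nlinarith
      rw [h2]
      have := mul_le_mul_of_nonneg_left h6 hr0.le
      linarith
    have hylow : 2 * (1 - Real.cos θ) ≤ y * (1.0001 * s ^ 2) := by
      have h1 := mul_le_mul_of_nonneg_left hsq hy0
      rw [hydef] at h1
      have h2 : r * (2 * (1 - Real.cos θ)) ≤ r * (y * (1.0001 * s ^ 2)) := by linarith
      exact le_of_mul_le_mul_left h2 hr0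
    have hθ2 : θ ^ 2 ≤ 2 * s ^ 2 := by
      have h1 := Real.cos_le_one_sub_mul_cos_sq (x := θ)
        (by rw [abs_of_nonneg h0]; exact hπ)
      have h2 : 1 / 5 ≤ 2 / Real.pi ^ 2 := by
        rw [div_le_div_iff₀ (by norm_num) (by positivity)]
        nlinarith [Real.pi_lt_d2, Real.pi_gt_three]
      have h3 := mul_le_mul_of_nonneg_right h2 (sq_nonneg θ)
      have h4 : y * (1.0001 * s ^ 2) ≤ 1 / 2 * (1.0001 * s ^ 2) :=
        mul_le_mul_of_nonneg_right hle (by positivity)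
      nlinarith
    have hs2 : s ^ 2 ≤ 1 / 10000 := by nlinarith
    have hθ1 : |θ| ≤ 1 := by
      rw [← sq_le_one_iff_abs_le_one]; nlinarith
    have hc := one_sub_cos_ge θ hθ1
    have hylow2 : 0.99 * θ ^ 2 ≤ y * s ^ 2 := by
      have h1 : 0.9999 * θ ^ 2 / 2 ≤ 1 - Real.cos θ := by
        refine le_trans ?_ hc
        have : θ ^ 4 = θ ^ 2 * θ ^ 2 := by ring
        rw [this]
        nlinarith [sq_nonneg θ]
      nlinarith [sq_nonneg θ]
    have hexp : 0.66 / s ^ 3 * θ ^ 2 ≤ 1 / s * (y / (1 + y)) := by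
      have h1 : 2 / 3 * y ≤ y / (1 + y) := by
        rw [le_div_iff₀ (by linarith)]
        nlinarith
      have h2 : 0.66 / s ^ 3 * θ ^ 2 ≤ 1 / s * (2 / 3 * y) := by
        rw [div_mul_eq_mul_div, div_mul_eq_mul_div, div_le_div_iff₀ (by positivity) hs]
        have := mul_le_mul_of_nonneg_right hylow2 hs.le
        nlinarith
      exact h2.trans (mul_le_mul_of_nonneg_left h1 (by positivity))
    have h1 : Real.sqrt (1 + y) ≤ Real.sqrt (3 / 2) := Real.sqrt_le_sqrt (by linarith)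
    have h2 : Real.exp (-(1 / s * (y / (1 + y)))) ≤ Real.exp (-(0.66 / s ^ 3 * θ ^ 2)) :=
      Real.exp_le_exp.2 (by linarith)
    have h3 := one_sub_cos_le θ
    have h4 : Real.sqrt (1 + y) * Real.exp (-(1 / s * (y / (1 + y)))) * (1 - Real.cos θ) ≤
        Real.sqrt (3 / 2) * Real.exp (-(0.66 / s ^ 3 * θ ^ 2)) * (θ ^ 2 / 2) := by
      apply mul_le_mul _ h3 hc0 (by positivity)
      exact mul_le_mul h1 h2 (Real.exp_pos _).le (Real.sqrt_nonneg _)
    have h5 : Real.sqrt (3 / 2) * Real.exp (-(0.66 / s ^ 3 * θ ^ 2)) * (θ ^ 2 / 2) =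
        Real.sqrt (3 / 2) / 2 * (θ ^ 2 * Real.exp (-(0.66 / s ^ 3 * θ ^ 2))) := by ring
    linarith
  · -- large y
    have h1 : Real.sqrt (1 + y) ≤ 2 * (1 + 1 / s) := by
      have h2 : Real.sqrt (1 + y) ≤ 2 / (1 - r) := by
        apply Real.sqrt_le_iff.2
        refine ⟨by positivity, ?_⟩
        rw [div_pow, le_div_iff₀ (by positivity), add_mul, hydef]
        nlinarith [Real.neg_one_le_cos θ]
      have h3 := one_div_one_sub_exp s hs
      rw [← hr] at h3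
      have : 2 / (1 - r) = 2 * (1 / (1 - r)) := by ring
      rw [this] at h2
      linarith
    have h2 : Real.exp (-(1 / s * (y / (1 + y)))) ≤ Real.exp (-(1 / (3 * s))) := by
      apply Real.exp_le_exp.2
      rw [neg_le_neg_iff]
      have h3 : 1 / 3 ≤ y / (1 + y) := by
        rw [div_le_div_iff₀ (by norm_num) (by linarith)]
        linarith
      have := mul_le_mul_of_nonneg_left h3 (by positivity : 0 ≤ 1 / s)
      refine le_trans (le_of_eq ?_) this
      field_simp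
    have h3 : 1 - Real.cos θ ≤ 2 := by linarith [Real.neg_one_le_cos θ]
    have h4 : Real.sqrt (1 + y) * Real.exp (-(1 / s * (y / (1 + y)))) * (1 - Real.cos θ) ≤
        2 * (1 + 1 / s) * Real.exp (-(1 / (3 * s))) * 2 := by
      apply mul_le_mul _ h3 hc0 (by positivity)
      exact mul_le_mul h1 h2 (Real.exp_pos _).le (by positivity)
    linarith

/-- main term integral -/
lemma main_integral (c d δ : ℝ) (hc : 0 < c) (hd : 0 < d) (hδ : 0 < δ) (hdδ : 1 ≤ d * δ ^ 3) :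
    Real.sqrt Real.pi / (8 * (c * Real.sqrt c)) - d / (2 * c ^ 3) -
      5 / 256 * Real.sqrt Real.pi / (c ^ 2 * Real.sqrt c) ≤
    ∫ θ in (0 : ℝ)..δ, Real.exp (-(c * θ ^ 2)) *
      ((1 - d * θ ^ 3) * (θ ^ 2 / 2) - 5 / 96 * θ ^ 4) := by
  set f : ℝ → ℝ := fun θ => Real.exp (-(c * θ ^ 2)) *
      ((1 - d * θ ^ 3) * (θ ^ 2 / 2) - 5 / 96 * θ ^ 4) with hf
  have hfeq : f = fun θ => 1 / 2 * (θ ^ 2 * Real.exp (-(c * θ ^ 2))) -
      d / 2 * (θ ^ 5 * Real.exp (-(c * θ ^ 2))) - 5 / 96 * (θ ^ 4 * Real.exp (-(c * θ ^ 2))) := by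
    ext θ; simp only [hf]; ring
  have i2 := (gauss_int c hc 2).const_mul (1 / 2)
  have i5 := (gauss_int c hc 5).const_mul (d / 2)
  have i4 := (gauss_int c hc 4).const_mul (5 / 96)
  have hint : IntegrableOn f (Ioi 0) := by
    rw [hfeq]
    exact (i2.sub i5).sub i4
  have hval : ∫ θ in Ioi (0 : ℝ), f θ = Real.sqrt Real.pi / (8 * (c * Real.sqrt c)) -
      d / (2 * c ^ 3) - 5 / 256 * Real.sqrt Real.pi / (c ^ 2 * Real.sqrt c) := by
    have h1 : ∫ θ in Ioi (0 : ℝ), f θ = 1 / 2 * (∫ θ in Ioi (0 : ℝ), θ ^ 2 *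
        Real.exp (-(c * θ ^ 2))) - d / 2 * (∫ θ in Ioi (0 : ℝ), θ ^ 5 * Real.exp (-(c * θ ^ 2))) -
        5 / 96 * ∫ θ in Ioi (0 : ℝ), θ ^ 4 * Real.exp (-(c * θ ^ 2)) := by
      have i25 : Integrable (fun θ : ℝ => 1 / 2 * (θ ^ 2 * Real.exp (-(c * θ ^ 2))) -
        d / 2 * (θ ^ 5 * Real.exp (-(c * θ ^ 2)))) (volume.restrict (Ioi 0)) := i2.sub i5
      have a1 := integral_sub i25 i4
      have a2 := integral_sub i2 i5
      rw [integral_const_mul, integral_const_mul] at a2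
      rw [a2, integral_const_mul] at a1
      rw [hfeq]
      exact a1
    rw [h1, gauss2 c hc, gauss4 c hc, gauss5 c hc]
    have := Real.sqrt_pos.2 hc
    field_simp
    ring
  have hsplit : ∫ θ in Ioi (0 : ℝ), f θ = (∫ θ in Ioc (0 : ℝ) δ, f θ) + ∫ θ in Ioi δ, f θ := by
    rw [← Ioc_union_Ioi_eq_Ioi hδ.le]
    exact setIntegral_union (Ioc_disjoint_Ioi le_rfl) measurableSet_Ioi
      (hint.mono_set Ioc_subset_Ioi_self) (hint.mono_set (Ioi_subset_Ioi hδ.le))
  have hneg : ∫ θ in Ioi δ, f θ ≤ 0 := by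
    apply setIntegral_nonpos measurableSet_Ioi
    intro θ hθ
    have hθ' : δ < θ := hθ
    have h1 : δ ^ 3 ≤ θ ^ 3 := pow_le_pow_left₀ hδ.le hθ'.le 3
    have h2 : 1 ≤ d * θ ^ 3 := hdδ.trans (mul_le_mul_of_nonneg_left h1 hd.le)
    apply mul_nonpos_of_nonneg_of_nonpos (Real.exp_pos _).le
    have h3 : (1 - d * θ ^ 3) * (θ ^ 2 / 2) ≤ 0 :=
      mul_nonpos_of_nonpos_of_nonneg (by linarith) (by positivity)
    have h4 : 0 ≤ 5 / 96 * θ ^ 4 := by positivity
    linarith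
  rw [intervalIntegral.integral_of_le hδ.le]
  linarith

end Pool.Agent.H20.QCat
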