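import Pool.Agent.H20.QCat.Num

/-! # Numerics -/

namespace Pool.Agent.H20.QCat

open MeasureTheory Set

lemma c2_eq (q : ℝ) : c2 (q ^ 2) = Real.pi ^ 2 / 6 / q ^ 6 := by
  rw [c2, ← pow_mul]; norm_num; ring

lemma c3_eq (q : ℝ) (hq : 0 < q) : c3 (q ^ 2) = Real.pi ^ 2 / 6 * (1 + q ^ 2 / 3) / q ^ 8 := by
  rw [c3, ← pow_mul, ← pow_mul]
  field_simp
  ring

lemma kappa_lo : (1.64493 : ℝ) ≤ Real.pi ^ 2 / 6 := by
  have := Real.pi_gt_d6
  nlinarith

lemma kappa_hi : Real.pi ^ 2 / 6 ≤ (1.644935 : ℝ) := by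
  have := Real.pi_lt_d6
  have := Real.pi_gt_three
  nlinarith

lemma sqrt_kappa_hi : Real.sqrt (Real.pi ^ 2 / 6) ≤ 1.28256 := by
  rw [Real.sqrt_le_iff]
  refine ⟨by norm_num, kappa_hi.trans (by norm_num)⟩

lemma sqrt_kappa_lo : 1.28 ≤ Real.sqrt (Real.pi ^ 2 / 6) := by
  apply Real.le_sqrt_of_sq_le
  exact le_trans (by norm_num) kappa_lo

lemma sqrt_pi_lo : 1.7724 ≤ Real.sqrt Real.pi := by
  apply Real.le_sqrt_of_sq_le
  have := Real.pi_gt_d6
  linarith [(by norm_num : (1.7724 : ℝ) ^ 2 ≤ 3.141592)]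

lemma sqrt_pi_hi : Real.sqrt Real.pi ≤ 1.78 := by
  rw [Real.sqrt_le_iff]
  refine ⟨by norm_num, ?_⟩
  have := Real.pi_lt_d6
  linarith [(by norm_num : (3.141593 : ℝ) ≤ 1.78 ^ 2)]

/-- numeric lower bound of the main term -/
lemma numeric_main (q : ℝ) (hq : 0 < q) (hq' : q ≤ 1 / 10) :
    0.0864 * q ^ 9 ≤ Real.sqrt Real.pi / (8 * (c2 (q ^ 2) * Real.sqrt (c2 (q ^ 2)))) -
      c3 (q ^ 2) / (2 * c2 (q ^ 2) ^ 3) -
      5 / 256 * Real.sqrt Real.pi / (c2 (q ^ 2) ^ 2 * Real.sqrt (c2 (q ^ 2))) := by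
  have hκlo := kappa_lo
  have hκhi := kappa_hi
  set κ := Real.pi ^ 2 / 6 with hκ
  have hκ0 : 0 < κ := by linarith
  have hK1 := sqrt_kappa_hi
  have hK2 := sqrt_kappa_lo
  rw [← hκ] at hK1 hK2
  have hsq : Real.sqrt (c2 (q ^ 2)) = Real.sqrt κ / q ^ 3 := by
    rw [c2_eq, ← hκ, Real.sqrt_div hκ0.le]
    congr 1
    rw [show q ^ 6 = (q ^ 3) ^ 2 by ring, Real.sqrt_sq (by positivity)]
  rw [hsq, c2_eq, ← hκ, c3_eq q hq, ← hκ]
  set K := Real.sqrt κ with hK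
  have hK0 : 0 < K := by linarith
  have hp1 := sqrt_pi_lo
  have hp2 := sqrt_pi_hi
  set p := Real.sqrt Real.pi with hp
  have e1 : p / (8 * (κ / q ^ 6 * (K / q ^ 3))) = q ^ 9 * (p / (8 * (κ * K))) := by
    field_simp
  have e2 : κ * (1 + q ^ 2 / 3) / q ^ 8 / (2 * (κ / q ^ 6) ^ 3) =
      q ^ 9 * (q * (1 + q ^ 2 / 3) / (2 * κ ^ 2)) := by
    field_simp
  have e3 : 5 / 256 * p / ((κ / q ^ 6) ^ 2 * (K / q ^ 3)) =
      q ^ 9 * (5 / 256 * p * q ^ 6 / (κ ^ 2 * K)) := by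
    field_simp
  rw [e1, e2, e3, ← mul_sub, ← mul_sub, mul_comm (0.0864 : ℝ)]
  apply mul_le_mul_of_nonneg_left _ (by positivity)
  have h1 : (0.105 : ℝ) ≤ p / (8 * (κ * K)) := by
    rw [le_div_iff₀ (by positivity)]
    have : κ * K ≤ 1.644935 * 1.28256 := mul_le_mul hκhi hK1 hK0.le (by norm_num)
    nlinarith
  have h2 : q * (1 + q ^ 2 / 3) / (2 * κ ^ 2) ≤ 0.01855 := by
    rw [div_le_iff₀ (by positivity)]
    have h3 : (1.64493 : ℝ) ^ 2 ≤ κ ^ 2 := pow_le_pow_left₀ (by norm_num) hκlo 2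
    have h4 : q ^ 2 ≤ 1 / 100 := by nlinarith
    have h5 : q * (1 + q ^ 2 / 3) ≤ 1 / 10 * (1 + 1 / 100 / 3) := by
      apply mul_le_mul hq' _ (by positivity) (by norm_num)
      linarith
    nlinarith
  have h3 : 5 / 256 * p * q ^ 6 / (κ ^ 2 * K) ≤ 0.00001 := by
    rw [div_le_iff₀ (by positivity)]
    have h4 : q ^ 6 ≤ (1 / 10) ^ 6 := pow_le_pow_left₀ hq.le hq' 6
    have h5 : (1.64493 : ℝ) ^ 2 ≤ κ ^ 2 := pow_le_pow_left₀ (by norm_num) hκlo 2
    have h6 : (1.64493 : ℝ) ^ 2 * 1.28 ≤ κ ^ 2 * K := mul_le_mul h5 hK2 (by norm_num) (by positivity)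
    have h7 : 5 / 256 * p * q ^ 6 ≤ 5 / 256 * 1.78 * (1 / 10) ^ 6 := by
      apply mul_le_mul _ h4 (by positivity) (by norm_num)
      linarith
    have h8 : (5 : ℝ) / 256 * 1.78 * (1 / 10) ^ 6 ≤ 0.00001 * (1.64493 ^ 2 * 1.28) := by norm_num
    nlinarith
  linarith

lemma exp_lo : (17.66 : ℝ) ≤ Real.exp 2.8719 := by
  refine le_trans ?_ (Real.sum_le_exp_of_nonneg (by norm_num) 14)
  norm_num [Finset.sum_range_succ, Nat.factorial]

/-- the first tail term -/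
lemma numeric_tail1 (q δ : ℝ) (hq : 0 < q) (hq' : q ≤ 1 / 10) (hδ : 0 < δ)
    (h : c3 (q ^ 2) * δ ^ 3 = 3 / 2) :
    (δ / (2 * (0.66 / (q ^ 2) ^ 3)) + 1 / (4 * (0.66 / (q ^ 2) ^ 3) ^ 2 * δ)) *
      Real.exp (-(0.66 / (q ^ 2) ^ 3 * δ ^ 2)) ≤ 0.1052 * q ^ 9 := by
  set x := δ / q ^ 3 with hx
  have hx0 : 0 < x := by positivity
  have hδx : δ = x * q ^ 3 := by rw [hx]; field_simp
  have hκhi := kappa_hi
  have hκlo := kappa_lo
  set κ := Real.pi ^ 2 / 6 with hκ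
  have hx3 : κ * (1 + q ^ 2 / 3) * q * x ^ 3 = 3 / 2 := by
    rw [c3_eq q hq, ← hκ, hδx] at h
    rw [← h]
    field_simp
  have hxlo : 2.086 ≤ x := by
    by_contra hcon
    push Not at hcon
    have h1 : x ^ 3 ≤ 2.086 ^ 3 := pow_le_pow_left₀ hx0.le hcon.le 3
    have h4 : q ^ 2 ≤ 1 / 100 := by nlinarith
    have h2 : κ * (1 + q ^ 2 / 3) * q ≤ 1.644935 * (1 + 1 / 100 / 3) * (1 / 10) := by
      apply mul_le_mul _ hq' hq.le (by norm_num)
      apply mul_le_mul hκhi _ (by positivity) (by norm_num)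
      linarith
    have h3 : κ * (1 + q ^ 2 / 3) * q * x ^ 3 ≤
        1.644935 * (1 + 1 / 100 / 3) * (1 / 10) * 2.086 ^ 3 :=
      mul_le_mul h2 h1 (by positivity) (by norm_num)
    rw [hx3] at h3
    norm_num at h3
  have e1 : (δ / (2 * (0.66 / (q ^ 2) ^ 3)) + 1 / (4 * (0.66 / (q ^ 2) ^ 3) ^ 2 * δ)) =
      q ^ 9 * (x / 1.32 + 1 / (1.7424 * x)) := by
    rw [hδx]
    field_simp
    norm_num
    ring
  have e2 : 0.66 / (q ^ 2) ^ 3 * δ ^ 2 = 0.66 * x ^ 2 := by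
    rw [hδx]
    field_simp
  rw [e1, e2, mul_assoc, mul_comm (0.1052 : ℝ)]
  apply mul_le_mul_of_nonneg_left _ (by positivity)
  set t := x - 2.086 with ht
  have ht0 : 0 ≤ t := by linarith
  have hxt : x = 2.086 + t := by rw [ht]; ring
  have h1 : x / 1.32 + 1 / (1.7424 * x) ≤ 1.8556 * Real.exp (t / 2) := by
    have h2 := Real.add_one_le_exp (t / 2)
    have h3 : 1 / (1.7424 * x) ≤ 1 / (1.7424 * 2.086) := by
      apply one_div_le_one_div_of_le (by norm_num)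
      linarith
    have h4 : x / 1.32 + 1 / (1.7424 * 2.086) ≤ 1.8556 * (t / 2 + 1) := by
      rw [hxt]
      norm_num
      linarith
    have := mul_le_mul_of_nonneg_left h2 (by norm_num : (0 : ℝ) ≤ 1.8556)
    linarith
  have h2 : Real.exp (-(0.66 * x ^ 2)) ≤ Real.exp (-2.8719) * Real.exp (-(t / 2)) := by
    rw [← Real.exp_add]
    apply Real.exp_le_exp.2
    rw [hxt]
    nlinarith [sq_nonneg t]
  have h3 : Real.exp (-2.8719) ≤ 1 / 17.66 := by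
    rw [Real.exp_neg, ← one_div]
    exact one_div_le_one_div_of_le (by norm_num) exp_lo
  have h4 : Real.exp (t / 2) * Real.exp (-(t / 2)) = 1 := by rw [← Real.exp_add]; simp
  calc (x / 1.32 + 1 / (1.7424 * x)) * Real.exp (-(0.66 * x ^ 2))
      ≤ (1.8556 * Real.exp (t / 2)) * (Real.exp (-2.8719) * Real.exp (-(t / 2))) :=
        mul_le_mul h1 h2 (Real.exp_pos _).le (by positivity)
    _ = 1.8556 * Real.exp (-2.8719) * (Real.exp (t / 2) * Real.exp (-(t / 2))) := by ring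
    _ = 1.8556 * Real.exp (-2.8719) := by rw [h4, mul_one]
    _ ≤ 1.8556 * (1 / 17.66) := mul_le_mul_of_nonneg_left h3 (by norm_num)
    _ ≤ 0.1052 := by norm_num

/-- the second tail term -/
lemma numeric_tail2 (q : ℝ) (hq : 0 < q) (hq' : q ≤ 1 / 10) :
    Real.pi * (4 * (1 + 1 / q ^ 2) * Real.exp (-(1 / (3 * q ^ 2)))) ≤ 0.0061 * q ^ 9 := by
  set N := 1 / q ^ 2 with hN
  have hN0 : 0 < N := by positivity
  have hN100 : 100 ≤ N := by
    rw [hN, le_div_iff₀ (by positivity)]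
    nlinarith
  have e1 : 1 / (3 * q ^ 2) = N / 3 := by rw [hN]; field_simp
  rw [e1]
  -- N^6 e^{-N/3} ≤ 100^6 e^{-33}
  have h1 : N ^ 6 * Real.exp (-(N / 3)) ≤ 100 ^ 6 * Real.exp (-33) := by
    have h2 : N / 100 ≤ Real.exp ((N - 100) / 100) := by
      have := Real.add_one_le_exp ((N - 100) / 100)
      linarith
    have h3 : (N / 100) ^ 6 ≤ Real.exp ((N - 100) / 100) ^ 6 :=
      pow_le_pow_left₀ (by positivity) h2 6
    rw [← Real.exp_nat_mul] at h3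
    have h4 : N ^ 6 = 100 ^ 6 * (N / 100) ^ 6 := by ring
    rw [h4, mul_assoc]
    apply mul_le_mul_of_nonneg_left _ (by positivity)
    refine (mul_le_mul_of_nonneg_right h3 (Real.exp_pos _).le).trans ?_
    rw [← Real.exp_add]
    apply Real.exp_le_exp.2
    push_cast
    linarith
  have h2 : Real.exp (-33) ≤ 4.72e-15 := by
    have h3 : Real.exp (-33) = Real.exp (-1) ^ 33 := by
      rw [← Real.exp_nat_mul]; norm_num
    rw [h3]
    have h4 := Real.exp_neg_one_lt_d9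
    have h5 : Real.exp (-1) ^ 33 ≤ 0.3678794412 ^ 33 :=
      pow_le_pow_left₀ (Real.exp_pos _).le h4.le 33
    refine h5.trans ?_
    norm_num
  have h3 : N ^ 6 * Real.exp (-(N / 3)) ≤ 0.00472 := by
    refine h1.trans ?_
    have := mul_le_mul_of_nonneg_left h2 (by norm_num : (0 : ℝ) ≤ 100 ^ 6)
    refine this.trans ?_
    norm_num
  have h4 : 1 + N ≤ 1.01 * N := by linarith
  -- 1 ≤ q^9 * N^5 / 10 ... in the form  (1+N) = q^9 * (1+N)/q^9
  have h5 : 1 + N ≤ q ^ 9 * (0.101 * N ^ 6) := by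
    have h6 : q ^ 9 * (0.101 * N ^ 6) = 0.101 * N / q := by
      rw [hN]
      field_simp
    rw [h6, le_div_iff₀ hq]
    nlinarith
  have hpi := Real.pi_lt_d6
  have hpi0 := Real.pi_pos
  have he := Real.exp_pos (-(N / 3))
  calc Real.pi * (4 * (1 + N) * Real.exp (-(N / 3)))
      ≤ 3.141593 * (4 * (q ^ 9 * (0.101 * N ^ 6)) * Real.exp (-(N / 3))) := by
        apply mul_le_mul hpi.le _ (by positivity) (by norm_num)
        apply mul_le_mul_of_nonneg_right _ he.le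
        linarith
    _ = q ^ 9 * (3.141593 * 4 * 0.101 * (N ^ 6 * Real.exp (-(N / 3)))) := by ring
    _ ≤ q ^ 9 * (3.141593 * 4 * 0.101 * 0.00472) := by
        apply mul_le_mul_of_nonneg_left _ (by positivity)
        apply mul_le_mul_of_nonneg_left h3 (by norm_num)
    _ ≤ 0.0061 * q ^ 9 := by
        rw [mul_comm (0.0061 : ℝ)]
        apply mul_le_mul_of_nonneg_left _ (by positivity)
        norm_num

lemma sqrt_three_halves : Real.sqrt (3 / 2) / 2 ≤ 0.6125 := by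
  have : Real.sqrt (3 / 2) ≤ 1.225 := by
    rw [Real.sqrt_le_iff]
    norm_num
  linarith

end Pool.Agent.H20.QCat
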