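import Pool.Agent.H20.QCat.Def

/-! # q-Catalan numbers: algebra

q-integers, q-factorials, Gaussian binomials, the q-Catalan polynomial. -/

namespace Pool.Agent.H20.QCat

open Polynomial Finset

lemma qfact_zero : qfact 0 = 1 := by simp [qfact]

lemma qfact_succ (m : ℕ) : qfact (m + 1) = qfact m * qnum (m + 1) := by
  simp [qfact, prod_range_succ]

lemma qnum_mul (m : ℕ) : qnum m * (X - 1) = X ^ m - 1 := geom_sum_mul _ _

lemma qnum_one : qnum 1 = 1 := by simp [qnum]

lemma qnum_succ (m : ℕ) : qnum (m + 1) = qnum m + X ^ m := by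
  simp [qnum, sum_range_succ]

lemma qnum_succ' (m : ℕ) : qnum (m + 1) = 1 + X * qnum m := by
  rw [qnum, qnum, sum_range_succ', mul_sum, add_comm]
  simp [pow_succ']

lemma qnum_add (a b : ℕ) : qnum (a + b) = qnum a + X ^ a * qnum b := by
  rw [qnum, qnum, qnum, sum_range_add, mul_sum]
  simp [pow_add]

lemma qnum_monic (m : ℕ) : (qnum (m + 1)).Monic := monic_geom_sum_X (by omega)

lemma qfact_monic (m : ℕ) : (qfact m).Monic := monic_prod_of_monic _ _ fun i _ => qnum_monic i

/-- Gaussian binomial coefficients. -/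
noncomputable def qb : ℕ → ℕ → ℤ[X]
  | _, 0 => 1
  | 0, _ + 1 => 0
  | m + 1, k + 1 => qb m (k + 1) + X ^ (m - k) * qb m k

@[simp] lemma qb_zero_right (m : ℕ) : qb m 0 = 1 := by cases m <;> rfl

@[simp] lemma qb_zero_succ (k : ℕ) : qb 0 (k + 1) = 0 := rfl

lemma qb_succ_succ (m k : ℕ) : qb (m + 1) (k + 1) = qb m (k + 1) + X ^ (m - k) * qb m k := rfl

lemma qb_eq_zero : ∀ m k : ℕ, m < k → qb m k = 0
  | 0, 0, h => by omega
  | 0, k + 1, _ => rfl
  | m + 1, 0, h => by omega
  | m + 1, k + 1, h => by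
    rw [qb_succ_succ, qb_eq_zero m (k + 1) (by omega), qb_eq_zero m k (by omega)]
    simp

lemma qb_self : ∀ m : ℕ, qb m m = 1
  | 0 => rfl
  | m + 1 => by
    rw [qb_succ_succ, qb_eq_zero m (m + 1) (by omega), qb_self m]
    simp

lemma qb_mul : ∀ m j k : ℕ, j + k = m → qb (j + k) k * (qfact k * qfact j) = qfact (j + k)
  | 0, j, k, h => by
    obtain rfl : j = 0 := by omega
    obtain rfl : k = 0 := by omega
    simp [qfact_zero]
  | m + 1, j, 0, h => by simp [qfact_zero]
  | m + 1, 0, k + 1, h => by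
    rw [zero_add, qb_self]
    simp [qfact_zero]
  | m + 1, j + 1, k + 1, h => by
    have h1 := qb_mul m j (k + 1) (by omega)
    have h2 := qb_mul m (j + 1) k (by omega)
    have e1 : j + 1 + (k + 1) = (j + (k + 1)) + 1 := by omega
    have e2 : j + 1 + k = j + (k + 1) := by omega
    rw [e2] at h2
    have e3 : j + (k + 1) - k = j + 1 := by omega
    rw [e1, qb_succ_succ, qfact_succ (j + (k + 1)), e3]
    have e4 : j + (k + 1) + 1 = (j + 1) + (k + 1) := by omega
    rw [e4, qnum_add (j + 1) (k + 1)]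
    calc (qb (j + (k + 1)) (k + 1) + X ^ (j + 1) * qb (j + (k + 1)) k) *
          (qfact (k + 1) * qfact (j + 1))
        = (qb (j + (k + 1)) (k + 1) * (qfact (k + 1) * qfact j)) * qnum (j + 1) +
          X ^ (j + 1) * ((qb (j + (k + 1)) k * (qfact k * qfact (j + 1))) * qnum (k + 1)) := by
          rw [qfact_succ j, qfact_succ k]; ring
      _ = _ := by rw [h1, h2]; ring

/-- the Catalan polynomial as a difference of Gaussian binomials -/
lemma qcat_aux (n : ℕ) :
    (qb (2 * n) n - X * qb (2 * n) (n + 1)) * (qnum (n + 1) * (qfact n * qfact n)) =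
      qfact (2 * n) := by
  have h1 := qb_mul (2 * n) n n (by omega)
  rw [← two_mul] at h1
  have h2 : qb (2 * n) (n + 1) * (qnum (n + 1) * (qfact n * qfact n)) =
      qfact (2 * n) * qnum n := by
    rcases Nat.eq_zero_or_pos n with rfl | hn
    · simp [qnum, qb_eq_zero]
    · obtain ⟨m, rfl⟩ : ∃ m, n = m + 1 := ⟨n - 1, by omega⟩
      have h3 := qb_mul (2 * (m + 1)) m (m + 1 + 1) (by omega)
      have e : m + (m + 1 + 1) = 2 * (m + 1) := by omega
      rw [e] at h3
      rw [← h3, qfact_succ (m + 1), qfact_succ m]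
      ring
  have h3 : qnum (n + 1) = 1 + X * qnum n := qnum_succ' n
  calc (qb (2 * n) n - X * qb (2 * n) (n + 1)) * (qnum (n + 1) * (qfact n * qfact n))
      = qnum (n + 1) * (qb (2 * n) n * (qfact n * qfact n)) -
        X * (qb (2 * n) (n + 1) * (qnum (n + 1) * (qfact n * qfact n))) := by ring
    _ = qnum (n + 1) * qfact (2 * n) - X * (qfact (2 * n) * qnum n) := by rw [h1, h2]
    _ = _ := by rw [h3]; ring

lemma den_monic (n : ℕ) : (qnum (n + 1) * (qfact n * qfact n)).Monic :=
  (qnum_monic n).mul ((qfact_monic n).mul (qfact_monic n))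

lemma qCatalan_eq (n : ℕ) : qCatalan n = qb (2 * n) n - X * qb (2 * n) (n + 1) := by
  rw [qCatalan, ← qcat_aux n]
  rw [mul_comm]
  exact mul_divByMonic_cancel_left _ (den_monic n)

/-- exactness of the division defining `qCatalan` -/
lemma qCatalan_mul (n : ℕ) :
    qCatalan n * (qnum (n + 1) * (qfact n * qfact n)) = qfact (2 * n) := by
  rw [qCatalan_eq, qcat_aux]

/-- cancelled form -/
lemma qCatalan_prod (n : ℕ) (hn : 1 ≤ n) :
    qCatalan n * ∏ i ∈ Icc 2 n, qnum i = ∏ i ∈ Icc 2 n, qnum (n + i) := by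
  have h := qCatalan_mul n
  have h1 : qfact n = ∏ i ∈ Icc 2 n, qnum i := by
    obtain ⟨m, rfl⟩ : ∃ m, n = m + 1 := ⟨n - 1, by omega⟩
    rw [qfact, prod_range_succ', qnum_one, mul_one]
    rw [← Finset.prod_image (s := range m) (g := fun i => i + 2) (f := qnum)]
    · congr 1
      ext i
      simp only [mem_image, mem_range, mem_Icc]
      constructor
      · rintro ⟨a, ha, rfl⟩; omega
      · rintro ⟨h1, h2⟩; exact ⟨i - 2, by omega, by omega⟩
    · intro a _ b _ h; simpa using h
  have h2 : qfact (2 * n) = qfact n * (qnum (n + 1) * ∏ i ∈ Icc 2 n, qnum (n + i)) := by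
    obtain ⟨m, rfl⟩ : ∃ m, n = m + 1 := ⟨n - 1, by omega⟩
    rw [two_mul]
    conv_lhs => rw [qfact]
    rw [prod_range_add, ← qfact]
    congr 1
    rw [prod_range_succ']
    rw [mul_comm]
    congr 1
    show ∏ k ∈ range m, qnum (m + 1 + (k + 2)) = _
    rw [← Finset.prod_image (s := range m) (g := fun i => i + 2)
      (f := fun i => qnum (m + 1 + i))]
    · congr 1
      ext i
      simp only [mem_image, mem_range, mem_Icc]
      constructor
      · rintro ⟨a, ha, rfl⟩; omega
      · rintro ⟨h1, h2⟩; exact ⟨i - 2, by omega, by omega⟩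
    · intro a _ b _ h; simpa using h
  rw [h2] at h
  have h3 : qnum (n + 1) * qfact n ≠ 0 :=
    mul_ne_zero (qnum_monic n).ne_zero (qfact_monic n).ne_zero
  rw [← h1]
  apply mul_left_cancel₀ h3
  calc qnum (n + 1) * qfact n * (qCatalan n * qfact n)
      = qCatalan n * (qnum (n + 1) * (qfact n * qfact n)) := by ring
    _ = _ := by rw [h]; ring

/-- the q-binomial theorem -/
lemma qbinom (R : Type*) [CommRing R] (x z : R) (m : ℕ) :
    ∏ j ∈ range m, (1 + x * z ^ j) =
      ∑ k ∈ range (m + 1), aeval z (qb m k) * z ^ (k.choose 2) * x ^ k := by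
  induction m with
  | zero => simp
  | succ m ih =>
    rw [prod_range_succ, ih]
    rw [Finset.sum_range_succ' _ (m + 1)]
    have h1 : ∀ k ∈ range (m + 1),
        aeval z (qb (m + 1) (k + 1)) * z ^ ((k + 1).choose 2) * x ^ (k + 1) =
        aeval z (qb m (k + 1)) * z ^ ((k + 1).choose 2) * x ^ (k + 1) +
        (x * z ^ m) * (aeval z (qb m k) * z ^ (k.choose 2) * x ^ k) := by
      intro k hk
      rw [mem_range] at hk
      have e : (k + 1).choose 2 = k + k.choose 2 := by
        rw [Nat.choose_succ_succ' k 1, Nat.choose_one_right]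
      have e2 : z ^ m = z ^ (m - k) * z ^ k := by rw [← pow_add]; congr 1; omega
      rw [qb_succ_succ, map_add, map_mul, map_pow, aeval_X, e, e2]
      ring
    rw [sum_congr rfl h1, sum_add_distrib, ← mul_sum]
    have h2 : ∑ k ∈ range (m + 1), aeval z (qb m k) * z ^ (k.choose 2) * x ^ k =
        ∑ k ∈ range (m + 1), aeval z (qb m (k + 1)) * z ^ ((k + 1).choose 2) * x ^ (k + 1) + 1 := by
      have h3 : ∑ k ∈ range (m + 1 + 1), aeval z (qb m k) * z ^ (k.choose 2) * x ^ k =
          ∑ k ∈ range (m + 1), aeval z (qb m k) * z ^ (k.choose 2) * x ^ k := by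
        rw [sum_range_succ _ (m + 1), qb_eq_zero m (m + 1) (by omega)]
        simp
      rw [← h3, Finset.sum_range_succ']
      simp
    set S := ∑ k ∈ range (m + 1), aeval z (qb m k) * z ^ (k.choose 2) * x ^ k with hS
    set T := ∑ k ∈ range (m + 1),
      aeval z (qb m (k + 1)) * z ^ ((k + 1).choose 2) * x ^ (k + 1) with hT
    have h4 : aeval z (qb (m + 1) 0) * z ^ (Nat.choose 0 2) * x ^ 0 = 1 := by simp
    rw [h4]
    linear_combination h2

end Pool.Agent.H20.QCat
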