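import Pool.Agent.H20.QCat.Poly

/-! # q-Catalan numbers: symmetry, positivity, unimodality of Gaussian binomials at a point -/

namespace Pool.Agent.H20.QCat

open Polynomial Finset

lemma qb_ratio (m k : ℕ) (h : k < m) : qb m (k + 1) * qnum (k + 1) = qb m k * qnum (m - k) := by
  obtain ⟨j, rfl⟩ : ∃ j, m = j + (k + 1) := ⟨m - (k + 1), by omega⟩
  have h1 := qb_mul _ j (k + 1) rfl
  have h2 := qb_mul _ (j + 1) k rfl
  have e : j + 1 + k = j + (k + 1) := by omega
  have e2 : j + (k + 1) - k = j + 1 := by omega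
  rw [e] at h2
  rw [e2]
  have h3 : qfact k * qfact j ≠ 0 :=
    mul_ne_zero (qfact_monic k).ne_zero (qfact_monic j).ne_zero
  apply mul_left_cancel₀ h3
  calc qfact k * qfact j * (qb (j + (k + 1)) (k + 1) * qnum (k + 1))
      = qb (j + (k + 1)) (k + 1) * (qfact (k + 1) * qfact j) := by rw [qfact_succ k]; ring
    _ = qb (j + (k + 1)) k * (qfact k * qfact (j + 1)) := by rw [h1, h2]
    _ = _ := by rw [qfact_succ j]; ring

lemma aeval_qnum {R : Type*} [CommRing R] (r : R) (m : ℕ) :
    aeval r (qnum m) = ∑ i ∈ range m, r ^ i := by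
  simp [qnum]

lemma aeval_qnum_pos {r : ℝ} (hr : 0 < r) (m : ℕ) : 0 < aeval r (qnum (m + 1)) := by
  rw [aeval_qnum]
  exact sum_pos (fun i _ => pow_pos hr i) (by simp)

lemma aeval_qnum_mono {r : ℝ} (hr : 0 < r) {a b : ℕ} (h : a ≤ b) :
    aeval r (qnum a) ≤ aeval r (qnum b) := by
  rw [aeval_qnum, aeval_qnum]
  exact sum_le_sum_of_subset_of_nonneg (range_mono h) fun i _ _ => (pow_pos hr i).le

lemma aeval_qfact_pos {r : ℝ} (hr : 0 < r) (m : ℕ) : 0 < aeval r (qfact m) := by
  rw [qfact, map_prod]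
  exact prod_pos fun i _ => aeval_qnum_pos hr i

lemma aeval_qb_pos {r : ℝ} (hr : 0 < r) {m k : ℕ} (h : k ≤ m) : 0 < aeval r (qb m k) := by
  obtain ⟨j, rfl⟩ : ∃ j, m = j + k := ⟨m - k, by omega⟩
  have h1 := congrArg (aeval r) (qb_mul _ j k rfl)
  rw [map_mul, map_mul] at h1
  have h2 := mul_pos (aeval_qfact_pos hr k) (aeval_qfact_pos hr j)
  have h3 := aeval_qfact_pos hr (j + k)
  rw [← h1] at h3
  exact (mul_pos_iff_of_pos_right h2).mp h3

lemma aeval_qb_nonneg {r : ℝ} (hr : 0 < r) (m k : ℕ) : 0 ≤ aeval r (qb m k) := by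
  rcases le_or_gt k m with h | h
  · exact (aeval_qb_pos hr h).le
  · rw [qb_eq_zero m k h]; simp

lemma aeval_qb_up {r : ℝ} (hr : 0 < r) {n k : ℕ} (h : k < n) :
    aeval r (qb (2 * n) k) ≤ aeval r (qb (2 * n) (k + 1)) := by
  have h1 := congrArg (aeval r) (qb_ratio (2 * n) k (by omega))
  rw [map_mul, map_mul] at h1
  have h2 : aeval r (qnum (k + 1)) ≤ aeval r (qnum (2 * n - k)) :=
    aeval_qnum_mono hr (by omega)
  have h3 := aeval_qnum_pos hr k
  have h4 := aeval_qb_nonneg hr (2 * n) k
  have h5 : aeval r (qb (2 * n) k) * aeval r (qnum (k + 1)) ≤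
      aeval r (qb (2 * n) (k + 1)) * aeval r (qnum (k + 1)) := by
    rw [h1]; exact mul_le_mul_of_nonneg_left h2 h4
  exact le_of_mul_le_mul_right h5 h3

lemma aeval_qb_down {r : ℝ} (hr : 0 < r) {n k : ℕ} (h : n ≤ k) (h' : k < 2 * n) :
    aeval r (qb (2 * n) (k + 1)) ≤ aeval r (qb (2 * n) k) := by
  have h1 := congrArg (aeval r) (qb_ratio (2 * n) k (by omega))
  rw [map_mul, map_mul] at h1
  have h2 : aeval r (qnum (2 * n - k)) ≤ aeval r (qnum (k + 1)) :=
    aeval_qnum_mono hr (by omega)
  have h3 := aeval_qnum_pos hr k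
  have h4 := aeval_qb_nonneg hr (2 * n) k
  have h5 : aeval r (qb (2 * n) (k + 1)) * aeval r (qnum (k + 1)) ≤
      aeval r (qb (2 * n) k) * aeval r (qnum (k + 1)) := by
    rw [h1]; exact mul_le_mul_of_nonneg_left h2 h4
  exact le_of_mul_le_mul_right h5 h3

lemma aeval_qb_le {r : ℝ} (hr : 0 < r) (n k : ℕ) :
    aeval r (qb (2 * n) k) ≤ aeval r (qb (2 * n) n) := by
  rcases le_or_gt k n with h | h
  · obtain ⟨d, rfl⟩ : ∃ d, n = k + d := ⟨n - k, by omega⟩
    have : ∀ e, e ≤ d → aeval r (qb (2 * (k + d)) k) ≤ aeval r (qb (2 * (k + d)) (k + e)) := by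
      intro e
      induction e with
      | zero => intro _; simp
      | succ e ih =>
        intro he
        exact (ih (by omega)).trans (aeval_qb_up hr (by omega))
    exact this d le_rfl
  · rcases le_or_gt k (2 * n) with h' | h'
    · obtain ⟨d, rfl⟩ : ∃ d, k = n + d := ⟨k - n, by omega⟩
      have : ∀ e, e ≤ d → aeval r (qb (2 * n) (n + e)) ≤ aeval r (qb (2 * n) n) := by
        intro e
        induction e with
        | zero => intro _; simp
        | succ e ih =>
          intro he
          exact (aeval_qb_down hr (n := n) (k := n + e) (by omega) (by omega)).trans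
            (ih (by omega))
      exact this d le_rfl
    · rw [qb_eq_zero _ _ h', map_zero]; exact aeval_qb_nonneg hr _ _

/-- relation between the Gaussian binomial and the Catalan polynomial -/
lemma qCatalan_qnum (n : ℕ) : qCatalan n * qnum (n + 1) = qb (2 * n) n := by
  have h1 := qCatalan_mul n
  have h2 := qb_mul (2 * n) n n (by omega)
  rw [← two_mul] at h2
  have h3 : qfact n * qfact n ≠ 0 :=
    mul_ne_zero (qfact_monic n).ne_zero (qfact_monic n).ne_zero
  apply mul_right_cancel₀ h3
  rw [h2, ← h1, mul_assoc]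

lemma aeval_qCatalan_pos {r : ℝ} (hr : 0 < r) (n : ℕ) : 0 < aeval r (qCatalan n) := by
  have h1 := congrArg (aeval r) (qCatalan_qnum n)
  rw [map_mul] at h1
  have h2 := aeval_qb_pos hr (m := 2 * n) (k := n) (by omega)
  rw [← h1] at h2
  have h3 := aeval_qnum_pos hr n
  exact (mul_pos_iff_of_pos_right h3).mp h2

/-! ### symmetry -/

lemma natDegree_qnum (m : ℕ) : (qnum (m + 1)).natDegree = m := by
  induction m with
  | zero => rw [qnum_one]; simp
  | succ m ih =>
    rw [qnum_succ]
    rw [natDegree_add_eq_right_of_natDegree_lt]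
    · simp
    · rw [ih]; simp

lemma coeff_qnum (m k : ℕ) : (qnum m).coeff k = if k < m then 1 else 0 := by
  rw [qnum, finsetSum_coeff]
  simp only [coeff_X_pow]
  rw [Finset.sum_ite_eq]
  simp

lemma reverse_qnum (m : ℕ) : (qnum (m + 1)).reverse = qnum (m + 1) := by
  ext k
  rw [coeff_reverse, natDegree_qnum, coeff_qnum, coeff_qnum]
  rcases le_or_gt k m with h | h
  · rw [revAt_le h, if_pos (by omega), if_pos (by omega)]
  · rw [revAt_eq_self_of_lt h]

lemma reverse_prod_qnum (s : Finset ℕ) (f : ℕ → ℕ) :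
    (∏ i ∈ s, qnum (f i + 1)).reverse = ∏ i ∈ s, qnum (f i + 1) := by
  classical
  induction s using Finset.induction_on with
  | empty =>
    have : (1 : ℤ[X]) = C 1 := by simp
    rw [prod_empty, this, reverse_C]
  | insert a s ha ih =>
    rw [prod_insert ha, reverse_mul_of_domain, ih, reverse_qnum]

lemma qCatalan_ne_zero (n : ℕ) : qCatalan n ≠ 0 := by
  intro h
  have := qCatalan_mul n
  rw [h, zero_mul] at this
  exact (qfact_monic _).ne_zero this.symm

lemma reverse_qCatalan (n : ℕ) : (qCatalan n).reverse = qCatalan n := by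
  have h := qCatalan_mul n
  have h1 := congrArg Polynomial.reverse h
  have hf : ∀ m, (qfact m).reverse = qfact m := fun m => reverse_prod_qnum (range m) id
  rw [reverse_mul_of_domain, reverse_mul_of_domain, reverse_mul_of_domain, reverse_qnum, hf, hf,
    ← h] at h1
  exact mul_right_cancel₀ (den_monic n).ne_zero h1

lemma natDegree_prod_qnum (s : Finset ℕ) (f : ℕ → ℕ) :
    (∏ i ∈ s, qnum (f i + 1)).natDegree = ∑ i ∈ s, f i := by
  rw [natDegree_prod_of_monic _ _ fun i _ => qnum_monic _]
  exact sum_congr rfl fun i _ => natDegree_qnum _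

lemma natDegree_qCatalan (n : ℕ) : (qCatalan n).natDegree = n * (n - 1) := by
  have h := congrArg natDegree (qCatalan_mul n)
  have h0 : ∀ m, (qfact m).natDegree = ∑ i ∈ range m, i := fun m =>
    natDegree_prod_qnum (range m) id
  rw [natDegree_mul (qCatalan_ne_zero n) (den_monic n).ne_zero,
    (qnum_monic n).natDegree_mul ((qfact_monic n).mul (qfact_monic n)),
    (qfact_monic n).natDegree_mul (qfact_monic n), natDegree_qnum, h0, h0] at h
  have h1 := Finset.sum_range_id_mul_two n
  have h2 := Finset.sum_range_id_mul_two (2 * n)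
  rcases Nat.eq_zero_or_pos n with rfl | hn
  · simpa using h
  · obtain ⟨m, rfl⟩ : ∃ m, n = m + 1 := ⟨n - 1, by omega⟩
    have e1 : m + 1 - 1 = m := by omega
    have e2 : 2 * (m + 1) - 1 = 2 * m + 1 := by omega
    rw [e1] at h1
    rw [e2] at h2
    rw [e1]
    nlinarith

lemma qCatalan_coeff_symm (n k : ℕ) (h : k ≤ n * (n - 1)) :
    (qCatalan n).coeff (n * (n - 1) - k) = (qCatalan n).coeff k := by
  conv_rhs => rw [← reverse_qCatalan n]
  rw [coeff_reverse, natDegree_qCatalan, revAt_le h]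

lemma qCatalan_coeff_zero (n : ℕ) : (qCatalan n).coeff 0 = 1 := by
  have h := congrArg (fun P => P.coeff 0) (qCatalan_qnum n)
  simp only [mul_coeff_zero, coeff_qnum] at h
  rw [if_pos (by omega), mul_one] at h
  rw [h]
  have : ∀ m k, k ≤ m → (qb m k).coeff 0 = 1 := by
    intro m
    induction m with
    | zero => intro k hk; obtain rfl : k = 0 := by omega
              simp
    | succ m ih =>
      intro k hk
      rcases k with _ | k
      · simp
      · rw [qb_succ_succ, coeff_add]
        rcases Nat.lt_or_ge k m with h | h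
        · rw [ih (k + 1) (by omega)]
          have : ¬ (0 = m - k) := by omega
          rw [mul_coeff_zero, coeff_X_pow, if_neg this]
          simp
        · obtain rfl : k = m := by omega
          rw [qb_eq_zero k (k + 1) (by omega)]
          simp [ih k le_rfl]
  exact this _ _ (by omega)

/-- `2 F'(1) = n(n-1) F(1)` in terms of coefficients. -/
lemma qCatalan_mean (n : ℕ) :
    2 * ∑ j ∈ range (n * (n - 1) + 1), (j : ℝ) * ((qCatalan n).coeff j : ℝ) =
      (n * (n - 1) : ℕ) * ∑ j ∈ range (n * (n - 1) + 1), ((qCatalan n).coeff j : ℝ) := by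
  set D := n * (n - 1) with hD
  have h1 : ∑ j ∈ range (D + 1), (j : ℝ) * ((qCatalan n).coeff j : ℝ) =
      ∑ j ∈ range (D + 1), ((D : ℝ) - j) * ((qCatalan n).coeff j : ℝ) := by
    rw [← Finset.sum_range_reflect]
    refine sum_congr rfl fun j hj => ?_
    rw [mem_range] at hj
    have e : D + 1 - 1 - j = D - j := by omega
    rw [e, hD, qCatalan_coeff_symm n j (by omega), Nat.cast_sub (by omega)]
  rw [two_mul]
  nth_rewrite 1 [h1]
  rw [← sum_add_distrib, mul_sum]
  exact sum_congr rfl fun j _ => by ring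

end Pool.Agent.H20.QCat
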