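import Pool.Agent.H20.QCat.Near

/-! # The regime `0 ≤ s ≤ 1/(4n)` -/

namespace Pool.Agent.H20.QCat

open Polynomial Finset

namespace RegB

/-- `(1 - exp(-w)) / w`, extended by `1` at `0`. -/
noncomputable def H : ℂ → ℂ := dslope (fun w => -Complex.exp (-w)) 0

noncomputable def L0 (w : ℂ) : ℂ := Complex.log (H w)
noncomputable def L1 : ℂ → ℂ := deriv L0
noncomputable def L2 : ℂ → ℂ := deriv L1
noncomputable def L3 : ℂ → ℂ := deriv L2

lemma mul_H (w : ℂ) : w * H w = 1 - Complex.exp (-w) := by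
  have := sub_smul_dslope (fun w => -Complex.exp (-w)) (0 : ℂ) w
  simp only [sub_zero, smul_eq_mul, neg_zero, Complex.exp_zero] at this
  rw [H, this]
  ring

lemma differentiable_H : Differentiable ℂ H := by
  have h1 : DifferentiableOn ℂ (fun w : ℂ => -Complex.exp (-w)) Set.univ := by fun_prop
  have h2 := (Complex.differentiableOn_dslope (c := (0 : ℂ)) (f := fun w : ℂ => -Complex.exp (-w))
    (s := Set.univ) Filter.univ_mem).2 h1
  exact differentiableOn_univ.1 h2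

lemma H_zero : H 0 = 1 := by
  rw [H, dslope_same]
  have : HasDerivAt (fun w : ℂ => -Complex.exp (-w)) 1 0 := by
    have h := ((hasDerivAt_id (0 : ℂ)).neg.cexp).neg
    have e : (1 : ℂ) = -(Complex.exp ((-id : ℂ → ℂ) 0) * -1) := by simp
    rw [e]
    exact h
  exact this.deriv

lemma norm_H_sub_one (w : ℂ) (hw : ‖w‖ ≤ 1) : ‖H w - 1‖ ≤ ‖w‖ := by
  by_cases h : w = 0
  · subst h; rw [H_zero]; simp
  · have h1 := mul_H w
    have h2 := Complex.norm_exp_sub_one_sub_id_le (x := -w) (by rwa [norm_neg])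
    have h3 : w * (H w - 1) = -(Complex.exp (-w) - 1 - -w) := by rw [mul_sub, h1]; ring
    have h4 : ‖w‖ * ‖H w - 1‖ ≤ ‖w‖ * ‖w‖ := by
      rw [← norm_mul, h3, norm_neg]
      refine h2.trans ?_
      rw [norm_neg, sq]
    exact le_of_mul_le_mul_left h4 (norm_pos_iff.2 h)

lemma H_re_pos (w : ℂ) (hw : ‖w‖ < 1) : 0 < (H w).re := by
  have h1 := norm_H_sub_one w hw.le
  have h2 := Complex.abs_re_le_norm (H w - 1)
  have h3 := (abs_le.1 h2).1
  rw [Complex.sub_re, Complex.one_re] at h3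
  linarith

lemma H_ne (w : ℂ) (hw : ‖w‖ < 1) : H w ≠ 0 := by
  intro h
  have := H_re_pos w hw
  rw [h] at this
  simp at this

lemma diff_L0 : DifferentiableOn ℂ L0 (Metric.ball 0 1) := by
  intro w hw
  rw [mem_ball_zero_iff] at hw
  exact ((differentiable_H w).clog (Or.inl (H_re_pos w hw))).differentiableWithinAt

lemma diff_L1 : DifferentiableOn ℂ L1 (Metric.ball 0 1) := diff_L0.deriv Metric.isOpen_ball
lemma diff_L2 : DifferentiableOn ℂ L2 (Metric.ball 0 1) := diff_L1.deriv Metric.isOpen_ball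
lemma diff_L3 : DifferentiableOn ℂ L3 (Metric.ball 0 1) := diff_L2.deriv Metric.isOpen_ball

lemma hasDeriv_of {F : ℂ → ℂ} (hF : DifferentiableOn ℂ F (Metric.ball 0 1)) (w : ℂ)
    (hw : ‖w‖ < 1) : HasDerivAt F (deriv F w) w :=
  ((hF w (by rwa [mem_ball_zero_iff])).differentiableAt
    (Metric.isOpen_ball.mem_nhds (by rwa [mem_ball_zero_iff]))).hasDerivAt

lemma real_deriv (F : ℂ → ℂ) (hF : DifferentiableOn ℂ F (Metric.ball 0 1))
    (h : ∀ t : ℝ, |t| < 1 → (F t).im = 0) (x : ℝ) (hx : |x| < 1) : (deriv F x).im = 0 := by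
  have hx' : ‖(x : ℂ)‖ < 1 := by rwa [Complex.norm_real, Real.norm_eq_abs]
  have h1 := (hasDeriv_of hF (x : ℂ) hx').comp_ofReal
  have h2 : HasDerivAt (fun t : ℝ => (F t).im) ((deriv F x).im) x := by
    exact (Complex.imCLM.hasFDerivAt (x := F x)).comp_hasDerivAt x h1
  have h3 : HasDerivAt (fun t : ℝ => (F t).im) 0 x := by
    have h4 : (fun _ : ℝ => (0 : ℝ)) =ᶠ[nhds x] fun t : ℝ => (F t).im := by
      have : {t : ℝ | |t| < 1} ∈ nhds x :=
        (isOpen_lt continuous_abs continuous_const).mem_nhds hx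
      filter_upwards [this] with t ht
      exact (h t ht).symm
    exact (hasDerivAt_const x (0 : ℝ)).congr_of_eventuallyEq h4.symm
  exact h2.unique h3

lemma H_im (t : ℝ) : (H t).im = 0 := by
  by_cases h : t = 0
  · subst h; rw [Complex.ofReal_zero, H_zero]; simp
  · have h1 := mul_H (t : ℂ)
    have h2 : H (t : ℂ) = (((1 - Real.exp (-t)) / t : ℝ) : ℂ) := by
      have h3 : (t : ℂ) ≠ 0 := by exact_mod_cast h
      apply mul_left_cancel₀ h3
      rw [h1]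
      push_cast
      field_simp
    rw [h2, Complex.ofReal_im]

lemma L0_im (t : ℝ) (ht : |t| < 1) : (L0 t).im = 0 := by
  have h1 : H (t : ℂ) = (((H t).re : ℝ) : ℂ) := by
    apply Complex.ext
    · simp
    · simp [H_im]
  rw [L0, h1, Complex.log_im]
  exact Complex.arg_ofReal_of_nonneg
    (H_re_pos t (by rwa [Complex.norm_real, Real.norm_eq_abs])).le

lemma L2_im (t : ℝ) (ht : |t| < 1) : (L2 t).im = 0 :=
  real_deriv L1 diff_L1 (fun x hx => real_deriv L0 diff_L0 L0_im x hx) t ht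

lemma exists_bound {F : ℂ → ℂ} (hF : DifferentiableOn ℂ F (Metric.ball 0 1)) :
    ∃ C : ℝ, 0 < C ∧ ∀ w : ℂ, ‖w‖ ≤ 3 / 4 → ‖F w‖ ≤ C := by
  have h1 : ContinuousOn F (Metric.closedBall 0 (3 / 4)) :=
    hF.continuousOn.mono (Metric.closedBall_subset_ball (by norm_num))
  obtain ⟨C, hC⟩ := (isCompact_closedBall (0 : ℂ) (3 / 4)).exists_bound_of_continuousOn h1
  refine ⟨max C 1, by positivity, fun w hw => (hC w (by rwa [mem_closedBall_zero_iff])).trans
    (le_max_left _ _)⟩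

/-- Near-axis description in regime B. -/
theorem near : ∃ C : ℝ, 0 < C ∧ ∀ n k : ℕ, 1 ≤ n → ∀ s : ℝ, 0 ≤ s → 4 * n * s ≤ 1 →
    deriv (G n k s) 0 = 0 →
    ∀ θ ∈ Set.Icc (0 : ℝ) (1 / (8 * n)), ∃ a b : ℝ, |b| ≤ (C * (n : ℝ) ^ 4) * θ ^ 3 ∧
      -((C * (n : ℝ) ^ 3) * θ ^ 2) - (C * (n : ℝ) ^ 4) * θ ^ 3 ≤ a ∧
      (G n k s θ).re = aeval (Real.exp (-s)) (qCatalan n) * (Real.exp a * Real.cos b) := by
  obtain ⟨C2, hC2, hb2⟩ := exists_bound diff_L2
  obtain ⟨C3, hC3, hb3⟩ := exists_bound diff_L3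
  refine ⟨9 * C3 + 5 * C2, by positivity, ?_⟩
  intro n k hn s hs hns hstat
  have hn0 : (0 : ℝ) < n := by exact_mod_cast hn
  have hδ : (0 : ℝ) < 1 / (8 * n) := by positivity
  have hnorm : ∀ (j : ℕ) (θ : ℝ), j ≤ 2 * n → θ ∈ Set.Icc (0 : ℝ) (1 / (8 * n)) →
      ‖(j : ℂ) * ((s : ℂ) - θ * Complex.I)‖ ≤ 3 / 4 := by
    intro j θ hj hθ
    rw [norm_mul, Complex.norm_natCast]
    have h1 : ‖(s : ℂ) - θ * Complex.I‖ ≤ s + θ := by
      refine (norm_sub_le _ _).trans ?_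
      rw [norm_mul, Complex.norm_I, mul_one, Complex.norm_real, Complex.norm_real,
        Real.norm_of_nonneg hs, Real.norm_of_nonneg hθ.1]
    have h2 : (j : ℝ) ≤ 2 * n := by exact_mod_cast hj
    have h3 : 8 * n * θ ≤ 1 := by
      have := hθ.2
      rw [le_div_iff₀ (by positivity)] at this
      linarith
    have h4 : (j : ℝ) * ‖(s : ℂ) - θ * Complex.I‖ ≤ (2 * n) * (s + θ) :=
      mul_le_mul h2 h1 (norm_nonneg _) (by positivity)
    linarith
  have hlt : ∀ (j : ℕ) (θ : ℝ), j ≤ 2 * n → θ ∈ Set.Icc (0 : ℝ) (1 / (8 * n)) →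
      ‖(j : ℂ) * ((s : ℂ) - θ * Complex.I)‖ < 1 := by
    intro j θ hj hθ
    linarith [hnorm j θ hj hθ]
  have key := near_core n k hn s (1 / (8 * n)) hδ L0 L1 L2 L3 (fun j => (j : ℝ))
    (fun j hj => by exact_mod_cast hj) ?_ ?_ ?_ (5 * C2 * n ^ 3) (9 * C3 * n ^ 4) ?_ ?_ hstat
  · intro θ hθ
    obtain ⟨a, b, h1, h2, h3⟩ := key θ hθ
    have hθ0 := hθ.1
    have e1 : 9 * C3 * (n : ℝ) ^ 4 * θ ^ 3 ≤ (9 * C3 + 5 * C2) * n ^ 4 * θ ^ 3 := by
      have : 0 ≤ 5 * C2 * (n : ℝ) ^ 4 * θ ^ 3 := by positivity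
      linarith
    have e2 : 5 * C2 * (n : ℝ) ^ 3 * θ ^ 2 ≤ (9 * C3 + 5 * C2) * n ^ 3 * θ ^ 2 := by
      have : 0 ≤ 9 * C3 * (n : ℝ) ^ 3 * θ ^ 2 := by positivity
      linarith
    exact ⟨a, b, h1.trans e1, by linarith, h3⟩
  · intro j _ hj θ hθ
    have h := hlt j θ hj hθ
    exact ⟨hasDeriv_of diff_L0 _ h, hasDeriv_of diff_L1 _ h, hasDeriv_of diff_L2 _ h⟩
  · intro j hj1 hj θ hθ
    set u : ℂ := (s : ℂ) - θ * Complex.I with hu
    have hu1 : ‖u‖ < 1 := by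
      have := hlt 1 θ (by omega) hθ
      simpa using this
    have hju : ‖(j : ℂ) * u‖ < 1 := hlt j θ hj hθ
    rw [Complex.exp_sub, L0, L0, Complex.exp_log (H_ne _ hju), Complex.exp_log (H_ne _ hu1),
      aeval_qnum]
    by_cases h0 : u = 0
    · rw [h0]
      simp [H_zero]
    · have h1 := mul_H u
      have h2 := mul_H (j * u)
      have h3 : 1 - Complex.exp (-u) ≠ 0 := by
        rw [← h1]; exact mul_ne_zero h0 (H_ne _ hu1)
      apply mul_right_cancel₀ h3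
      rw [geom_sum_mul_neg, ← Complex.exp_nat_mul]
      have e : ((j : ℂ) * -u) = -(j * u) := by ring
      rw [e, ← h2, ← h1]
      have := H_ne _ hu1
      push_cast
      field_simp
  · intro j hj1 hj
    have e : ((j : ℂ) * (s : ℂ)) = ((j * s : ℝ) : ℂ) := by push_cast; rfl
    rw [e]
    apply L2_im
    have h2 : (j : ℝ) ≤ 2 * n := by exact_mod_cast hj
    rw [abs_of_nonneg (by positivity)]
    have := mul_le_mul_of_nonneg_right h2 hs
    linarith
  · have h1 : ∀ i ∈ Icc 2 n, ((((n + i : ℕ) : ℝ)) ^ 2 * ‖L2 ((n + i : ℕ) * s)‖ +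
        (i : ℝ) ^ 2 * ‖L2 (i * s)‖) ≤ 5 * C2 * n ^ 2 := by
      intro i hi
      rw [mem_Icc] at hi
      have h0 : (0 : ℝ) ∈ Set.Icc (0 : ℝ) (1 / (8 * n)) := ⟨le_rfl, hδ.le⟩
      have ha := hb2 _ (hnorm (n + i) 0 (by omega) h0)
      have hb := hb2 _ (hnorm i 0 (by omega) h0)
      simp only [Complex.ofReal_zero, zero_mul, sub_zero] at ha hb
      have h3 : ((n + i : ℕ) : ℝ) ≤ 2 * n := by exact_mod_cast (by omega : n + i ≤ 2 * n)
      have h4 : (i : ℝ) ≤ n := by exact_mod_cast hi.2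
      have h5 : ((n + i : ℕ) : ℝ) ^ 2 ≤ (2 * n) ^ 2 := pow_le_pow_left₀ (by positivity) h3 2
      have h6 : (i : ℝ) ^ 2 ≤ n ^ 2 := pow_le_pow_left₀ (by positivity) h4 2
      have h7 := mul_le_mul h5 ha (norm_nonneg _) (by positivity)
      have h8 := mul_le_mul h6 hb (norm_nonneg _) (by positivity)
      nlinarith
    refine (sum_le_sum h1).trans ?_
    rw [sum_const, Nat.card_Icc, nsmul_eq_mul]
    have h2 : ((n + 1 - 2 : ℕ) : ℝ) ≤ n := by exact_mod_cast (by omega : n + 1 - 2 ≤ n)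
    calc ((n + 1 - 2 : ℕ) : ℝ) * (5 * C2 * n ^ 2) ≤ n * (5 * C2 * n ^ 2) :=
          mul_le_mul_of_nonneg_right h2 (by positivity)
      _ = _ := by ring
  · intro θ hθ
    have h1 : ∀ i ∈ Icc 2 n, ((((n + i : ℕ) : ℝ)) ^ 3 *
        ‖L3 ((n + i : ℕ) * ((s : ℂ) - θ * Complex.I))‖ +
        (i : ℝ) ^ 3 * ‖L3 (i * ((s : ℂ) - θ * Complex.I))‖) ≤ 9 * C3 * n ^ 3 := by
      intro i hi
      rw [mem_Icc] at hi
      have ha := hb3 _ (hnorm (n + i) θ (by omega) hθ)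
      have hb := hb3 _ (hnorm i θ (by omega) hθ)
      have h3 : ((n + i : ℕ) : ℝ) ≤ 2 * n := by exact_mod_cast (by omega : n + i ≤ 2 * n)
      have h4 : (i : ℝ) ≤ n := by exact_mod_cast hi.2
      have h5 : ((n + i : ℕ) : ℝ) ^ 3 ≤ (2 * n) ^ 3 := pow_le_pow_left₀ (by positivity) h3 3
      have h6 : (i : ℝ) ^ 3 ≤ n ^ 3 := pow_le_pow_left₀ (by positivity) h4 3
      have h7 := mul_le_mul h5 ha (norm_nonneg _) (by positivity)
      have h8 := mul_le_mul h6 hb (norm_nonneg _) (by positivity)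
      nlinarith
    refine (sum_le_sum h1).trans ?_
    rw [sum_const, Nat.card_Icc, nsmul_eq_mul]
    have h2 : ((n + 1 - 2 : ℕ) : ℝ) ≤ n := by exact_mod_cast (by omega : n + 1 - 2 ≤ n)
    calc ((n + 1 - 2 : ℕ) : ℝ) * (9 * C3 * n ^ 3) ≤ n * (9 * C3 * n ^ 3) :=
          mul_le_mul_of_nonneg_right h2 (by positivity)
      _ = _ := by ring

end RegB

end Pool.Agent.H20.QCat
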