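import Pool.Agent.H20.QCat.RegA
import Pool.Agent.H20.QCat.RegB

/-! # Positivity of the weighted integrals -/

namespace Pool.Agent.H20.QCat

open Polynomial Finset Filter Topology

lemma near_all : ∃ C : ℝ, 0 < C ∧ ∀ n M k : ℕ, 2 ≤ M → M ≤ n → ∀ s : ℝ, 0 ≤ s →
    4 * M * s ≤ 1 → (M = n ∨ 1 < 4 * (M + 1) * s) → deriv (G n k s) 0 = 0 →
    ∀ θ ∈ Set.Icc (0 : ℝ) (1 / (8 * M)), ∃ a b : ℝ, |b| ≤ (C * (M : ℝ) ^ 4) * θ ^ 3 ∧
      -((C * (M : ℝ) ^ 3) * θ ^ 2) - (C * (M : ℝ) ^ 4) * θ ^ 3 ≤ a ∧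
      (G n k s θ).re = aeval (Real.exp (-s)) (qCatalan n) * (Real.exp a * Real.cos b) := by
  obtain ⟨C, hC, hB⟩ := RegB.near
  refine ⟨C + 2332800, by positivity, ?_⟩
  intro n M k hM hMn s hs hMs h hstat θ hθ
  have hθ0 := hθ.1
  rcases h with rfl | h
  · obtain ⟨a, b, h1, h2, h3⟩ := hB M k (by omega) s hs hMs hstat θ hθ
    refine ⟨a, b, h1.trans ?_, le_trans ?_ h2, h3⟩
    · gcongr; linarith
    · have e1 : C * (M : ℝ) ^ 3 * θ ^ 2 ≤ (C + 2332800) * M ^ 3 * θ ^ 2 := by gcongr; linarith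
      have e2 : C * (M : ℝ) ^ 4 * θ ^ 3 ≤ (C + 2332800) * M ^ 4 * θ ^ 3 := by gcongr; linarith
      linarith
  · have hs' : 0 < s := by
      by_contra hcon
      have : s = 0 := by linarith
      rw [this] at h
      linarith [h]
    have hM' : (2 : ℝ) ≤ M := by exact_mod_cast hM
    obtain ⟨a, b, h1, h2, h3⟩ := RegA.near n M k (by omega) hM s hs' h hstat (1 / (8 * M))
      (by positivity) θ hθ
    refine ⟨a, b, h1.trans ?_, le_trans ?_ h2, h3⟩
    · gcongr; linarith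
    · have e1 : 14400 * (M : ℝ) ^ 3 * θ ^ 2 ≤ (C + 2332800) * M ^ 3 * θ ^ 2 := by
        gcongr; linarith
      have e2 : 2332800 * (M : ℝ) ^ 4 * θ ^ 3 ≤ (C + 2332800) * M ^ 4 * θ ^ 3 := by
        gcongr; linarith
      linarith

lemma G_norm (n k : ℕ) (s θ : ℝ) : ‖G n k s θ‖ =
    ‖aeval (((Real.exp (-s) : ℝ) : ℂ) * Complex.exp (θ * Complex.I)) (qCatalan n)‖ := by
  rw [G, norm_mul]
  have : ‖Complex.exp (-(k * θ * Complex.I))‖ = 1 := by
    rw [Complex.norm_exp]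
    simp
  rw [this, mul_one]

lemma G_continuous (n k : ℕ) (s : ℝ) : Continuous (G n k s) := by
  unfold G
  have h1 : (fun θ : ℝ => aeval (((Real.exp (-s) : ℝ) : ℂ) * Complex.exp (θ * Complex.I))
      (qCatalan n)) = fun θ : ℝ => ((qCatalan n).map (Int.castRingHom ℂ)).eval
        (((Real.exp (-s) : ℝ) : ℂ) * Complex.exp (θ * Complex.I)) := by
    ext θ
    rw [aeval_def, eval_map]
    rfl
  refine Continuous.mul ?_ (by fun_prop)
  rw [h1]
  exact ((qCatalan n).map (Int.castRingHom ℂ)).continuous.comp (by fun_prop)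

lemma dec_anti (M : ℕ) {a b : ℝ} (ha : 0 ≤ a) (hab : a ≤ b) : dec M b ≤ dec M a := by
  rw [dec, dec]
  apply Real.exp_le_exp.2
  rw [neg_le_neg_iff]
  apply mul_le_mul_of_nonneg_left _ (by positivity)
  apply min_le_min le_rfl
  gcongr

/-- the analytic core: both weighted integrals are nonnegative for large `M`. -/
theorem integral_nonneg_eventually : ∀ᶠ M : ℕ in atTop, ∀ n k : ℕ, M ≤ n → ∀ s : ℝ, 0 ≤ s →
    4 * M * s ≤ 1 → (M = n ∨ 1 < 4 * (M + 1) * s) → deriv (G n k s) 0 = 0 →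
    ∀ σ : ℝ, (σ = 1 ∨ σ = -1) →
      0 ≤ ∫ θ in (0 : ℝ)..Real.pi, (G n k s θ).re * (1 + σ * Real.cos θ) := by
  obtain ⟨C, hC, hnear⟩ := near_all
  set κ : ℝ := 1 / (1 + C) with hκ
  have hκ0 : 0 < κ := by positivity
  have hκ1 : κ < 1 := by rw [hκ, div_lt_one (by positivity)]; linarith
  have hκC : C * κ ^ 3 ≤ 1 := by
    have h1 : C * κ ≤ 1 := by
      rw [hκ, mul_one_div, div_le_one (by positivity)]
      linarith
    have h2 : κ ^ 2 ≤ 1 := pow_le_one₀ hκ0.le hκ1.le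
    have h3 : 0 ≤ C * κ := by positivity
    calc C * κ ^ 3 = (C * κ) * κ ^ 2 := by ring
      _ ≤ 1 * 1 := mul_le_mul h1 h2 (by positivity) (by norm_num)
      _ = 1 := by norm_num
  have hpi := Real.pi_pos
  set c : ℝ := κ ^ 2 / (45 * Real.pi ^ 2) with hc
  have hc0 : 0 < c := by positivity
  set A : ℝ := 24000 * Real.pi * Real.exp (2 * C) with hA
  have hA0 : 0 < A := by positivity
  -- eventually in x
  have hev : ∀ᶠ x : ℝ in atTop, 8 ≤ x ∧ 1 / κ ≤ x ∧ A * (x ^ 24 * Real.exp (-(c * x))) ≤ 1 := by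
    have h1 : Tendsto (fun x : ℝ => c * x) atTop atTop := tendsto_id.const_mul_atTop hc0
    have h2 := (Real.tendsto_pow_mul_exp_neg_atTop_nhds_zero 24).comp h1
    have h3 := h2.eventually (gt_mem_nhds (show (0 : ℝ) < c ^ 24 / A by positivity))
    filter_upwards [h3, eventually_ge_atTop 8, eventually_ge_atTop (1 / κ)] with x hx hx8 hxκ
    refine ⟨hx8, hxκ, ?_⟩
    simp only [Function.comp] at hx
    rw [lt_div_iff₀ hA0, mul_pow] at hx
    have h4 : c ^ 24 * (A * (x ^ 24 * Real.exp (-(c * x)))) ≤ c ^ 24 * 1 := by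
      nlinarith
    exact le_of_mul_le_mul_left h4 (by positivity)
  have hM3 : Tendsto (fun M : ℕ => (M : ℝ) ^ ((1 : ℝ) / 3)) atTop atTop :=
    (tendsto_rpow_atTop (by norm_num)).comp tendsto_natCast_atTop_atTop
  filter_upwards [hM3.eventually hev, eventually_ge_atTop 2] with M hx hM2 n k hMn s hs hMs h
    hstat σ hσ
  set x : ℝ := (M : ℝ) ^ ((1 : ℝ) / 3) with hxdef
  obtain ⟨hx8, hxκ, hxA⟩ := hx
  have hx0 : 0 < x := by linarith
  have hMx : (M : ℝ) = x ^ 3 := by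
    rw [hxdef, ← Real.rpow_natCast, ← Real.rpow_mul (Nat.cast_nonneg _)]
    norm_num
  set P := aeval (Real.exp (-s)) (qCatalan n) with hP
  have hP0 : 0 < P := aeval_qCatalan_pos (Real.exp_pos _) n
  set δ : ℝ := κ / x ^ 4 with hδ
  have hδ0 : 0 < δ := by positivity
  set θ₁ : ℝ := 1 / x ^ 6 with hθ₁
  have hθ₁0 : 0 < θ₁ := by positivity
  have hθδ : θ₁ ≤ δ := by
    rw [hθ₁, hδ, div_le_div_iff₀ (by positivity) (by positivity)]
    have h1 : 1 ≤ κ * x := by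
      rw [div_le_iff₀ hκ0] at hxκ
      linarith
    have h2 : 1 ≤ x := by linarith
    have h3 : 1 ≤ κ * x ^ 2 := by nlinarith
    calc 1 * x ^ 4 ≤ (κ * x ^ 2) * x ^ 4 := mul_le_mul_of_nonneg_right h3 (by positivity)
      _ = κ * x ^ 6 := by ring
  have hδM : δ ≤ 1 / (8 * M) := by
    rw [hδ, hMx, div_le_div_iff₀ (by positivity) (by positivity)]
    have : κ * 8 ≤ x := by nlinarith
    calc κ * (8 * x ^ 3) = (κ * 8) * x ^ 3 := by ring
      _ ≤ x * x ^ 3 := mul_le_mul_of_nonneg_right this (by positivity)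
      _ = 1 * x ^ 4 := by ring
  have hδ1 : δ ≤ 1 := by
    rw [hδ, div_le_one (by positivity)]
    have : (1 : ℝ) ≤ x ^ 4 := one_le_pow₀ (by linarith)
    linarith
  have hδpi : δ ≤ Real.pi := by linarith [Real.pi_gt_three]
  -- nonnegativity near the axis
  have hw : ∀ θ : ℝ, 0 ≤ 1 + σ * Real.cos θ := by
    intro θ
    rcases hσ with rfl | rfl
    · linarith [Real.neg_one_le_cos θ]
    · linarith [Real.cos_le_one θ]
  have hw2 : ∀ θ : ℝ, 1 + σ * Real.cos θ ≤ 2 := by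
    intro θ
    rcases hσ with rfl | rfl
    · linarith [Real.cos_le_one θ]
    · linarith [Real.neg_one_le_cos θ]
  have hcos : ∀ b : ℝ, |b| ≤ 1 → 1 / 2 ≤ Real.cos b := by
    intro b hb
    have h1 := Real.one_sub_sq_div_two_le_cos (x := b)
    have h2 : b ^ 2 ≤ 1 := by rw [← sq_abs]; exact pow_le_one₀ (abs_nonneg _) hb
    linarith
  have hnonneg : ∀ θ ∈ Set.Icc 0 δ, 0 ≤ (G n k s θ).re := by
    intro θ hθ
    obtain ⟨a, b, h1, h2, h3⟩ := hnear n M k hM2 hMn s hs hMs h hstat θ ⟨hθ.1, hθ.2.trans hδM⟩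
    rw [h3]
    have h4 : |b| ≤ 1 := by
      refine h1.trans ?_
      have h5 : θ ^ 3 ≤ δ ^ 3 := pow_le_pow_left₀ hθ.1 hθ.2 3
      have h6 : C * (M : ℝ) ^ 4 * δ ^ 3 = C * κ ^ 3 := by
        rw [hMx, hδ]; field_simp
      calc C * (M : ℝ) ^ 4 * θ ^ 3 ≤ C * (M : ℝ) ^ 4 * δ ^ 3 := by gcongr
        _ = C * κ ^ 3 := h6
        _ ≤ 1 := hκC
    have h5 := hcos b h4
    have h6 := Real.exp_pos a
    have h7 : 0 ≤ Real.cos b := by linarith
    exact mul_nonneg hP0.le (mul_nonneg h6.le h7)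
  have hlower : ∀ θ ∈ Set.Icc 0 θ₁, P * Real.exp (-(2 * C)) / 10 * θ ^ 2 ≤
      (G n k s θ).re * (1 + σ * Real.cos θ) := by
    intro θ hθ
    obtain ⟨a, b, h1, h2, h3⟩ := hnear n M k hM2 hMn s hs hMs h hstat θ
      ⟨hθ.1, (hθ.2.trans hθδ).trans hδM⟩
    rw [h3]
    have h4 : |b| ≤ 1 := by
      refine h1.trans ?_
      have h5 : θ ^ 3 ≤ δ ^ 3 := pow_le_pow_left₀ hθ.1 (hθ.2.trans hθδ) 3
      have h6 : C * (M : ℝ) ^ 4 * δ ^ 3 = C * κ ^ 3 := by
        rw [hMx, hδ]; field_simp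
      calc C * (M : ℝ) ^ 4 * θ ^ 3 ≤ C * (M : ℝ) ^ 4 * δ ^ 3 := by gcongr
        _ = C * κ ^ 3 := h6
        _ ≤ 1 := hκC
    have h5 := hcos b h4
    have h6 : -(2 * C) ≤ a := by
      refine le_trans ?_ h2
      have h7 : C * (M : ℝ) ^ 3 * θ ^ 2 ≤ C := by
        have h8 : θ ^ 2 ≤ θ₁ ^ 2 := pow_le_pow_left₀ hθ.1 hθ.2 2
        have h9 : C * (M : ℝ) ^ 3 * θ₁ ^ 2 = C / x ^ 3 := by
          rw [hMx, hθ₁]; field_simp
        have h10 : C / x ^ 3 ≤ C := by
          apply div_le_self hC.le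
          exact one_le_pow₀ (by linarith)
        calc C * (M : ℝ) ^ 3 * θ ^ 2 ≤ C * (M : ℝ) ^ 3 * θ₁ ^ 2 := by gcongr
          _ = C / x ^ 3 := h9
          _ ≤ C := h10
      have h8 : C * (M : ℝ) ^ 4 * θ ^ 3 ≤ C := by
        have h8 : θ ^ 3 ≤ θ₁ ^ 3 := pow_le_pow_left₀ hθ.1 hθ.2 3
        have h9 : C * (M : ℝ) ^ 4 * θ₁ ^ 3 = C / x ^ 6 := by
          rw [hMx, hθ₁]; field_simp
        have h10 : C / x ^ 6 ≤ C := by
          apply div_le_self hC.le
          exact one_le_pow₀ (by linarith)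
        calc C * (M : ℝ) ^ 4 * θ ^ 3 ≤ C * (M : ℝ) ^ 4 * θ₁ ^ 3 := by gcongr
          _ = C / x ^ 6 := h9
          _ ≤ C := h10
      linarith
    have h7 : Real.exp (-(2 * C)) ≤ Real.exp a := Real.exp_le_exp.2 h6
    have hθ1 : θ ≤ 1 := (hθ.2.trans hθδ).trans hδ1
    have h8 : θ ^ 2 / 5 ≤ 1 + σ * Real.cos θ := by
      rcases hσ with rfl | rfl
      · have := hcos θ (by rw [abs_of_nonneg hθ.1]; exact hθ1)
        have h9 : θ ^ 2 ≤ 1 := pow_le_one₀ hθ.1 hθ1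
        linarith
      · have h9 := Real.cos_le_one_sub_mul_cos_sq (x := θ)
          (by rw [abs_of_nonneg hθ.1]; linarith [Real.pi_gt_three])
        have h10 : 1 / 5 ≤ 2 / Real.pi ^ 2 := by
          rw [div_le_div_iff₀ (by norm_num) (by positivity)]
          nlinarith [Real.pi_lt_d2]
        have h11 := mul_le_mul_of_nonneg_right h10 (sq_nonneg θ)
        linarith
    have h9 : Real.exp (-(2 * C)) * (1 / 2) ≤ Real.exp a * Real.cos b :=
      mul_le_mul h7 h5 (by norm_num) (Real.exp_pos _).le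
    have h10 := mul_le_mul_of_nonneg_left h9 hP0.le
    have h11 := mul_le_mul h10 h8 (by positivity)
      (mul_nonneg hP0.le (mul_nonneg (Real.exp_pos a).le (by linarith)))
    refine le_trans (le_of_eq ?_) h11
    ring
  have htail : ∀ θ ∈ Set.Icc δ Real.pi, -(P * (800 * M ^ 2 * dec M δ)) ≤
      (G n k s θ).re * (1 + σ * Real.cos θ) := by
    intro θ hθ
    have h1 := tail_bound n M hM2 hMn s θ hs hMs h (by linarith [hθ.1]) hθ.2
    rw [← G_norm n k s θ, ← hP] at h1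
    have h2 := dec_anti M hδ0.le hθ.1
    have h3 : ‖G n k s θ‖ ≤ P * (400 * M ^ 2 * dec M δ) := by
      refine h1.trans ?_
      gcongr
    have h4 := (abs_le.1 (Complex.abs_re_le_norm (G n k s θ))).1
    have h5 : 0 ≤ P * (400 * M ^ 2 * dec M δ) := (norm_nonneg _).trans h3
    have h6 : -(P * (400 * M ^ 2 * dec M δ)) ≤ (G n k s θ).re := by linarith
    have h7 := hw θ
    have h8 := hw2 θ
    have h9 : -(P * (400 * M ^ 2 * dec M δ)) * (1 + σ * Real.cos θ) ≤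
        (G n k s θ).re * (1 + σ * Real.cos θ) := mul_le_mul_of_nonneg_right h6 h7
    have h10 : (P * (400 * M ^ 2 * dec M δ)) * (1 + σ * Real.cos θ) ≤
        (P * (400 * M ^ 2 * dec M δ)) * 2 := mul_le_mul_of_nonneg_left h8 h5
    linarith
  -- integrate
  set F : ℝ → ℝ := fun θ => (G n k s θ).re * (1 + σ * Real.cos θ) with hF
  have hFc : Continuous F := by
    have := G_continuous n k s
    exact (Complex.continuous_re.comp this).mul (by fun_prop)
  have hint : ∀ a b : ℝ, IntervalIntegrable F MeasureTheory.volume a b :=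
    fun a b => hFc.intervalIntegrable a b
  have hsplit : ∫ θ in (0 : ℝ)..Real.pi, F θ =
      (∫ θ in (0 : ℝ)..θ₁, F θ) + (∫ θ in θ₁..δ, F θ) + ∫ θ in δ..Real.pi, F θ := by
    rw [intervalIntegral.integral_add_adjacent_intervals (hint _ _) (hint _ _),
      intervalIntegral.integral_add_adjacent_intervals (hint _ _) (hint _ _)]
  have hI1 : P * Real.exp (-(2 * C)) / 10 * (θ₁ ^ 3 / 3) ≤ ∫ θ in (0 : ℝ)..θ₁, F θ := by
    have h1 : ∫ θ in (0 : ℝ)..θ₁, P * Real.exp (-(2 * C)) / 10 * θ ^ 2 ≤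
        ∫ θ in (0 : ℝ)..θ₁, F θ := by
      apply intervalIntegral.integral_mono_on hθ₁0.le
        (Continuous.intervalIntegrable (by fun_prop) _ _) (hint _ _)
      exact hlower
    refine le_trans (le_of_eq ?_) h1
    rw [intervalIntegral.integral_const_mul, integral_pow]
    norm_num
  have hI2 : 0 ≤ ∫ θ in θ₁..δ, F θ := by
    apply intervalIntegral.integral_nonneg hθδ
    intro θ hθ
    exact mul_nonneg (hnonneg θ ⟨hθ₁0.le.trans hθ.1, hθ.2⟩) (hw θ)
  have hI3 : -(P * (800 * M ^ 2 * dec M δ)) * Real.pi ≤ ∫ θ in δ..Real.pi, F θ := by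
    have h1 : ∫ θ in δ..Real.pi, -(P * (800 * M ^ 2 * dec M δ)) ≤ ∫ θ in δ..Real.pi, F θ := by
      apply intervalIntegral.integral_mono_on hδpi
        (Continuous.intervalIntegrable (by fun_prop) _ _) (hint _ _)
      exact htail
    refine le_trans ?_ h1
    rw [intervalIntegral.integral_const, smul_eq_mul]
    have h2 : 0 ≤ P * (800 * M ^ 2 * dec M δ) := by
      have : 0 < dec M δ := Real.exp_pos _
      positivity
    nlinarith
  have hdecδ : dec M δ = Real.exp (-(c * x)) := by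
    rw [dec, hMx, hδ]
    have h1 : 2 * (x ^ 3) ^ 2 * (κ / x ^ 4) ^ 2 / (9 * Real.pi ^ 2) =
        2 * κ ^ 2 / (9 * Real.pi ^ 2) / x ^ 2 := by
      field_simp
    have h2 : 2 * κ ^ 2 / (9 * Real.pi ^ 2) / x ^ 2 ≤ 1 := by
      rw [div_div, div_le_one (by positivity)]
      have h3 : κ ^ 2 ≤ 1 := pow_le_one₀ hκ0.le hκ1.le
      have h4 : (1 : ℝ) ≤ x ^ 2 := one_le_pow₀ (by linarith)
      have h5 : 1 ≤ Real.pi ^ 2 := one_le_pow₀ (by linarith [Real.pi_gt_three])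
      nlinarith
    rw [h1, min_eq_right h2, hc]
    congr 1
    field_simp
    ring
  have hfinal : (800 * (M : ℝ) ^ 2 * dec M δ) * Real.pi ≤ Real.exp (-(2 * C)) / 10 *
      (θ₁ ^ 3 / 3) := by
    rw [hdecδ, hMx, hθ₁]
    have h1 : Real.exp (-(2 * C)) * Real.exp (2 * C) = 1 := by rw [← Real.exp_add]; simp
    have h2 : Real.exp (-(2 * C)) / 10 * ((1 / x ^ 6) ^ 3 / 3) =
        Real.exp (-(2 * C)) / 30 / x ^ 18 := by
      field_simp
      norm_num
    rw [h2, le_div_iff₀ (by positivity)]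
    have h3 := mul_le_mul_of_nonneg_left hxA (Real.exp_pos (-(2 * C))).le
    have h4 : Real.exp (-(2 * C)) * (A * (x ^ 24 * Real.exp (-(c * x)))) =
        24000 * Real.pi * (Real.exp (-(2 * C)) * Real.exp (2 * C)) *
          (x ^ 24 * Real.exp (-(c * x))) := by
      rw [hA]; ring
    rw [h4, h1] at h3
    linarith
  rw [hsplit]
  have := mul_le_mul_of_nonneg_left hfinal hP0.le
  linarith

end Pool.Agent.H20.QCat
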