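import Pool.Agent.H20.QCat.Near

/-! # The regime `s > 1/(4n)` -/

namespace Pool.Agent.H20.QCat

open Polynomial Finset

namespace RegA

noncomputable def L0 (w : ℂ) : ℂ := Complex.log (1 - Complex.exp (-w))
noncomputable def L1 (w : ℂ) : ℂ := Complex.exp (-w) / (1 - Complex.exp (-w))
noncomputable def L2 (w : ℂ) : ℂ := -Complex.exp (-w) / (1 - Complex.exp (-w)) ^ 2
noncomputable def L3 (w : ℂ) : ℂ :=
  Complex.exp (-w) * (1 + Complex.exp (-w)) / (1 - Complex.exp (-w)) ^ 3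

lemma norm_exp_neg_lt {w : ℂ} (hw : 0 < w.re) : ‖Complex.exp (-w)‖ < 1 := by
  rw [Complex.norm_exp, Complex.neg_re, Real.exp_lt_one_iff]
  linarith

lemma one_sub_ne {w : ℂ} (hw : 0 < w.re) : 1 - Complex.exp (-w) ≠ 0 := by
  intro h
  have h1 : Complex.exp (-w) = 1 := (sub_eq_zero.1 h).symm
  have h2 := norm_exp_neg_lt hw
  rw [h1] at h2
  simp at h2

lemma one_sub_slit {w : ℂ} (hw : 0 < w.re) : 1 - Complex.exp (-w) ∈ Complex.slitPlane := by
  left
  rw [Complex.sub_re, Complex.one_re]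
  have h1 := Complex.re_le_norm (Complex.exp (-w))
  have h2 := norm_exp_neg_lt hw
  linarith

lemma hasDerivAt_x (w : ℂ) : HasDerivAt (fun w => Complex.exp (-w)) (-Complex.exp (-w)) w := by
  have := (hasDerivAt_id w).neg.cexp
  simpa using this

lemma hasDerivAt_y (w : ℂ) : HasDerivAt (fun w => 1 - Complex.exp (-w)) (Complex.exp (-w)) w := by
  have := (hasDerivAt_x w).const_sub 1
  simpa using this

lemma hasDerivAt_L0 {w : ℂ} (hw : 0 < w.re) : HasDerivAt L0 (L1 w) w :=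
  (hasDerivAt_y w).clog (one_sub_slit hw)

lemma hasDerivAt_L1 {w : ℂ} (hw : 0 < w.re) : HasDerivAt L1 (L2 w) w := by
  have h := (hasDerivAt_x w).div (hasDerivAt_y w) (one_sub_ne hw)
  have e : L2 w = (-Complex.exp (-w) * (1 - Complex.exp (-w)) -
      Complex.exp (-w) * Complex.exp (-w)) / (1 - Complex.exp (-w)) ^ 2 := by
    rw [L2]; congr 1; ring
  rw [e]
  exact h

lemma hasDerivAt_L2 {w : ℂ} (hw : 0 < w.re) : HasDerivAt L2 (L3 w) w := by
  have hne := one_sub_ne hw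
  have h := (hasDerivAt_x w).neg.div ((hasDerivAt_y w).pow 2) (pow_ne_zero 2 hne)
  have e : L3 w = (- -Complex.exp (-w) * (1 - Complex.exp (-w)) ^ 2 -
      -Complex.exp (-w) * (((2 : ℕ) : ℂ) * (1 - Complex.exp (-w)) ^ (2 - 1) * Complex.exp (-w))) /
      ((1 - Complex.exp (-w)) ^ 2) ^ 2 := by
    rw [L3]
    field_simp
    push_cast
    ring
  rw [e]
  exact h

lemma x_div_le (x : ℝ) (hx : 0 < x) : x / (1 - Real.exp (-x)) ≤ 1 + x := by
  have h := one_div_one_sub_exp x hx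
  have : x / (1 - Real.exp (-x)) = x * (1 / (1 - Real.exp (-x))) := by ring
  rw [this]
  have h2 := mul_le_mul_of_nonneg_left h hx.le
  have : x * (1 + 1 / x) = 1 + x := by field_simp; ring
  linarith

lemma bound2 (x : ℝ) (hx : 0 < x) :
    x ^ 2 * (Real.exp (-x) / (1 - Real.exp (-x)) ^ 2) ≤ 16 * Real.exp (-(x / 2)) := by
  have h1 := x_div_le x hx
  have hy : 0 < 1 - Real.exp (-x) := by
    have : Real.exp (-x) < 1 := by rw [Real.exp_lt_one_iff]; linarith
    linarith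
  have h0 : 0 ≤ x / (1 - Real.exp (-x)) := by positivity
  have h2 : 1 + x ≤ 4 * Real.exp (x / 4) := by
    have := Real.add_one_le_exp (x / 4)
    linarith
  have h3 : (x / (1 - Real.exp (-x))) ^ 2 ≤ 16 * Real.exp (x / 2) := by
    have h4 : (x / (1 - Real.exp (-x))) ^ 2 ≤ (4 * Real.exp (x / 4)) ^ 2 :=
      pow_le_pow_left₀ h0 (h1.trans h2) 2
    have h5 : (4 * Real.exp (x / 4)) ^ 2 = 16 * Real.exp (x / 2) := by
      rw [mul_pow, ← Real.exp_nat_mul]
      have : ((2 : ℕ) : ℝ) * (x / 4) = x / 2 := by push_cast; ring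
      rw [this]
      norm_num
    rwa [h5] at h4
  have h6 : x ^ 2 * (Real.exp (-x) / (1 - Real.exp (-x)) ^ 2) =
      Real.exp (-x) * (x / (1 - Real.exp (-x))) ^ 2 := by
    field_simp
  rw [h6]
  have h7 := mul_le_mul_of_nonneg_left h3 (Real.exp_pos (-x)).le
  refine h7.trans (le_of_eq ?_)
  have : Real.exp (-(x / 2)) = Real.exp (-x) * Real.exp (x / 2) := by
    rw [← Real.exp_add]; congr 1; ring
  rw [this]
  ring

lemma bound3 (x : ℝ) (hx : 0 < x) :
    x ^ 3 * (Real.exp (-x) * (1 + Real.exp (-x)) / (1 - Real.exp (-x)) ^ 3) ≤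
      432 * Real.exp (-(x / 2)) := by
  have h1 := x_div_le x hx
  have hlt : Real.exp (-x) < 1 := by rw [Real.exp_lt_one_iff]; linarith
  have hy : 0 < 1 - Real.exp (-x) := by linarith
  have h0 : 0 ≤ x / (1 - Real.exp (-x)) := by positivity
  have h2 : 1 + x ≤ 6 * Real.exp (x / 6) := by
    have := Real.add_one_le_exp (x / 6)
    linarith
  have h3 : (x / (1 - Real.exp (-x))) ^ 3 ≤ 216 * Real.exp (x / 2) := by
    have h4 : (x / (1 - Real.exp (-x))) ^ 3 ≤ (6 * Real.exp (x / 6)) ^ 3 :=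
      pow_le_pow_left₀ h0 (h1.trans h2) 3
    have h5 : (6 * Real.exp (x / 6)) ^ 3 = 216 * Real.exp (x / 2) := by
      rw [mul_pow, ← Real.exp_nat_mul]
      have : ((3 : ℕ) : ℝ) * (x / 6) = x / 2 := by push_cast; ring
      rw [this]
      norm_num
    rwa [h5] at h4
  have h6 : x ^ 3 * (Real.exp (-x) * (1 + Real.exp (-x)) / (1 - Real.exp (-x)) ^ 3) =
      Real.exp (-x) * (1 + Real.exp (-x)) * (x / (1 - Real.exp (-x))) ^ 3 := by
    field_simp
  rw [h6]
  have he := Real.exp_pos (-x)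
  have h7 : Real.exp (-x) * (1 + Real.exp (-x)) ≤ 2 * Real.exp (-x) := by nlinarith
  have h8 := mul_le_mul h7 h3 (by positivity) (by positivity)
  refine h8.trans (le_of_eq ?_)
  have : Real.exp (-(x / 2)) = Real.exp (-x) * Real.exp (x / 2) := by
    rw [← Real.exp_add]; congr 1; ring
  rw [this]
  ring

lemma norm_L2 (x : ℝ) (hx : 0 < x) :
    ‖L2 (x : ℂ)‖ = Real.exp (-x) / (1 - Real.exp (-x)) ^ 2 := by
  have hlt : Real.exp (-x) < 1 := by rw [Real.exp_lt_one_iff]; linarith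
  have e : L2 (x : ℂ) = ((-Real.exp (-x) / (1 - Real.exp (-x)) ^ 2 : ℝ) : ℂ) := by
    rw [L2]; push_cast; rfl
  rw [e, Complex.norm_real, Real.norm_eq_abs, neg_div, abs_neg, abs_of_nonneg]
  have := Real.exp_pos (-x)
  positivity

lemma L2_im (x : ℝ) : (L2 (x : ℂ)).im = 0 := by
  have e : L2 (x : ℂ) = ((-Real.exp (-x) / (1 - Real.exp (-x)) ^ 2 : ℝ) : ℂ) := by
    rw [L2]; push_cast; rfl
  rw [e, Complex.ofReal_im]

lemma norm_L3 (w : ℂ) (hx : 0 < w.re) :
    ‖L3 w‖ ≤ Real.exp (-w.re) * (1 + Real.exp (-w.re)) / (1 - Real.exp (-w.re)) ^ 3 := by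
  have hlt : Real.exp (-w.re) < 1 := by rw [Real.exp_lt_one_iff]; linarith
  have hn : ‖Complex.exp (-w)‖ = Real.exp (-w.re) := by rw [Complex.norm_exp, Complex.neg_re]
  rw [L3, norm_div, norm_mul, norm_pow, hn]
  have h1 : ‖1 + Complex.exp (-w)‖ ≤ 1 + Real.exp (-w.re) := by
    refine (norm_add_le _ _).trans ?_
    rw [hn]; simp
  have h2 : 1 - Real.exp (-w.re) ≤ ‖1 - Complex.exp (-w)‖ := by
    have := norm_sub_norm_le (1 : ℂ) (Complex.exp (-w))
    rw [hn] at this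
    simpa using this
  have h3 : 0 < 1 - Real.exp (-w.re) := by linarith
  have he := Real.exp_pos (-w.re)
  apply div_le_div₀ (by positivity) _ (by positivity) (pow_le_pow_left₀ h3.le h2 3)
  exact mul_le_mul_of_nonneg_left h1 he.le

lemma sum_exp (n M : ℕ) (hM : 2 ≤ M) (s : ℝ) (hs : 0 < s) (h : 1 < 4 * (M + 1) * s) :
    ∑ i ∈ Icc 2 n, (Real.exp (-(((n + i : ℕ) * s) / 2)) + Real.exp (-((i * s) / 2))) ≤ 25 * M := by
  set x := Real.exp (-(s / 2)) with hx
  have hx0 : 0 ≤ x := by positivity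
  have hx1 : x < 1 := by rw [hx, Real.exp_lt_one_iff]; linarith
  have e : ∀ j : ℕ, Real.exp (-((j * s) / 2)) = x ^ j := by
    intro j; rw [hx, ← Real.exp_nat_mul]; congr 1; ring
  have h1 : ∑ i ∈ Icc 2 n, Real.exp (-(((n + i : ℕ) * s) / 2)) ≤
      ∑ i ∈ range (2 * n + 1), x ^ i := by
    simp_rw [e]
    rw [← Finset.sum_image (s := Icc 2 n) (g := fun i => n + i) (f := fun i => x ^ i)]
    · apply sum_le_sum_of_subset_of_nonneg
      · intro y
        simp only [mem_image, mem_Icc, mem_range]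
        rintro ⟨a, ha, rfl⟩
        omega
      · intro _ _ _; positivity
    · intro a _ b _ hab; simpa using hab
  have h2 : ∑ i ∈ Icc 2 n, Real.exp (-((i * s) / 2)) ≤ ∑ i ∈ range (2 * n + 1), x ^ i := by
    simp_rw [e]
    apply sum_le_sum_of_subset_of_nonneg
    · intro y
      simp only [mem_Icc, mem_range]
      omega
    · intro _ _ _; positivity
  have h3 := geom_bound x hx0 hx1 (2 * n + 1)
  have h4 := one_div_one_sub_exp (s / 2) (by linarith)
  rw [← hx] at h4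
  have h5 : 1 / (s / 2) ≤ 8 * (M + 1) := by
    rw [div_le_iff₀ (by linarith)]
    linarith
  rw [sum_add_distrib]
  have hM' : (2 : ℝ) ≤ M := by exact_mod_cast hM
  linarith

/-- Near-axis description in regime A. -/
theorem near (n M k : ℕ) (hn : 1 ≤ n) (hM : 2 ≤ M) (s : ℝ) (hs : 0 < s)
    (h : 1 < 4 * (M + 1) * s) (hstat : deriv (G n k s) 0 = 0) (δ : ℝ) (hδ : 0 < δ) :
    ∀ θ ∈ Set.Icc 0 δ, ∃ a b : ℝ, |b| ≤ (2332800 * (M : ℝ) ^ 4) * θ ^ 3 ∧
      -((14400 * (M : ℝ) ^ 3) * θ ^ 2) - (2332800 * (M : ℝ) ^ 4) * θ ^ 3 ≤ a ∧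
      (G n k s θ).re = aeval (Real.exp (-s)) (qCatalan n) * (Real.exp a * Real.cos b) := by
  have hre : ∀ (j : ℕ) (θ : ℝ), ((j : ℂ) * ((s : ℂ) - θ * Complex.I)).re = j * s := by
    intro j θ; simp
  have hpos : ∀ (j : ℕ) (θ : ℝ), 1 ≤ j → 0 < ((j : ℂ) * ((s : ℂ) - θ * Complex.I)).re := by
    intro j θ hj
    rw [hre]
    have : (0 : ℝ) < j := by exact_mod_cast hj
    positivity
  have hM' : (2 : ℝ) ≤ M := by exact_mod_cast hM
  have hs1 : 1 / s ≤ 6 * M := by
    rw [div_le_iff₀ hs]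
    nlinarith
  have hs0 : 0 ≤ 1 / s := by positivity
  have hsum := sum_exp n M hM s hs h
  refine near_core n k hn s δ hδ L0 L1 L2 L3 (fun _ => 1) (fun _ _ => one_pos) ?_ ?_ ?_ _ _ ?_ ?_
    hstat
  · intro j hj _ θ _
    exact ⟨hasDerivAt_L0 (hpos j θ hj), hasDerivAt_L1 (hpos j θ hj), hasDerivAt_L2 (hpos j θ hj)⟩
  · intro j hj _ θ _
    have h1 : 0 < ((s : ℂ) - θ * Complex.I).re := by simpa using hs
    rw [Complex.exp_sub, L0, L0, Complex.exp_log (one_sub_ne (hpos j θ hj)),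
      Complex.exp_log (one_sub_ne h1), aeval_qnum]
    rw [Complex.ofReal_one, one_mul, eq_div_iff (one_sub_ne h1), geom_sum_mul_neg,
      ← Complex.exp_nat_mul]
    congr 2
    ring
  · intro j hj _
    have : ((j : ℂ) * (s : ℂ)) = ((j * s : ℝ) : ℂ) := by push_cast; rfl
    rw [this]
    exact L2_im _
  · have h1 : ∀ j : ℕ, 1 ≤ j → (j : ℝ) ^ 2 * ‖L2 ((j : ℂ) * s)‖ ≤
        (1 / s) ^ 2 * (16 * Real.exp (-((j * s) / 2))) := by
      intro j hj
      have hj' : (0 : ℝ) < j := by exact_mod_cast hj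
      have e : ((j : ℂ) * (s : ℂ)) = ((j * s : ℝ) : ℂ) := by push_cast; rfl
      rw [e, norm_L2 _ (by positivity)]
      have h2 := bound2 (j * s) (by positivity)
      have h3 := mul_le_mul_of_nonneg_left h2 (sq_nonneg (1 / s))
      refine le_trans (le_of_eq ?_) h3
      field_simp
    have h2 : ∑ i ∈ Icc 2 n, ((((n + i : ℕ) : ℝ)) ^ 2 * ‖L2 ((n + i : ℕ) * s)‖ +
        (i : ℝ) ^ 2 * ‖L2 (i * s)‖) ≤ ∑ i ∈ Icc 2 n, ((1 / s) ^ 2 * 16) *
          (Real.exp (-(((n + i : ℕ) * s) / 2)) + Real.exp (-((i * s) / 2))) := by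
      refine sum_le_sum fun i hi => ?_
      rw [mem_Icc] at hi
      have ha := h1 (n + i) (by omega)
      have hb := h1 i (by omega)
      linarith
    refine h2.trans ?_
    rw [← mul_sum]
    have h3 : (1 / s) ^ 2 ≤ (6 * M) ^ 2 := pow_le_pow_left₀ hs0 hs1 2
    have h4 : (1 / s) ^ 2 * 16 ≤ (6 * M) ^ 2 * 16 := by linarith
    refine (mul_le_mul h4 hsum (sum_nonneg fun i _ => by positivity) (by positivity)).trans
      (le_of_eq ?_)
    ring
  · intro θ _
    have h1 : ∀ j : ℕ, 1 ≤ j → (j : ℝ) ^ 3 * ‖L3 ((j : ℂ) * ((s : ℂ) - θ * Complex.I))‖ ≤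
        (1 / s) ^ 3 * (432 * Real.exp (-((j * s) / 2))) := by
      intro j hj
      have hj' : (0 : ℝ) < j := by exact_mod_cast hj
      have h0 := norm_L3 _ (hpos j θ hj)
      rw [hre] at h0
      have h2 := bound3 (j * s) (by positivity)
      have h3 := mul_le_mul_of_nonneg_left h2 (by positivity : (0 : ℝ) ≤ (1 / s) ^ 3)
      refine (mul_le_mul_of_nonneg_left h0 (by positivity)).trans
        (le_trans (le_of_eq ?_) h3)
      field_simp
    have h2 : ∑ i ∈ Icc 2 n, ((((n + i : ℕ) : ℝ)) ^ 3 *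
        ‖L3 ((n + i : ℕ) * ((s : ℂ) - θ * Complex.I))‖ +
        (i : ℝ) ^ 3 * ‖L3 (i * ((s : ℂ) - θ * Complex.I))‖) ≤
        ∑ i ∈ Icc 2 n, ((1 / s) ^ 3 * 432) *
          (Real.exp (-(((n + i : ℕ) * s) / 2)) + Real.exp (-((i * s) / 2))) := by
      refine sum_le_sum fun i hi => ?_
      rw [mem_Icc] at hi
      have ha := h1 (n + i) (by omega)
      have hb := h1 i (by omega)
      linarith
    refine h2.trans ?_
    rw [← mul_sum]
    have h3 : (1 / s) ^ 3 ≤ (6 * M) ^ 3 := pow_le_pow_left₀ hs0 hs1 3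
    have h4 : (1 / s) ^ 3 * 432 ≤ (6 * M) ^ 3 * 432 := by linarith
    refine (mul_le_mul h4 hsum (sum_nonneg fun i _ => by positivity) (by positivity)).trans
      (le_of_eq ?_)
    ring

end RegA

end Pool.Agent.H20.QCat
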