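import Pool.Agent.H20.QCat.Fourier

/-! # Bound for the q-Catalan polynomial away from the positive axis -/

namespace Pool.Agent.H20.QCat

open Polynomial Finset

lemma norm_one_add (t α : ℝ) (ht : 0 ≤ t) :
    ‖(1 : ℂ) + t * Complex.exp (α * Complex.I)‖ ≤
      (1 + t) * Real.exp (-(t / (1 + t) ^ 2 * (1 - Real.cos α))) := by
  have h0 : 0 ≤ (1 + t) * Real.exp (-(t / (1 + t) ^ 2 * (1 - Real.cos α))) := by positivity
  rw [← abs_of_nonneg h0, ← abs_of_nonneg (norm_nonneg _)]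
  rw [← sq_le_sq]
  rw [← Complex.normSq_eq_norm_sq, Complex.normSq_apply]
  have hre : ((1 : ℂ) + t * Complex.exp (α * Complex.I)).re = 1 + t * Real.cos α := by
    simp [Complex.exp_ofReal_mul_I_re]
  have him : ((1 : ℂ) + t * Complex.exp (α * Complex.I)).im = t * Real.sin α := by
    simp [Complex.exp_ofReal_mul_I_im]
  rw [hre, him, mul_pow, ← Real.exp_nat_mul]
  have h1 : 1 - 2 * (t / (1 + t) ^ 2 * (1 - Real.cos α)) ≤
      Real.exp ((2 : ℕ) * (-(t / (1 + t) ^ 2 * (1 - Real.cos α)))) := by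
    have := Real.add_one_le_exp ((2 : ℕ) * (-(t / (1 + t) ^ 2 * (1 - Real.cos α))))
    push_cast at this ⊢
    linarith
  have h2 : (1 + t) ^ 2 * (1 - 2 * (t / (1 + t) ^ 2 * (1 - Real.cos α))) =
      (1 + t) ^ 2 - 2 * t * (1 - Real.cos α) := by
    field_simp
  have h3 := mul_le_mul_of_nonneg_left h1 (sq_nonneg (1 + t))
  rw [h2] at h3
  nlinarith [Real.sin_sq_add_cos_sq α]

lemma three_term (α β : ℝ) :
    2 * (1 - Real.cos β) ≤ (1 - Real.cos (α - β)) + 2 * (1 - Real.cos α) +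
      (1 - Real.cos (α + β)) := by
  rw [Real.cos_sub, Real.cos_add]
  nlinarith [Real.cos_le_one α, Real.neg_one_le_cos β,
    mul_nonneg (sub_nonneg.2 (Real.cos_le_one α))
      (by linarith [Real.neg_one_le_cos β] : (0 : ℝ) ≤ 1 + Real.cos β)]

lemma window_sum (φ θ : ℝ) (M m : ℕ) (h : 2 * m ≤ M) :
    (M / 2 : ℝ) * (1 - Real.cos (m * θ)) ≤
      ∑ j ∈ range (2 * M), (1 - Real.cos (φ + j * θ)) := by
  set c : ℕ → ℝ := fun j => 1 - Real.cos (φ + j * θ) with hc
  have hc0 : ∀ j, 0 ≤ c j := fun j => sub_nonneg.2 (Real.cos_le_one _)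
  have h1 : ∀ j ∈ range (2 * M - 2 * m), 2 * (1 - Real.cos (m * θ)) ≤
      c j + 2 * c (j + m) + c (j + 2 * m) := by
    intro j _
    have := three_term (φ + (j + m : ℕ) * θ) (m * θ)
    have e1 : φ + ((j + m : ℕ) : ℝ) * θ - m * θ = φ + j * θ := by push_cast; ring
    have e2 : φ + ((j + m : ℕ) : ℝ) * θ + m * θ = φ + (j + 2 * m : ℕ) * θ := by push_cast; ring
    rw [e1, e2] at this
    exact this
  have h2 := sum_le_sum h1
  rw [sum_const, card_range, nsmul_eq_mul, sum_add_distrib, sum_add_distrib, ← mul_sum] at h2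
  have h3 : ∀ d, d ≤ 2 * m → ∑ j ∈ range (2 * M - 2 * m), c (j + d) ≤ ∑ j ∈ range (2 * M), c j := by
    intro d hd
    rw [← Finset.sum_image (s := range (2 * M - 2 * m)) (g := fun j => j + d) (f := c)]
    · apply sum_le_sum_of_subset_of_nonneg
      · intro x
        simp only [mem_image, mem_range]
        rintro ⟨a, ha, rfl⟩
        omega
      · intro _ _ _; exact hc0 _
    · intro a _ b _ hab; simpa using hab
  have h4 := h3 0 (by omega)
  have h5 := h3 m (by omega)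
  have h6 := h3 (2 * m) (by omega)
  simp only [add_zero] at h4
  have h7 : (M : ℝ) ≤ ((2 * M - 2 * m : ℕ) : ℝ) := by
    exact_mod_cast (by omega : M ≤ 2 * M - 2 * m)
  have h8 : 0 ≤ 1 - Real.cos (m * θ) := sub_nonneg.2 (Real.cos_le_one _)
  have h9 : (M : ℝ) * (2 * (1 - Real.cos (m * θ))) ≤
      ((2 * M - 2 * m : ℕ) : ℝ) * (2 * (1 - Real.cos (m * θ))) :=
    mul_le_mul_of_nonneg_right h7 (by linarith)
  linarith

lemma choose_step (θ : ℝ) (hθ : 0 < θ) (hθ' : θ ≤ Real.pi) (M : ℕ) (hM : 2 ≤ M) :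
    ∃ m : ℕ, 2 * m ≤ M ∧
      min 1 (2 * (M : ℝ) ^ 2 * θ ^ 2 / (9 * Real.pi ^ 2)) ≤ 1 - Real.cos (m * θ) := by
  have hpi := Real.pi_pos
  by_cases h : ((M / 2 : ℕ) : ℝ) * θ ≤ Real.pi
  · refine ⟨M / 2, by omega, (min_le_right _ _).trans ?_⟩
    have h1 := Real.cos_le_one_sub_mul_cos_sq (x := ((M / 2 : ℕ) : ℝ) * θ)
      (by rw [abs_of_nonneg (by positivity)]; exact h)
    have h2 : (M : ℝ) ≤ 3 * ((M / 2 : ℕ) : ℝ) := by
      exact_mod_cast (by omega : M ≤ 3 * (M / 2))
    have h3 : 2 * (M : ℝ) ^ 2 * θ ^ 2 / (9 * Real.pi ^ 2) ≤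
        2 / Real.pi ^ 2 * (((M / 2 : ℕ) : ℝ) * θ) ^ 2 := by
      rw [div_le_iff₀ (by positivity)]
      have : 2 / Real.pi ^ 2 * (((M / 2 : ℕ) : ℝ) * θ) ^ 2 * (9 * Real.pi ^ 2) =
          2 * θ ^ 2 * (3 * ((M / 2 : ℕ) : ℝ)) ^ 2 := by
        field_simp
        ring
      rw [this]
      have h4 : (M : ℝ) ^ 2 ≤ (3 * ((M / 2 : ℕ) : ℝ)) ^ 2 := pow_le_pow_left₀ (by positivity) h2 2
      nlinarith [mul_le_mul_of_nonneg_left h4 (by positivity : (0 : ℝ) ≤ 2 * θ ^ 2)]
    linarith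
  · push Not at h
    set m := ⌊Real.pi / θ⌋₊ with hm
    have hx : 1 ≤ Real.pi / θ := by rw [le_div_iff₀ hθ]; linarith
    have hm1 : 1 ≤ m := by rw [hm]; exact Nat.le_floor (by simpa using hx)
    have hm2 : (m : ℝ) ≤ Real.pi / θ := Nat.floor_le (by positivity)
    have hm3 : Real.pi / θ < m + 1 := Nat.lt_floor_add_one _
    have hm4 : (m : ℝ) * θ ≤ Real.pi := by rwa [le_div_iff₀ hθ] at hm2
    have hm5 : Real.pi / 2 ≤ (m : ℝ) * θ := by
      have : Real.pi < (m + 1) * θ := by rwa [div_lt_iff₀ hθ] at hm3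
      have h1 : (1 : ℝ) ≤ m := by exact_mod_cast hm1
      nlinarith
    have hm6 : m ≤ M / 2 := by
      have : (m : ℝ) < ((M / 2 : ℕ) : ℝ) := by
        by_contra hcon
        push Not at hcon
        nlinarith
      exact_mod_cast this.le
    refine ⟨m, by omega, (min_le_left _ _).trans ?_⟩
    have : Real.cos (m * θ) ≤ 0 := Real.cos_nonpos_of_pi_div_two_le_of_le hm5 (by linarith)
    linarith

/-- the decay factor -/
noncomputable def dec (M : ℕ) (θ : ℝ) : ℝ :=
  Real.exp (-((M / 10 : ℝ) * min 1 (2 * (M : ℝ) ^ 2 * θ ^ 2 / (9 * Real.pi ^ 2))))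

lemma prod_bound (n M : ℕ) (hM : 2 ≤ M) (hMn : M ≤ n) (s φ θ : ℝ) (hs : 0 ≤ s)
    (hMs : 4 * M * s ≤ 1) (hθ : 0 < θ) (hθ' : θ ≤ Real.pi) :
    ‖∏ j ∈ range (2 * n), ((1 : ℂ) + ((Real.exp (s * (n - 1 / 2)) : ℝ) : ℂ) *
        Complex.exp (φ * Complex.I) *
        (((Real.exp (-s) : ℝ) : ℂ) * Complex.exp (θ * Complex.I)) ^ j)‖ ≤
      (∏ j ∈ range (2 * n), (1 + Real.exp (s * (n - 1 / 2)) * Real.exp (-s) ^ j)) * dec M θ := by
  set t : ℕ → ℝ := fun j => Real.exp (s * (n - 1 / 2)) * Real.exp (-s) ^ j with ht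
  have ht0 : ∀ j, 0 < t j := fun j => by positivity
  have h1 : ∀ j : ℕ, (1 : ℂ) + ((Real.exp (s * (n - 1 / 2)) : ℝ) : ℂ) *
        Complex.exp (φ * Complex.I) *
        (((Real.exp (-s) : ℝ) : ℂ) * Complex.exp (θ * Complex.I)) ^ j =
      1 + (t j : ℂ) * Complex.exp (((φ + j * θ : ℝ) : ℂ) * Complex.I) := by
    intro j
    have he : Complex.exp (((φ + j * θ : ℝ) : ℂ) * Complex.I) =
        Complex.exp (φ * Complex.I) * Complex.exp (j * (θ * Complex.I)) := by
      rw [← Complex.exp_add]; congr 1; push_cast; ring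
    rw [mul_pow, ← Complex.exp_nat_mul, he]
    simp only [ht]
    push_cast
    ring
  simp_rw [h1]
  rw [norm_prod]
  have h2 : ∏ j ∈ range (2 * n), ‖(1 : ℂ) + (t j : ℂ) *
      Complex.exp (((φ + j * θ : ℝ) : ℂ) * Complex.I)‖ ≤
      ∏ j ∈ range (2 * n), ((1 + t j) *
        Real.exp (-(t j / (1 + t j) ^ 2 * (1 - Real.cos (φ + j * θ))))) :=
    prod_le_prod (fun _ _ => norm_nonneg _) fun j _ => norm_one_add _ _ (ht0 j).le
  refine h2.trans ?_
  rw [prod_mul_distrib, ← Real.exp_sum]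
  refine mul_le_mul_of_nonneg_left ?_ (prod_nonneg fun j _ => by linarith [ht0 j])
  rw [dec]
  apply Real.exp_le_exp.2
  rw [sum_neg_distrib, neg_le_neg_iff]
  -- restrict to the window
  obtain ⟨m, hm, hm'⟩ := choose_step θ hθ hθ' M hM
  have h3 := window_sum (φ + (n - M : ℕ) * θ) θ M m hm
  have h4 : ∑ j ∈ range (2 * M), (1 - Real.cos (φ + (n - M : ℕ) * θ + j * θ)) / 5 ≤
      ∑ j ∈ range (2 * n), t j / (1 + t j) ^ 2 * (1 - Real.cos (φ + j * θ)) := by
    have h5 : ∀ j ∈ range (2 * M), (1 - Real.cos (φ + (n - M : ℕ) * θ + j * θ)) / 5 ≤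
        t (j + (n - M)) / (1 + t (j + (n - M))) ^ 2 *
          (1 - Real.cos (φ + (j + (n - M) : ℕ) * θ)) := by
      intro j hj
      rw [mem_range] at hj
      have e : φ + ((n - M : ℕ) : ℝ) * θ + j * θ = φ + (j + (n - M) : ℕ) * θ := by
        push_cast; ring
      rw [e]
      have h6 : 0 ≤ 1 - Real.cos (φ + (j + (n - M) : ℕ) * θ) := sub_nonneg.2 (Real.cos_le_one _)
      have h7 : t (j + (n - M)) = Real.exp (s * (M - 1 / 2 - j)) := by
        simp only [ht]
        rw [← Real.exp_nat_mul, ← Real.exp_add]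
        congr 1
        push_cast [Nat.cast_sub hMn]
        ring
      have hj' : (j : ℝ) + 1 ≤ 2 * M := by exact_mod_cast hj
      have hj0 : (0 : ℝ) ≤ j := Nat.cast_nonneg _
      have hy1 : s * (M - 1 / 2 - j) ≤ 1 / 4 := by nlinarith
      have hy2 : -(1 / 4) ≤ s * (M - 1 / 2 - j) := by nlinarith
      have h8 : 3 / 4 ≤ t (j + (n - M)) := by
        rw [h7]; linarith [Real.add_one_le_exp (s * (M - 1 / 2 - j))]
      have h9 : t (j + (n - M)) ≤ 4 / 3 := by
        rw [h7]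
        have h10 := Real.add_one_le_exp (-(s * (M - 1 / 2 - j)))
        have h11 : Real.exp (s * (M - 1 / 2 - j)) * Real.exp (-(s * (M - 1 / 2 - j))) = 1 := by
          rw [← Real.exp_add]; simp
        have h12 := Real.exp_pos (s * (M - 1 / 2 - j))
        nlinarith
      have h10 : 1 / 5 ≤ t (j + (n - M)) / (1 + t (j + (n - M))) ^ 2 := by
        rw [le_div_iff₀ (by positivity)]
        nlinarith
      have := mul_le_mul_of_nonneg_right h10 h6
      linarith
    refine (sum_le_sum h5).trans ?_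
    rw [← Finset.sum_image (s := range (2 * M)) (g := fun j => j + (n - M))
      (f := fun j => t j / (1 + t j) ^ 2 * (1 - Real.cos (φ + (j : ℕ) * θ)))]
    · apply sum_le_sum_of_subset_of_nonneg
      · intro x
        simp only [mem_image, mem_range]
        rintro ⟨a, ha, rfl⟩
        omega
      · intro j _ _
        have := ht0 j
        have h6 : 0 ≤ 1 - Real.cos (φ + j * θ) := sub_nonneg.2 (Real.cos_le_one _)
        positivity
    · intro a _ b _ hab; simpa using hab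
  rw [← sum_div] at h4
  have h5 : (M / 2 : ℝ) * min 1 (2 * (M : ℝ) ^ 2 * θ ^ 2 / (9 * Real.pi ^ 2)) ≤
      (M / 2 : ℝ) * (1 - Real.cos (m * θ)) := mul_le_mul_of_nonneg_left hm' (by positivity)
  linarith

/-- the weights `r^(k choose 2) ρ^k` -/
noncomputable def wt (n : ℕ) (s : ℝ) (k : ℕ) : ℝ :=
  Real.exp (-s) ^ (k.choose 2) * Real.exp (s * (n - 1 / 2)) ^ k

lemma wt_pos (n : ℕ) (s : ℝ) (k : ℕ) : 0 < wt n s k := by rw [wt]; positivity

lemma wt_eq (n : ℕ) (s : ℝ) (k : ℕ) :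
    wt n s k = wt n s n * Real.exp (-(s * (k - n) ^ 2 / 2)) := by
  rw [wt, wt, ← Real.exp_nat_mul, ← Real.exp_nat_mul, ← Real.exp_nat_mul, ← Real.exp_nat_mul,
    ← Real.exp_add, ← Real.exp_add, ← Real.exp_add, Nat.cast_choose_two, Nat.cast_choose_two]
  congr 1
  ring

lemma geom_bound (x : ℝ) (h0 : 0 ≤ x) (h1 : x < 1) (n : ℕ) :
    ∑ i ∈ range n, x ^ i ≤ 1 / (1 - x) := by
  rw [le_div_iff₀ (by linarith), geom_sum_mul_neg]
  have := pow_nonneg h0 n
  linarith

lemma one_div_one_sub_exp (s : ℝ) (hs : 0 < s) : 1 / (1 - Real.exp (-s)) ≤ 1 + 1 / s := by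
  have h1 : Real.exp (-s) < 1 := by rw [Real.exp_lt_one_iff]; linarith
  have h2 := Real.add_one_le_exp s
  have h3 : Real.exp s * Real.exp (-s) = 1 := by rw [← Real.exp_add]; simp
  have h4 := Real.exp_pos (-s)
  rw [div_le_iff₀ (by linarith)]
  have h5 : (1 + s) * Real.exp (-s) ≤ 1 := by nlinarith
  have : (1 + 1 / s) * (1 - Real.exp (-s)) = (1 + s - (1 + s) * Real.exp (-s)) / s := by
    field_simp
    ring
  rw [this, le_div_iff₀ hs]
  linarith

lemma T_bound (n M : ℕ) (s : ℝ) (hs : 0 ≤ s) (h : M = n ∨ 1 < 4 * (M + 1) * s) :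
    ∑ k ∈ range (2 * n + 1), Real.exp (-(s * ((k : ℝ) - n) ^ 2 / 2)) ≤ 16 * M + 18 := by
  rcases h with rfl | h
  · have : ∑ k ∈ range (2 * M + 1), Real.exp (-(s * ((k : ℝ) - M) ^ 2 / 2)) ≤
        ∑ k ∈ range (2 * M + 1), (1 : ℝ) := by
      refine sum_le_sum fun k _ => ?_
      rw [Real.exp_le_one_iff]
      have : 0 ≤ s * ((k : ℝ) - M) ^ 2 / 2 := by positivity
      linarith
    refine this.trans ?_
    rw [sum_const, card_range, nsmul_eq_mul]
    push_cast
    have : (0 : ℝ) ≤ M := Nat.cast_nonneg _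
    linarith
  · have hs' : 0 < s := by
      by_contra hcon
      have : s = 0 := by linarith
      rw [this] at h
      linarith [h]
    set x := Real.exp (-(s / 2)) with hx
    have hx0 : 0 ≤ x := by positivity
    have hx1 : x < 1 := by rw [hx, Real.exp_lt_one_iff]; linarith
    have h1 : ∀ k : ℕ, Real.exp (-(s * ((k : ℝ) - n) ^ 2 / 2)) ≤
        if k ≤ n then x ^ (n - k) else x ^ (k - n) := by
      intro k
      split_ifs with hk
      · rw [hx, ← Real.exp_nat_mul]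
        apply Real.exp_le_exp.2
        rw [Nat.cast_sub hk]
        have h2 : (k : ℝ) ≤ n := by exact_mod_cast hk
        have h3 : ((n : ℝ) - k) ≤ ((n : ℝ) - k) ^ 2 := by
          rw [← Nat.cast_sub hk]
          have : ((n - k : ℕ) : ℝ) ≤ ((n - k : ℕ) : ℝ) ^ 2 := by
            exact_mod_cast Nat.le_self_pow (by norm_num) _
          exact this
        nlinarith
      · push Not at hk
        rw [hx, ← Real.exp_nat_mul]
        apply Real.exp_le_exp.2
        rw [Nat.cast_sub hk.le]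
        have h3 : ((k : ℝ) - n) ≤ ((k : ℝ) - n) ^ 2 := by
          rw [← Nat.cast_sub hk.le]
          have : ((k - n : ℕ) : ℝ) ≤ ((k - n : ℕ) : ℝ) ^ 2 := by
            exact_mod_cast Nat.le_self_pow (by norm_num) _
          exact this
        nlinarith
    have h2 : ∑ k ∈ range (2 * n + 1), Real.exp (-(s * ((k : ℝ) - n) ^ 2 / 2)) ≤
        ∑ i ∈ range (n + 1), x ^ i + ∑ i ∈ range (n + 1), x ^ i := by
      refine (sum_le_sum fun k _ => h1 k).trans ?_
      have e : 2 * n + 1 = (n + 1) + n := by omega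
      rw [e, sum_range_add]
      apply add_le_add
      · rw [← Finset.sum_range_reflect (fun i => x ^ i)]
        refine (sum_congr rfl fun k hk => ?_).le
        rw [mem_range] at hk
        rw [if_pos (by omega)]
        congr 1
      · rw [Finset.sum_range_succ' (fun i => x ^ i)]
        have : ∑ k ∈ range n, (if n + 1 + k ≤ n then x ^ (n - (n + 1 + k)) else
            x ^ (n + 1 + k - n)) = ∑ k ∈ range n, x ^ (k + 1) := by
          refine sum_congr rfl fun k _ => ?_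
          rw [if_neg (by omega)]
          congr 1
          omega
        rw [this]
        simp
    have h3 := geom_bound x hx0 hx1 (n + 1)
    have h4 := one_div_one_sub_exp (s / 2) (by linarith)
    rw [← hx] at h4
    have h5 : 1 / (s / 2) ≤ 8 * (M + 1) := by
      rw [div_le_iff₀ (by linarith)]
      linarith
    linarith

lemma qnum_bound (n M : ℕ) (s : ℝ) (hs : 0 ≤ s) (h : M = n ∨ 1 < 4 * (M + 1) * s) :
    aeval (Real.exp (-s)) (qnum (n + 1)) ≤ 4 * M + 5 := by
  rw [aeval_qnum]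
  rcases h with rfl | h
  · have : ∑ i ∈ range (M + 1), Real.exp (-s) ^ i ≤ ∑ i ∈ range (M + 1), (1 : ℝ) := by
      refine sum_le_sum fun i _ => ?_
      exact pow_le_one₀ (Real.exp_pos _).le (by rw [Real.exp_le_one_iff]; linarith)
    refine this.trans ?_
    rw [sum_const, card_range, nsmul_eq_mul]
    push_cast
    have : (0 : ℝ) ≤ M := Nat.cast_nonneg _
    linarith
  · have hs' : 0 < s := by
      by_contra hcon
      have : s = 0 := by linarith
      rw [this] at h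
      linarith [h]
    have h3 := geom_bound (Real.exp (-s)) (Real.exp_pos _).le
      (by rw [Real.exp_lt_one_iff]; linarith) (n + 1)
    have h4 := one_div_one_sub_exp s hs'
    have h5 : 1 / s ≤ 4 * (M + 1) := by
      rw [div_le_iff₀ hs']
      linarith
    linarith

/-- **Tail bound.** -/
theorem tail_bound (n M : ℕ) (hM : 2 ≤ M) (hMn : M ≤ n) (s θ : ℝ) (hs : 0 ≤ s)
    (hMs : 4 * M * s ≤ 1) (h : M = n ∨ 1 < 4 * (M + 1) * s) (hθ : 0 < θ) (hθ' : θ ≤ Real.pi) :
    ‖aeval (((Real.exp (-s) : ℝ) : ℂ) * Complex.exp (θ * Complex.I)) (qCatalan n)‖ ≤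
      aeval (Real.exp (-s)) (qCatalan n) * (400 * M ^ 2 * dec M θ) := by
  set r := Real.exp (-s) with hr
  set ρ := Real.exp (s * (n - 1 / 2)) with hρ
  set z : ℂ := (r : ℂ) * Complex.exp (θ * Complex.I) with hz
  have hr0 : 0 < r := Real.exp_pos _
  have hznorm : ‖z‖ = r := by
    rw [hz, norm_mul, Complex.norm_exp_ofReal_mul_I, mul_one, Complex.norm_real,
      Real.norm_of_nonneg hr0.le]
  set Q := aeval r (qb (2 * n) n) with hQ
  set T := ∑ k ∈ range (2 * n + 1), Real.exp (-(s * ((k : ℝ) - n) ^ 2 / 2)) with hT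
  have hQ0 : 0 < Q := aeval_qb_pos hr0 (by omega)
  have hT0 : 0 ≤ T := sum_nonneg fun _ _ => (Real.exp_pos _).le
  -- the product at real points
  have h1 : ∏ j ∈ range (2 * n), (1 + ρ * r ^ j) ≤ Q * (wt n s n * T) := by
    rw [qbinom ℝ ρ r (2 * n), hT, mul_sum, mul_sum]
    refine sum_le_sum fun k _ => ?_
    rw [← wt_eq, mul_assoc]
    exact mul_le_mul_of_nonneg_right (aeval_qb_le hr0 n k) (wt_pos n s k).le
  set B := Q * (wt n s n * T) * dec M θ with hB
  have hdec : 0 < dec M θ := Real.exp_pos _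
  have h2 : ∀ φ : ℝ, ‖∑ k ∈ range (2 * n + 1), (aeval z (qb (2 * n) k) * z ^ (k.choose 2)) *
      ((ρ : ℂ) * Complex.exp (φ * Complex.I)) ^ k‖ ≤ B := by
    intro φ
    rw [← qbinom ℂ ((ρ : ℂ) * Complex.exp (φ * Complex.I)) z (2 * n)]
    exact (prod_bound n M hM hMn s φ θ hs hMs hθ hθ').trans
      (mul_le_mul_of_nonneg_right h1 hdec.le)
  have h3 : ∀ κ, κ < 2 * n + 1 → ‖aeval z (qb (2 * n) κ)‖ * wt n s κ ≤ B := by
    intro κ hκ
    have := coeff_bound (fun k => aeval z (qb (2 * n) k) * z ^ (k.choose 2)) (2 * n + 1) κ hκ ρ B h2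
    rw [norm_mul, norm_mul, norm_pow, norm_pow, hznorm, Complex.norm_real,
      Real.norm_of_nonneg (Real.exp_pos _).le, mul_assoc] at this
    exact this
  have hw := wt_pos n s n
  have h4 : ‖aeval z (qb (2 * n) n)‖ ≤ Q * T * dec M θ := by
    have := h3 n (by omega)
    have e : B = (Q * T * dec M θ) * wt n s n := by rw [hB]; ring
    rw [e] at this
    exact le_of_mul_le_mul_right this hw
  have h5 : ‖z * aeval z (qb (2 * n) (n + 1))‖ ≤ Q * T * dec M θ := by
    rw [norm_mul, hznorm]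
    have := h3 (n + 1) (by omega)
    rw [wt_eq n s (n + 1)] at this
    have e : B = (Q * T * dec M θ) * wt n s n := by rw [hB]; ring
    rw [e, mul_comm (wt n s n), ← mul_assoc] at this
    have h6 := le_of_mul_le_mul_right this hw
    refine le_trans ?_ h6
    rw [mul_comm]
    refine mul_le_mul_of_nonneg_left ?_ (norm_nonneg _)
    rw [hr]
    apply Real.exp_le_exp.2
    push_cast
    have : ((n : ℝ) + 1 - n) = 1 := by ring
    rw [this]
    linarith
  have h6 : ‖aeval z (qCatalan n)‖ ≤ 2 * (Q * T * dec M θ) := by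
    rw [qCatalan_eq, map_sub, map_mul, aeval_X]
    refine (norm_sub_le _ _).trans ?_
    linarith
  have h7 : Q = aeval r (qCatalan n) * aeval r (qnum (n + 1)) := by
    rw [hQ, ← qCatalan_qnum, map_mul]
  have h8 := T_bound n M s hs h
  have h9 := qnum_bound n M s hs h
  rw [← hT] at h8
  rw [← hr] at h9
  have hC := aeval_qCatalan_pos hr0 n
  have hq := aeval_qnum_pos hr0 n
  have hM' : (2 : ℝ) ≤ M := by exact_mod_cast hM
  refine h6.trans ?_
  rw [h7]
  have h10 : aeval r (qnum (n + 1)) * T ≤ (4 * M + 5) * (16 * M + 18) :=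
    mul_le_mul h9 h8 hT0 (by positivity)
  have h11 : 2 * (aeval r (qnum (n + 1)) * T) ≤ 400 * (M : ℝ) ^ 2 := by nlinarith
  calc 2 * (aeval r (qCatalan n) * aeval r (qnum (n + 1)) * T * dec M θ)
      = (aeval r (qCatalan n) * dec M θ) * (2 * (aeval r (qnum (n + 1)) * T)) := by ring
    _ ≤ (aeval r (qCatalan n) * dec M θ) * (400 * (M : ℝ) ^ 2) :=
        mul_le_mul_of_nonneg_left h11 (by positivity)
    _ = _ := by ring

end Pool.Agent.H20.QCat
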